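import Mathlib
import Pool.Agent.TH925.SN.G

set_option autoImplicit false
set_option linter.unusedVariables false

open Bundle
open scoped ContDiff InnerProductSpace Manifold

namespace Pool.Agent.TH925.J14

open Pool.Agent.H864R3 Pool.Agent.TH925.SN in
/-- The conclusion of S14193 for a surface with an isometric embedding in a Euclidean space. -/
theorem transfer (S : Type) [MetricSpace S] [ChartedSpace (EuclideanSpace ℝ (Fin 2)) S]
    [IsManifold 𝓘(ℝ, EuclideanSpace ℝ (Fin 2)) ∞ S] [CompactSpace S] [ConnectedSpace S]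
    [RiemannianBundle (fun x : S => TangentSpace 𝓘(ℝ, EuclideanSpace ℝ (Fin 2)) x)]
    [IsContMDiffRiemannianBundle 𝓘(ℝ, EuclideanSpace ℝ (Fin 2)) ∞ (EuclideanSpace ℝ (Fin 2))
      (fun x : S => TangentSpace 𝓘(ℝ, EuclideanSpace ℝ (Fin 2)) x)]
    [IsRiemannianManifold 𝓘(ℝ, EuclideanSpace ℝ (Fin 2)) S]
    (N : ℕ) (F : S → EuclideanSpace ℝ (Fin N))
    (hF : ContMDiff 𝓘(ℝ, EuclideanSpace ℝ (Fin 2)) 𝓘(ℝ, EuclideanSpace ℝ (Fin N)) ∞ F)
    (hinj : Function.Injective F)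
    (hiso : ∀ (x : S) (v : TangentSpace 𝓘(ℝ, EuclideanSpace ℝ (Fin 2)) x),
        ‖@id (EuclideanSpace ℝ (Fin N)) (mfderiv 𝓘(ℝ, EuclideanSpace ℝ (Fin 2))
          𝓘(ℝ, EuclideanSpace ℝ (Fin N)) F x v)‖ = ‖v‖) :
  ∀ U : Set S, IsOpen U → U.Nonempty →
  ∃ (n m : ℕ) (src tgt : Fin m → Fin n) (p : Fin n → S) (γ : Fin m → ℝ → S),
    (∀ e, ∃ c : ℝ, 0 < c ∧ ∀ t ∈ Set.Icc (0:ℝ) 1, ∃ δ > 0,
        ∀ s ∈ Set.Icc (0:ℝ) 1, ∀ s' ∈ Set.Icc (0:ℝ) 1,
          |s - t| < δ → |s' - t| < δ → dist (γ e s) (γ e s') = c * |s - s'|) ∧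
    (∀ e, γ e 0 = p (src e) ∧ γ e 1 = p (tgt e)) ∧
    (∀ v, 3 ≤ (Finset.univ.filter (fun e => src e = v)).card
              + (Finset.univ.filter (fun e => tgt e = v)).card) ∧
    (∀ v,
      (∑ e ∈ Finset.univ.filter (fun e => src e = v),
        ‖@id (TangentSpace 𝓘(ℝ, EuclideanSpace ℝ (Fin 2)) (p v))
            (mfderivWithin 𝓘(ℝ, ℝ) 𝓘(ℝ, EuclideanSpace ℝ (Fin 2)) (γ e) (Set.Icc 0 1) 0 (1 : ℝ))‖⁻¹
          • @id (TangentSpace 𝓘(ℝ, EuclideanSpace ℝ (Fin 2)) (p v))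
            (mfderivWithin 𝓘(ℝ, ℝ) 𝓘(ℝ, EuclideanSpace ℝ (Fin 2)) (γ e) (Set.Icc 0 1) 0 (1 : ℝ)))
      - (∑ e ∈ Finset.univ.filter (fun e => tgt e = v),
        ‖@id (TangentSpace 𝓘(ℝ, EuclideanSpace ℝ (Fin 2)) (p v))
            (mfderivWithin 𝓘(ℝ, ℝ) 𝓘(ℝ, EuclideanSpace ℝ (Fin 2)) (γ e) (Set.Icc 0 1) 1 (1 : ℝ))‖⁻¹
          • @id (TangentSpace 𝓘(ℝ, EuclideanSpace ℝ (Fin 2)) (p v))
            (mfderivWithin 𝓘(ℝ, ℝ) 𝓘(ℝ, EuclideanSpace ℝ (Fin 2)) (γ e) (Set.Icc 0 1) 1 (1 : ℝ)))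
      = 0) ∧
    (¬ ∃ (k : ℕ) (c : Fin k → ℝ → S) (T : Fin k → ℝ),
        (∀ i, 0 < T i ∧ Function.Periodic (c i) (T i) ∧ Set.InjOn (c i) (Set.Ico 0 (T i)) ∧
          ∃ a : ℝ, 0 < a ∧ ∀ t : ℝ, ∃ δ > 0, ∀ s s' : ℝ,
            |s - t| < δ → |s' - t| < δ → dist (c i s) (c i s') = a * |s - s'|) ∧
        (Pairwise fun i j => Disjoint (Set.range (c i)) (Set.range (c j))) ∧
        (⋃ e, γ e '' Set.Icc (0:ℝ) 1) = ⋃ i, Set.range (c i)) ∧
    ((⋃ e, γ e '' Set.Icc (0:ℝ) 1) ∩ U).Nonempty := by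
  intro U hU hUne
  classical
  have hS : Nonempty S := ⟨hUne.some⟩
  have hiso' : Iso F := hiso
  have hrc : IsCompact (Set.range F) := isCompact_range hF.continuous
  obtain ⟨R, hR⟩ := T1.tube (Set.range F) hrc (isSurface_range hF hinj hiso')
  obtain ⟨L⟩ := T3.exists_LE R
  have hinv : ∀ y, Function.invFun F (F y) = y := Function.leftInverse_invFun hinj
  have hr := L.r_pos
  -- the open set in the Euclidean space
  have hcl : IsClosed (F '' Uᶜ) := ((hU.isClosed_compl.isCompact).image hF.continuous).isClosed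
  obtain ⟨G, hG, z, hzG, hzU⟩ := density_RS R (F '' Uᶜ)ᶜ hcl.isOpen_compl (by
    obtain ⟨x, hx⟩ := hUne
    refine ⟨F x, hR ▸ ⟨x, rfl⟩, ?_⟩
    rintro ⟨y, hy, hyx⟩
    exact hy (hinj hyx ▸ hx))
  let := G.fV
  let := G.fA
  let := G.dV
  set eV := Fintype.equivFin G.V with heV
  set eA := Fintype.equivFin G.A with heA
  have hmem : ∀ a, ∀ t ∈ Set.Icc 0 (G.len a), G.γ a t ∈ Set.range F := fun a t ht =>
    hR ▸ (G.geod a).mem t ht
  set γ' : G.A → ℝ → S := fun a t => Function.invFun F (G.γ a (G.len a * t)) with hγ'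
  have hscale : ∀ a, ∀ t ∈ Set.Icc (0:ℝ) 1, G.len a * t ∈ Set.Icc 0 (G.len a) := by
    intro a t ht
    have := G.len_pos a
    exact ⟨mul_nonneg this.le ht.1, by nlinarith [ht.2]⟩
  have hFγ : ∀ a, ∀ t ∈ Set.Icc (0:ℝ) 1, F (γ' a t) = G.γ a (G.len a * t) := fun a t ht =>
    Function.invFun_eq (hmem a _ (hscale a t ht))
  have h01 : (0:ℝ) ∈ Set.Icc (0:ℝ) 1 := ⟨le_rfl, zero_le_one⟩
  have h11 : (1:ℝ) ∈ Set.Icc (0:ℝ) 1 := ⟨zero_le_one, le_rfl⟩
  have hγ0 : ∀ a, γ' a 0 = Function.invFun F (G.pos (G.src a)) := by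
    intro a
    simp only [hγ', mul_zero, G.start]
  have hγ1 : ∀ a, γ' a 1 = Function.invFun F (G.pos (G.tgt a)) := by
    intro a
    simp only [hγ', mul_one, G.stop]
  have himg : F '' (⋃ e : Fin (Fintype.card G.A), γ' (eA.symm e) '' Set.Icc (0:ℝ) 1) = G.image := by
    ext y
    constructor
    · rintro ⟨x, hx, rfl⟩
      obtain ⟨e, t, ht, rfl⟩ := Set.mem_iUnion.1 hx
      rw [hFγ _ t ht]
      exact Set.mem_iUnion.2 ⟨eA.symm e, _, hscale _ t ht, rfl⟩
    · intro hy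
      obtain ⟨a, t, ht, rfl⟩ := Set.mem_iUnion.1 hy
      have hl := G.len_pos a
      have ht' : t / G.len a ∈ Set.Icc (0:ℝ) 1 :=
        ⟨div_nonneg ht.1 hl.le, (div_le_one hl).2 ht.2⟩
      refine ⟨γ' a (t / G.len a), Set.mem_iUnion.2 ⟨eA a, t / G.len a, ht', ?_⟩, ?_⟩
      · rw [eA.symm_apply_apply]
      · rw [hFγ a _ ht', mul_div_cancel₀ _ hl.ne']
  have hcard : ∀ (g : G.A → G.V) (v : Fin (Fintype.card G.V)),
      (Finset.univ.filter (fun e : Fin (Fintype.card G.A) => eV (g (eA.symm e)) = v)) =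
      (Finset.univ.filter (fun a => g a = eV.symm v)).map eA.toEmbedding := by
    intro g v
    ext e
    simp only [Finset.mem_filter, Finset.mem_univ, true_and, Finset.mem_map,
      Equiv.coe_toEmbedding]
    constructor
    · intro h
      exact ⟨eA.symm e, by rw [← h, eV.symm_apply_apply], eA.apply_symm_apply e⟩
    · rintro ⟨a, h, rfl⟩
      rw [eA.symm_apply_apply, h, eV.apply_symm_apply]
  refine ⟨Fintype.card G.V, Fintype.card G.A, fun e => eV (G.src (eA.symm e)),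
    fun e => eV (G.tgt (eA.symm e)), fun v => Function.invFun F (G.pos (eV.symm v)),
    fun e => γ' (eA.symm e), ?_, ?_, ?_, ?_, ?_, ?_⟩
  · intro e
    set a := eA.symm e with ha
    have hl := G.len_pos a
    refine ⟨G.len a, hl, fun t ht => ⟨L.r / (2 * G.len a), by positivity, ?_⟩⟩
    intro s hs s' hs' h1 h2
    have h3 : |s - s'| < L.r / G.len a := by
      have h4 : |s - s'| ≤ |s - t| + |s' - t| := by
        rw [abs_sub_comm s' t]; exact abs_sub_le s t s'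
      have h5 : L.r / G.len a = L.r / (2 * G.len a) + L.r / (2 * G.len a) := by
        field_simp; norm_num
      rw [h5]; linarith
    have h4 : |G.len a * s - G.len a * s'| = G.len a * |s - s'| := by
      rw [← mul_sub, abs_mul, abs_of_pos hl]
    have h5 := geod_dist hF hinj hiso' hR L (G.geod a) (hscale a s hs) (hscale a s' hs') (by
      rw [h4]
      rw [lt_div_iff₀ hl] at h3
      linarith)
    rw [h4] at h5
    exact h5
  · intro e
    refine ⟨?_, ?_⟩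
    · show γ' (eA.symm e) 0 = Function.invFun F (G.pos (eV.symm (eV (G.src (eA.symm e)))))
      rw [hγ0, eV.symm_apply_apply]
    · show γ' (eA.symm e) 1 = Function.invFun F (G.pos (eV.symm (eV (G.tgt (eA.symm e)))))
      rw [hγ1, eV.symm_apply_apply]
  · intro v
    rw [hcard G.src v, hcard G.tgt v, Finset.card_map, Finset.card_map]
    exact G.valence (eV.symm v)
  · intro v
    rw [hcard G.src v, hcard G.tgt v, Finset.sum_map, Finset.sum_map]
    simp only [Equiv.coe_toEmbedding]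
    set V := eV.symm v with hV
    have hdiff : ∀ a, ∀ t ∈ Set.Icc (0:ℝ) 1, MDifferentiableWithinAt 𝓘(ℝ, ℝ)
        𝓘(ℝ, EuclideanSpace ℝ (Fin 2)) (γ' a) (Set.Icc 0 1) t := by
      intro a t ht
      have h1 := lift_cmdiff hF hinj hiso' (c := fun t => G.γ a (G.len a * t))
        (s := Set.Icc (0:ℝ) 1) (by
          have h2 := ((G.geod a).smooth.comp (contDiff_const.mul contDiff_id :
            ContDiff ℝ ∞ fun t : ℝ => G.len a * t))
          exact (h2.of_le (by exact_mod_cast le_top)).contDiffOn) (fun t ht => hmem a _ (hscale a t ht))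
      exact h1.mdifferentiableOn one_ne_zero t ht
    have hder : ∀ a, ∀ t ∈ Set.Icc (0:ℝ) 1, HasDerivWithinAt (fun t => F (γ' a t))
        (G.len a • deriv (G.γ a) (G.len a * t)) (Set.Icc 0 1) t := by
      intro a t ht
      have h1 : HasDerivAt (G.γ a) (deriv (G.γ a) (G.len a * t)) (G.len a * t) :=
        ((G.geod a).smooth.differentiable (by simp) _).hasDerivAt
      have h2 : HasDerivAt (fun t : ℝ => G.len a * t) (G.len a) t := by
        simpa using (hasDerivAt_id t).const_mul (G.len a)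
      have h3 : HasDerivAt (fun t => G.γ a (G.len a * t))
          (G.len a • deriv (G.γ a) (G.len a * t)) t := h1.scomp t h2
      exact h3.hasDerivWithinAt.congr (fun s hs => hFγ a s hs) (hFγ a t ht)
    have hs : ∀ a ∈ Finset.univ.filter (fun a => G.src a = V), ∀ (x : S),
        x = Function.invFun F (G.pos V) → γ' a 0 = x := by
      intro a ha x hx
      rw [hγ0, (Finset.mem_filter.1 ha).2, hx]
    have ht : ∀ a ∈ Finset.univ.filter (fun a => G.tgt a = V), ∀ (x : S),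
        x = Function.invFun F (G.pos V) → γ' a 1 = x := by
      intro a ha x hx
      rw [hγ1, (Finset.mem_filter.1 ha).2, hx]
    apply mfderiv_inj hiso' (Function.invFun F (G.pos V))
    rw [map_sub, map_sum, map_sum, map_zero]
    have e1 : ∀ a ∈ Finset.univ.filter (fun a => G.src a = V), ∀ a', a' = a →
        @id (EuclideanSpace ℝ (Fin N)) (mfderiv 𝓘(ℝ, EuclideanSpace ℝ (Fin 2))
          𝓘(ℝ, EuclideanSpace ℝ (Fin N)) F (Function.invFun F (G.pos V))
          (‖@id (TangentSpace 𝓘(ℝ, EuclideanSpace ℝ (Fin 2)) (Function.invFun F (G.pos V)))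
            (mfderivWithin 𝓘(ℝ, ℝ) 𝓘(ℝ, EuclideanSpace ℝ (Fin 2)) (γ' a') (Set.Icc 0 1) 0 (1 : ℝ))‖⁻¹
          • @id (TangentSpace 𝓘(ℝ, EuclideanSpace ℝ (Fin 2)) (Function.invFun F (G.pos V)))
            (mfderivWithin 𝓘(ℝ, ℝ) 𝓘(ℝ, EuclideanSpace ℝ (Fin 2)) (γ' a') (Set.Icc 0 1) 0 (1 : ℝ)))) =
        deriv (G.γ a) 0 := by
      rintro a ha a' rfl
      have := lift_deriv hF hiso' h01 (hs a' ha _ rfl) (hdiff a' 0 h01) (G.len_pos a')
        ((G.geod a').unit (G.len a' * 0) (hscale a' 0 h01)) (hder a' 0 h01)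
      rw [mul_zero] at this
      exact this
    have e2 : ∀ a ∈ Finset.univ.filter (fun a => G.tgt a = V), ∀ a', a' = a →
        @id (EuclideanSpace ℝ (Fin N)) (mfderiv 𝓘(ℝ, EuclideanSpace ℝ (Fin 2))
          𝓘(ℝ, EuclideanSpace ℝ (Fin N)) F (Function.invFun F (G.pos V))
          (‖@id (TangentSpace 𝓘(ℝ, EuclideanSpace ℝ (Fin 2)) (Function.invFun F (G.pos V)))
            (mfderivWithin 𝓘(ℝ, ℝ) 𝓘(ℝ, EuclideanSpace ℝ (Fin 2)) (γ' a') (Set.Icc 0 1) 1 (1 : ℝ))‖⁻¹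
          • @id (TangentSpace 𝓘(ℝ, EuclideanSpace ℝ (Fin 2)) (Function.invFun F (G.pos V)))
            (mfderivWithin 𝓘(ℝ, ℝ) 𝓘(ℝ, EuclideanSpace ℝ (Fin 2)) (γ' a') (Set.Icc 0 1) 1 (1 : ℝ)))) =
        deriv (G.γ a) (G.len a) := by
      rintro a ha a' rfl
      have := lift_deriv hF hiso' h11 (ht a' ha _ rfl) (hdiff a' 1 h11) (G.len_pos a')
        ((G.geod a').unit (G.len a' * 1) (hscale a' 1 h11)) (hder a' 1 h11)
      rw [mul_one] at this
      exact this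
    have hb := G.balance V
    refine Eq.trans (congrArg₂ _ (Finset.sum_congr rfl fun a ha => e1 a ha _ (eA.symm_apply_apply a))
      (Finset.sum_congr rfl fun a ha => e2 a ha _ (eA.symm_apply_apply a))) ?_
    rw [Finset.sum_neg_distrib, ← sub_eq_add_neg] at hb
    exact hb
  · exact not_closed hF hinj hiso' hR L G hG _ himg
  · rw [← himg] at hzG
    obtain ⟨x, hx, rfl⟩ := hzG
    refine ⟨x, hx, ?_⟩
    by_contra hxU
    exact hzU ⟨x, hxU, rfl⟩

end Pool.Agent.TH925.J14
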