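import Pool.Agent.H695R3.PP.Stmts

set_option autoImplicit false
open scoped BigOperators ENNReal
open MeasureTheory

namespace Pool.Agent.TH925.J18

open Pool.Agent.H695R3.PP

/-- distance in `[0, ∞]` -/
noncomputable def dd (a b : ℝ≥0∞) : ℝ≥0∞ := (a - b) + (b - a)

theorem dd_sq (a b : ℝ≥0∞) : a ^ 2 + b ^ 2 = dd a b ^ 2 + 2 * (a * b) := by
  unfold dd
  wlog h : a ≤ b generalizing a b with H
  · have := H b a (le_of_not_ge h)
    rw [add_comm (a ^ 2), this, add_comm (b - a), mul_comm a b]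
  rw [tsub_eq_zero_of_le h, zero_add]
  by_cases hb : b = ⊤
  · subst hb
    by_cases ha : a = ⊤
    · subst ha
      simp
    · rw [ENNReal.top_sub ha]
      simp
  · obtain ⟨c, rfl⟩ := exists_add_of_le h
    have ha : a ≠ ⊤ := fun h' => hb (by rw [h', top_add])
    rw [ENNReal.add_sub_cancel_left ha]
    ring

theorem le_add_dd (a b : ℝ≥0∞) : a ≤ b + dd a b := by
  unfold dd
  calc a ≤ b + (a - b) := le_add_tsub
    _ ≤ b + ((a - b) + (b - a)) := by gcongr; exact le_self_add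

theorem dd_triangle (a b c : ℝ≥0∞) : dd a c ≤ dd a b + dd b c := by
  unfold dd
  have h1 : a - c ≤ (a - b) + (b - c) := tsub_le_tsub_add_tsub
  have h2 : c - a ≤ (c - b) + (b - a) := tsub_le_tsub_add_tsub
  calc a - c + (c - a) ≤ ((a - b) + (b - c)) + ((c - b) + (b - a)) := add_le_add h1 h2
    _ = (a - b + (b - a)) + (b - c + (c - b)) := by ring

theorem dd_self (a : ℝ≥0∞) : dd a a = 0 := by simp [dd]

theorem measurable_dd {α : Type} [MeasurableSpace α] {f g : α → ℝ≥0∞} (hf : Measurable f)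
    (hg : Measurable g) : Measurable (fun x => dd (f x) (g x)) := by
  unfold dd
  exact (hf.sub hg).add (hg.sub hf)

/-- `(a+b)² ≤ (1+1/n) a² + (1+n) b²`, multiplied by `n` -/
theorem sq_add_le (n : ℕ) (a b : ℝ≥0∞) :
    n * (a + b) ^ 2 ≤ (n + 1) * a ^ 2 + n * (n + 1) * b ^ 2 := by
  by_cases ha : a = ⊤
  · subst ha
    refine le_trans le_top ?_
    rw [ENNReal.top_pow (by norm_num), ENNReal.mul_top (by positivity), top_add]
  by_cases hb : b = ⊤
  · subst hb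
    rcases Nat.eq_zero_or_pos n with rfl | hn
    · simp
    · refine le_trans le_top ?_
      rw [ENNReal.top_pow (by norm_num), ENNReal.mul_top, add_top]
      have : (n : ℝ≥0∞) ≠ 0 := by exact_mod_cast hn.ne'
      positivity
  lift a to NNReal using ha
  lift b to NNReal using hb
  norm_cast
  have : (n : ℝ) * ((a : ℝ) + b) ^ 2 ≤ (n + 1) * (a : ℝ) ^ 2 + n * (n + 1) * (b : ℝ) ^ 2 := by
    nlinarith [sq_nonneg ((a : ℝ) - n * b)]
  exact_mod_cast this

theorem two_sq (a b : ℝ≥0∞) : (a + b) ^ 2 ≤ 2 * a ^ 2 + 2 * b ^ 2 := by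
  have := sq_add_le 1 a b
  norm_num at this
  convert this using 2

/-- squared distance of `g` to its translate -/
noncomputable def D2 (g : ℝ → ℝ≥0∞) (h : ℝ) : ℝ≥0∞ := ∫⁻ x, dd (g x) (g (x + h)) ^ 2

theorem D2_succ (g : ℝ → ℝ≥0∞) (hg : Measurable g) (h : ℝ) (n : ℕ) :
    n * D2 g ((n + 1) * h) ≤ (n + 1) * D2 g (n * h) + n * (n + 1) * D2 g h := by
  have m1 : Measurable fun x => dd (g x) (g (x + n * h)) ^ 2 :=
    (measurable_dd hg (hg.comp (measurable_id.add_const _))).pow_const 2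
  have m2 : Measurable fun x => dd (g x) (g (x + h)) ^ 2 :=
    (measurable_dd hg (hg.comp (measurable_id.add_const _))).pow_const 2
  have m3 : Measurable fun x => dd (g (x + n * h)) (g (x + n * h + h)) ^ 2 :=
    m2.comp (measurable_id.add_const _)
  have e : D2 g h = ∫⁻ x, dd (g (x + n * h)) (g (x + n * h + h)) ^ 2 := by
    unfold D2
    rw [lintegral_add_right_eq_self (fun x => dd (g x) (g (x + h)) ^ 2) (n * h)]
  rw [e]
  unfold D2
  rw [← lintegral_const_mul' _ _ (ENNReal.natCast_ne_top n), ← lintegral_const_mul _ m1,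
    ← lintegral_const_mul _ m3, ← lintegral_add_left (m1.const_mul _)]
  refine lintegral_mono fun x => ?_
  have h1 : x + (n + 1) * h = x + n * h + h := by ring
  simp only
  rw [h1]
  refine le_trans ?_ (sq_add_le n _ _)
  gcongr
  exact dd_triangle _ _ _

theorem D2_nat (g : ℝ → ℝ≥0∞) (hg : Measurable g) (h : ℝ) (n : ℕ) :
    D2 g (n * h) ≤ (n : ℝ≥0∞) ^ 2 * D2 g h := by
  induction n with
  | zero => simp [D2, dd_self]
  | succ n ih =>
    rcases Nat.eq_zero_or_pos n with rfl | hn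
    · simp
    · have h1 := D2_succ g hg h n
      have hn0 : (n : ℝ≥0∞) ≠ 0 := by exact_mod_cast hn.ne'
      have hnt : (n : ℝ≥0∞) ≠ ⊤ := ENNReal.natCast_ne_top n
      rw [← ENNReal.mul_le_mul_iff_right hn0 hnt]
      push_cast
      refine h1.trans ?_
      calc (n + 1) * D2 g (n * h) + n * (n + 1) * D2 g h
          ≤ (n + 1) * ((n : ℝ≥0∞) ^ 2 * D2 g h) + n * (n + 1) * D2 g h := by gcongr
        _ = n * ((n + 1) ^ 2 * D2 g h) := by ring

/-- the translated mass -/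
theorem mass_le (g : ℝ → ℝ≥0∞) (hg : Measurable g) (y z : ℝ) :
    ∫⁻ x in Set.Icc y (y + 4), g x ^ 2 ≤
      2 * (∫⁻ x in Set.Icc (y + z) (y + z + 4), g x ^ 2) + 2 * D2 g z := by
  have e : ∫⁻ x in Set.Icc (y + z) (y + z + 4), g x ^ 2 =
      ∫⁻ x in Set.Icc y (y + 4), g (x + z) ^ 2 := by
    rw [← lintegral_indicator measurableSet_Icc, ← lintegral_indicator measurableSet_Icc,
      ← lintegral_add_right_eq_self _ z]
    refine lintegral_congr fun x => ?_
    by_cases hx : x ∈ Set.Icc y (y + 4)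
    · rw [Set.indicator_of_mem hx, Set.indicator_of_mem]
      exact ⟨by linarith [hx.1], by linarith [hx.2]⟩
    · rw [Set.indicator_of_notMem hx, Set.indicator_of_notMem]
      intro h
      exact hx ⟨by linarith [h.1], by linarith [h.2]⟩
  rw [e]
  have m1 : Measurable fun x => g (x + z) ^ 2 := (hg.comp (measurable_id.add_const _)).pow_const 2
  have m2 : Measurable fun x => dd (g x) (g (x + z)) ^ 2 :=
    (measurable_dd hg (hg.comp (measurable_id.add_const _))).pow_const 2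
  calc ∫⁻ x in Set.Icc y (y + 4), g x ^ 2
      ≤ ∫⁻ x in Set.Icc y (y + 4), (2 * g (x + z) ^ 2 + 2 * dd (g x) (g (x + z)) ^ 2) := by
        refine lintegral_mono fun x => ?_
        refine le_trans ?_ (two_sq _ _)
        gcongr
        exact le_add_dd _ _
    _ = 2 * (∫⁻ x in Set.Icc y (y + 4), g (x + z) ^ 2) +
        2 * ∫⁻ x in Set.Icc y (y + 4), dd (g x) (g (x + z)) ^ 2 := by
        rw [lintegral_add_left (m1.const_mul _), lintegral_const_mul _ m1,
          lintegral_const_mul _ m2]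
    _ ≤ _ := by
        gcongr
        exact setLIntegral_le_lintegral _ _

theorem sum_mass_le (g : ℝ → ℝ≥0∞) (y w : ℝ) (hw : 4 < w) (K : ℕ) :
    ∑ k ∈ Finset.range K, (∫⁻ x in Set.Icc (y + k * w) (y + k * w + 4), g x ^ 2) ≤ nsqL g := by
  rw [← lintegral_biUnion_finset]
  · exact setLIntegral_le_lintegral _ _
  · intro i _ j _ hij
    rw [Function.onFun, Set.disjoint_left]
    rintro x ⟨h1, h2⟩ ⟨h3, h4⟩
    rcases lt_or_gt_of_ne hij with h | h
    · have : (i : ℝ) + 1 ≤ j := by exact_mod_cast h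
      nlinarith
    · have : (j : ℝ) + 1 ≤ i := by exact_mod_cast h
      nlinarith
  · intro i _
    exact measurableSet_Icc

/-- the variance inequality on a probability space -/
theorem variance (φ : ℝ → ℝ≥0∞) (hφ : Measurable φ) :
    2 * (∫⁻ s, φ s ∂U) ^ 2 + ∫⁻ s, ∫⁻ t, dd (φ s) (φ t) ^ 2 ∂U ∂U = 2 * ∫⁻ s, φ s ^ 2 ∂U := by
  have m2 : Measurable (Function.uncurry fun s t => dd (φ s) (φ t) ^ 2) :=
    (measurable_dd (hφ.comp measurable_fst) (hφ.comp measurable_snd)).pow_const 2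
  have h1 : ∫⁻ s, ∫⁻ t, (φ s ^ 2 + φ t ^ 2) ∂U ∂U = 2 * ∫⁻ s, φ s ^ 2 ∂U := by
    have : ∀ s, ∫⁻ t, (φ s ^ 2 + φ t ^ 2) ∂U = φ s ^ 2 + ∫⁻ t, φ t ^ 2 ∂U := by
      intro s
      rw [lintegral_add_left measurable_const, lintegral_const, measure_univ, mul_one]
    simp_rw [this]
    rw [lintegral_add_left (hφ.pow_const 2), lintegral_const, measure_univ, mul_one, two_mul]
  have h2 : ∫⁻ s, ∫⁻ t, (φ s ^ 2 + φ t ^ 2) ∂U ∂U =
      ∫⁻ s, ∫⁻ t, dd (φ s) (φ t) ^ 2 ∂U ∂U + 2 * (∫⁻ s, φ s ∂U) ^ 2 := by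
    simp_rw [dd_sq]
    have h3 : ∀ s, ∫⁻ t, (dd (φ s) (φ t) ^ 2 + 2 * (φ s * φ t)) ∂U =
        ∫⁻ t, dd (φ s) (φ t) ^ 2 ∂U + 2 * φ s * ∫⁻ t, φ t ∂U := by
      intro s
      rw [lintegral_add_left ((measurable_dd measurable_const hφ).pow_const 2)]
      congr 1
      rw [← lintegral_const_mul _ hφ]
      refine lintegral_congr fun t => ?_
      ring
    simp_rw [h3]
    have m3 : Measurable fun s => ∫⁻ t, dd (φ s) (φ t) ^ 2 ∂U := m2.lintegral_prod_right'
    rw [lintegral_add_left m3]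
    congr 1
    rw [lintegral_mul_const _ (hφ.const_mul 2), lintegral_const_mul _ hφ]
    ring
  rw [← h1, h2, add_comm]

/-- averaging loses the average squared distance to the translates -/
theorem avg_loss (ε : ℝ) (g : ℝ → ℝ≥0∞) (hg : Measurable g) :
    2 * nsqL (avg ε g) + ∫⁻ s, ∫⁻ t, D2 g (ε * (t - s)) ∂U ∂U = 2 * nsqL g := by
  have hv : ∀ x, 2 * (avg ε g x) ^ 2 + ∫⁻ s, ∫⁻ t, dd (g (x + ε * s)) (g (x + ε * t)) ^ 2 ∂U ∂U =
      2 * ∫⁻ s, g (x + ε * s) ^ 2 ∂U := by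
    intro x
    exact variance (fun s => g (x + ε * s))
      (hg.comp ((measurable_id.const_mul ε).const_add x))
  have mg : Measurable (fun p : ℝ × ℝ => g (p.1 + ε * p.2)) :=
    hg.comp (measurable_fst.add (measurable_snd.const_mul ε))
  have mavg : Measurable (avg ε g) := by
    have : Measurable (fun x => ∫⁻ s, g (x + ε * s) ∂U) := mg.lintegral_prod_right'
    exact this
  have m4 : Measurable (fun p : (ℝ × ℝ) × ℝ =>
      dd (g (p.1.1 + ε * p.1.2)) (g (p.1.1 + ε * p.2)) ^ 2) := by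
    refine (measurable_dd (mg.comp measurable_fst) ?_).pow_const 2
    exact hg.comp ((measurable_fst.comp measurable_fst).add (measurable_snd.const_mul ε))
  have m5 : Measurable (fun p : ℝ × ℝ => ∫⁻ t, dd (g (p.1 + ε * p.2)) (g (p.1 + ε * t)) ^ 2 ∂U) :=
    m4.lintegral_prod_right'
  have hint : ∫⁻ x, (2 * (avg ε g x) ^ 2 +
      ∫⁻ s, ∫⁻ t, dd (g (x + ε * s)) (g (x + ε * t)) ^ 2 ∂U ∂U) =
      ∫⁻ x, 2 * ∫⁻ s, g (x + ε * s) ^ 2 ∂U := by
    refine lintegral_congr fun x => hv x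
  rw [lintegral_add_left ((mavg.pow_const 2).const_mul 2),
    lintegral_const_mul _ (mavg.pow_const 2)] at hint
  have hR : ∫⁻ x, 2 * ∫⁻ s, g (x + ε * s) ^ 2 ∂U = 2 * nsqL g := by
    have m6 : Measurable (fun x => ∫⁻ s, g (x + ε * s) ^ 2 ∂U) :=
      (mg.pow_const 2).lintegral_prod_right'
    rw [lintegral_const_mul _ m6]
    congr 1
    rw [lintegral_lintegral_swap (mg.pow_const 2).aemeasurable]
    have : ∀ s, ∫⁻ x, g (x + ε * s) ^ 2 = nsqL g := fun s =>
      lintegral_add_right_eq_self (fun x => g x ^ 2) (ε * s)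
    simp_rw [this]
    rw [lintegral_const, measure_univ, mul_one]
  have hM : ∫⁻ x, ∫⁻ s, ∫⁻ t, dd (g (x + ε * s)) (g (x + ε * t)) ^ 2 ∂U ∂U =
      ∫⁻ s, ∫⁻ t, D2 g (ε * (t - s)) ∂U ∂U := by
    rw [lintegral_lintegral_swap m5.aemeasurable]
    refine lintegral_congr fun s => ?_
    have m7 : Measurable (fun p : ℝ × ℝ => dd (g (p.1 + ε * s)) (g (p.1 + ε * p.2)) ^ 2) := by
      refine (measurable_dd ?_ mg).pow_const 2
      exact hg.comp (measurable_fst.add_const _)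
    rw [lintegral_lintegral_swap m7.aemeasurable]
    refine lintegral_congr fun t => ?_
    unfold D2
    rw [← lintegral_add_right_eq_self (fun x => dd (g x) (g (x + ε * (t - s))) ^ 2) (ε * s)]
    refine lintegral_congr fun x => ?_
    congr 3
    ring
  rw [hM, hR] at hint
  exact hint

theorem U_le (f : ℝ → ℝ≥0∞) : ∫⁻ s, f s ∂U = ENNReal.ofReal (1 / 2) * ∫⁻ s in Set.Icc (-1) 1, f s := by
  unfold U
  rw [lintegral_smul_measure, smul_eq_mul]

/-- lower bound for the average over the difference of two uniform variables -/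
theorem diff_lower (F : ℝ → ℝ≥0∞) :
    ENNReal.ofReal (1 / 4) * ∫⁻ t in Set.Icc (1 / 2 : ℝ) 1, F t ≤
      ∫⁻ s, ∫⁻ t, F (t - s) ∂U ∂U := by
  have h1 : ∀ s ∈ Set.Icc (-1 : ℝ) 0, ENNReal.ofReal (1 / 2) * ∫⁻ t in Set.Icc (1 / 2 : ℝ) 1, F t ≤
      ∫⁻ t, F (t - s) ∂U := by
    intro s hs
    rw [U_le]
    gcongr ENNReal.ofReal (1 / 2) * ?_
    have : ∫⁻ t in Set.Icc (1 / 2 : ℝ) 1, F t = ∫⁻ t in Set.Icc (1 / 2 + s : ℝ) (1 + s), F (t - s) := by
      rw [← lintegral_indicator measurableSet_Icc, ← lintegral_indicator measurableSet_Icc,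
        ← lintegral_sub_right_eq_self _ s]
      refine lintegral_congr fun x => ?_
      by_cases hx : x ∈ Set.Icc (1 / 2 + s : ℝ) (1 + s)
      · rw [Set.indicator_of_mem hx, Set.indicator_of_mem]
        exact ⟨by linarith [hx.1], by linarith [hx.2]⟩
      · rw [Set.indicator_of_notMem hx, Set.indicator_of_notMem]
        intro h
        exact hx ⟨by linarith [h.1], by linarith [h.2]⟩
    rw [this]
    refine lintegral_mono_set ?_
    intro t ht
    exact ⟨by linarith [ht.1, hs.1], by linarith [ht.2, hs.2]⟩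
  rw [U_le]
  have h2 : ∫⁻ s in Set.Icc (-1 : ℝ) 0, ENNReal.ofReal (1 / 2) * ∫⁻ t in Set.Icc (1 / 2 : ℝ) 1, F t ≤
      ∫⁻ s in Set.Icc (-1 : ℝ) 1, ∫⁻ t, F (t - s) ∂U := by
    refine (setLIntegral_mono' measurableSet_Icc h1).trans ?_
    refine lintegral_mono_set ?_
    intro s hs
    exact ⟨hs.1, by linarith [hs.2]⟩
  rw [setLIntegral_const, Real.volume_Icc] at h2
  norm_num at h2
  calc ENNReal.ofReal (1 / 4) * ∫⁻ t in Set.Icc (1 / 2 : ℝ) 1, F t
      = ENNReal.ofReal (1 / 2) * (ENNReal.ofReal (1 / 2) * ∫⁻ t in Set.Icc (1 / 2 : ℝ) 1, F t) := by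
        rw [← mul_assoc, ← ENNReal.ofReal_mul (by norm_num)]
        norm_num
    _ ≤ _ := by
        gcongr


theorem meas_D2 (g : ℝ → ℝ≥0∞) (hg : Measurable g) : Measurable (D2 g) := by
  have m : Measurable (fun p : ℝ × ℝ => dd (g p.2) (g (p.2 + p.1)) ^ 2) :=
    (measurable_dd (hg.comp measurable_snd)
      (hg.comp (measurable_snd.add measurable_fst))).pow_const 2
  exact m.lintegral_prod_right'

theorem key_t (g : ℝ → ℝ≥0∞) (hg : Measurable g) (y h : ℝ) (n : ℕ) (hn : 4 < n * h) :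
    16 * (∫⁻ x in Set.Icc y (y + 4), g x ^ 2) ≤ 2 * nsqL g + 2480 * (n : ℝ≥0∞) ^ 2 * D2 g h := by
  have h1 : ∑ k ∈ Finset.range 16, (∫⁻ x in Set.Icc y (y + 4), g x ^ 2) ≤
      ∑ k ∈ Finset.range 16, (2 * (∫⁻ x in Set.Icc (y + k * (n * h)) (y + k * (n * h) + 4), g x ^ 2)
        + 2 * (((k * n : ℕ) : ℝ≥0∞) ^ 2 * D2 g h)) := by
    refine Finset.sum_le_sum fun k _ => ?_
    refine (mass_le g hg y (k * (n * h))).trans ?_
    gcongr
    have := D2_nat g hg h (k * n)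
    push_cast at this ⊢
    rwa [mul_assoc] at this
  rw [Finset.sum_const, Finset.card_range, Finset.sum_add_distrib, ← Finset.mul_sum] at h1
  have h2 := sum_mass_le g y (n * h) hn 16
  have h3 : ∑ k ∈ Finset.range 16, 2 * (((k * n : ℕ) : ℝ≥0∞) ^ 2 * D2 g h) =
      2480 * (n : ℝ≥0∞) ^ 2 * D2 g h := by
    have : ∀ k ∈ Finset.range 16, 2 * (((k * n : ℕ) : ℝ≥0∞) ^ 2 * D2 g h) =
        ((k ^ 2 : ℕ) : ℝ≥0∞) * (2 * (n : ℝ≥0∞) ^ 2 * D2 g h) := by
      intro k _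
      push_cast
      ring
    rw [Finset.sum_congr rfl this, ← Finset.sum_mul, ← Nat.cast_sum]
    have h4 : ∑ k ∈ Finset.range 16, k ^ 2 = 1240 := by decide
    rw [h4]
    push_cast
    ring
  rw [h3] at h1
  calc 16 * (∫⁻ x in Set.Icc y (y + 4), g x ^ 2) = 16 • (∫⁻ x in Set.Icc y (y + 4), g x ^ 2) := by
        rw [nsmul_eq_mul]; norm_num
    _ ≤ _ := h1
    _ ≤ _ := by gcongr

theorem taskDich : TaskDich := by
  refine ⟨248000, by norm_num, ?_⟩
  intro ε g y hε hε1 hg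
  set n : ℕ := ⌈8 / ε⌉₊ + 1 with hn
  have hn1 : 8 / ε + 1 ≤ n := by
    rw [hn]
    push_cast
    linarith [Nat.le_ceil (8 / ε)]
  have hn2 : (n : ℝ) ≤ 10 / ε := by
    have h1 : (⌈8 / ε⌉₊ : ℝ) < 8 / ε + 1 := Nat.ceil_lt_add_one (by positivity)
    have h2 : 2 ≤ 2 / ε := by
      rw [le_div_iff₀ hε]
      linarith
    have h3 : (10 : ℝ) / ε = 8 / ε + 2 / ε := by ring
    rw [h3, hn]
    push_cast
    linarith
  set m := ∫⁻ x in Set.Icc y (y + 4), g x ^ 2 with hm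
  set N := nsqL g with hN
  set A := nsqL (avg ε g) with hA
  set I := ∫⁻ t in Set.Icc (1 / 2 : ℝ) 1, D2 g (ε * t) with hI
  -- first inequality
  have e1 : 8 * m ≤ N + 2480 * (n : ℝ≥0∞) ^ 2 * I := by
    have h1 : ∀ t ∈ Set.Icc (1 / 2 : ℝ) 1,
        16 * m ≤ 2 * N + 2480 * (n : ℝ≥0∞) ^ 2 * D2 g (ε * t) := by
      intro t ht
      refine key_t g hg y (ε * t) n ?_
      have h2 : (8 / ε + 1) * (ε * (1 / 2)) ≤ n * (ε * t) := by
        gcongr
        exact ht.1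
      have h3 : (8 / ε + 1) * (ε * (1 / 2)) = 4 + ε / 2 := by
        field_simp
        ring
      linarith
    have h2 := setLIntegral_mono' (μ := volume) measurableSet_Icc h1
    have mD : Measurable (fun t => D2 g (ε * t)) :=
      (meas_D2 g hg).comp (measurable_id.const_mul ε)
    rw [lintegral_add_left measurable_const, lintegral_const_mul _ mD, setLIntegral_const,
      setLIntegral_const, Real.volume_Icc] at h2
    have h3 : ENNReal.ofReal (1 - 1 / 2) = 2⁻¹ := by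
      rw [show (1 : ℝ) - 1 / 2 = 2⁻¹ by norm_num, ENNReal.ofReal_inv_of_pos (by norm_num)]
      norm_num
    rw [h3] at h2
    have h22 : (2 : ℝ≥0∞) * 2⁻¹ = 1 := ENNReal.mul_inv_cancel (by norm_num) (by norm_num)
    calc 8 * m = 16 * m * 2⁻¹ := by
          rw [show (16 : ℝ≥0∞) = 8 * 2 by norm_num]
          calc 8 * m = 8 * m * (2 * 2⁻¹) := by rw [h22, mul_one]
            _ = _ := by ring
      _ ≤ _ := h2
      _ = _ := by
          calc 2 * N * 2⁻¹ + 2480 * (n : ℝ≥0∞) ^ 2 * I = (2 * 2⁻¹) * N + 2480 * (n : ℝ≥0∞) ^ 2 * I := by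
                ring
            _ = _ := by rw [h22, one_mul]
  -- second inequality
  have e2 : 8 * A + I ≤ 8 * N := by
    have h1 := avg_loss ε g hg
    have h2 := diff_lower (fun t => D2 g (ε * t))
    have h3 : 2 * A + ENNReal.ofReal (1 / 4) * I ≤ 2 * N := by
      rw [hN, ← h1]
      gcongr
    have h4 : (4 : ℝ≥0∞) * ENNReal.ofReal (1 / 4) = 1 := by
      rw [show (4 : ℝ≥0∞) = ENNReal.ofReal 4 by norm_num, ← ENNReal.ofReal_mul (by norm_num)]
      norm_num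
    calc 8 * A + I = 4 * (2 * A + ENNReal.ofReal (1 / 4) * I) := by
          rw [mul_add, ← mul_assoc, ← mul_assoc, h4, one_mul]
          norm_num
      _ ≤ 4 * (2 * N) := by gcongr
      _ = 8 * N := by rw [← mul_assoc]; norm_num
  have e3 : A ≤ N := by
    have : 8 * A ≤ 8 * N := le_trans le_self_add e2
    rwa [ENNReal.mul_le_mul_iff_right (by norm_num) (by norm_num)] at this
  -- the constant
  have hC : 2480 * (n : ℝ) ^ 2 ≤ 248000 / ε ^ 2 := by
    have : (n : ℝ) ^ 2 ≤ (10 / ε) ^ 2 := by gcongr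
    calc 2480 * (n : ℝ) ^ 2 ≤ 2480 * (10 / ε) ^ 2 := by gcongr
      _ = 248000 / ε ^ 2 := by ring
  have hC2 : ENNReal.ofReal (248000 / ε ^ 2) =
      2480 * (n : ℝ≥0∞) ^ 2 + ENNReal.ofReal (248000 / ε ^ 2 - 2480 * (n : ℝ) ^ 2) := by
    have h1 : (2480 * (n : ℝ≥0∞) ^ 2) = ENNReal.ofReal (2480 * (n : ℝ) ^ 2) := by
      rw [ENNReal.ofReal_mul (by norm_num), ENNReal.ofReal_pow (by positivity)]
      simp
    rw [h1, ← ENNReal.ofReal_add (by positivity) (by linarith)]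
    congr 1
    ring
  rw [hC2]
  set r := ENNReal.ofReal (248000 / ε ^ 2 - 2480 * (n : ℝ) ^ 2) with hr
  have e4 : 8 * (m + 2480 * (n : ℝ≥0∞) ^ 2 * A) ≤ 8 * (ENNReal.ofReal (1 / 8) * N +
      2480 * (n : ℝ≥0∞) ^ 2 * N) := by
    have h8 : (8 : ℝ≥0∞) * ENNReal.ofReal (1 / 8) = 1 := by
      rw [show (8 : ℝ≥0∞) = ENNReal.ofReal 8 by norm_num, ← ENNReal.ofReal_mul (by norm_num)]
      norm_num
    calc 8 * (m + 2480 * (n : ℝ≥0∞) ^ 2 * A) = 8 * m + 2480 * (n : ℝ≥0∞) ^ 2 * (8 * A) := by ring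
      _ ≤ (N + 2480 * (n : ℝ≥0∞) ^ 2 * I) + 2480 * (n : ℝ≥0∞) ^ 2 * (8 * A) := by gcongr
      _ = N + 2480 * (n : ℝ≥0∞) ^ 2 * (8 * A + I) := by ring
      _ ≤ N + 2480 * (n : ℝ≥0∞) ^ 2 * (8 * N) := by gcongr
      _ = 8 * ENNReal.ofReal (1 / 8) * N + 8 * (2480 * (n : ℝ≥0∞) ^ 2 * N) := by
          rw [h8]; ring
      _ = _ := by ring
  rw [ENNReal.mul_le_mul_iff_right (by norm_num) (by norm_num)] at e4
  calc m + (2480 * (n : ℝ≥0∞) ^ 2 + r) * A = (m + 2480 * (n : ℝ≥0∞) ^ 2 * A) + r * A := by ring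
    _ ≤ (ENNReal.ofReal (1 / 8) * N + 2480 * (n : ℝ≥0∞) ^ 2 * N) + r * N := by gcongr
    _ = _ := by ring

end Pool.Agent.TH925.J18
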