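import Pool.Agent.H695R3.PP.Stmts

set_option autoImplicit false
open scoped BigOperators ENNReal
open MeasureTheory

namespace Pool.Agent.TH925.J23

open Pool.Agent.H695R3.PP

/-- real square summable sequences in the complex `ℓ²` -/
noncomputable def mk (f : ℤ → ℝ) (hf : Summable (fun n => f n ^ 2)) : lp (fun _ : ℤ => ℂ) 2 :=
  ⟨fun n => (f n : ℂ), by
    refine memℓp_gen ?_
    refine hf.congr fun n => ?_
    simp [← sq_abs]⟩

theorem mk_apply (f : ℤ → ℝ) (hf : Summable (fun n => f n ^ 2)) (n : ℤ) : mk f hf n = (f n : ℂ) :=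
  rfl

theorem norm_sq_eq (f : lp (fun _ : ℤ => ℂ) 2) : ‖f‖ ^ 2 = ∑' n, ‖f n‖ ^ 2 := by
  have := lp.norm_rpow_eq_tsum (p := 2) (by norm_num) f
  simpa using this

theorem norm_mk_sq (f : ℤ → ℝ) (hf : Summable (fun n => f n ^ 2)) :
    ‖mk f hf‖ ^ 2 = ∑' n, f n ^ 2 := by
  rw [norm_sq_eq]
  refine tsum_congr fun n => ?_
  rw [mk_apply]
  simp

theorem summable_box {a b : ℤ} {f : ℤ → ℝ} (hf : ∀ n, n < a ∨ b < n → f n = 0) :
    Summable (fun n => f n ^ 2) := by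
  refine summable_of_ne_finset_zero (s := Finset.Icc a b) ?_
  intro n hn
  rw [Finset.mem_Icc, not_and_or, not_le, not_le] at hn
  rw [hf n hn]
  norm_num

theorem taskDelta (h1 : TaskChain) (h2 : TaskCompl) : TaskDelta := by
  intro V L a τ d hL hpos hB1 hB2 h4 ha hs hsτ ht1 ht2
  rw [← SetLike.mem_coe, Submodule.topologicalClosure_coe, Metric.mem_closure_iff]
  intro ε hε
  have hev1 : ∀ᶠ k in Filter.atTop, (2 * (L k : ℝ) + 1) * a k ^ 2 < (ε / 2) ^ 2 :=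
    ht1.eventually (gt_mem_nhds (by positivity))
  have hev2 : ∀ᶠ k in Filter.atTop,
      (2 * (L k : ℝ) + 1) * ∑' j, τ (k + j) / d (k + j + 1) < ε / 16 :=
    ht2.eventually (gt_mem_nhds (by positivity))
  obtain ⟨K, hK⟩ := Filter.eventually_atTop.1 (hB1.and (hB2.and (h4.and (ha.and (hev1.and hev2)))))
  -- the box of index K
  obtain ⟨e, ψ, hψ, hδ, hpars⟩ := h2 V (L K)
  have hsm : ∀ j, Summable (fun n => ψ j n ^ 2) := fun j => summable_box (hψ j).1
  set s := ∑' j, τ (K + j) / d (K + j + 1) with hsdef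
  have hs0 : 0 ≤ s := tsum_nonneg fun j => (div_pos (hpos _).2.1 (hpos _).2.2).le
  have hchain : ∀ j, a K ≤ |ψ j 0| → ∃ (e : ℝ) (φ : ℤ → ℝ), Summable (fun n => φ n ^ 2) ∧
        (∀ n, φ (n + 1) + φ (n - 1) + V n * φ n = e * φ n) ∧
        Summable (fun n => (ψ j n - φ n) ^ 2) ∧
        ∑' n, (ψ j n - φ n) ^ 2 ≤ (4 * s) ^ 2 := by
    intro j hj
    exact h1 V L a τ d K hL hpos (fun k hk => (hK k hk).1) (fun k hk => (hK k hk).2.1)
      (fun k hk => (hK k hk).2.2.1) (fun k hk => (hK k hk).2.2.2.1) hs hsτ (e j) (ψ j) (hψ j) hj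
  have hchain' : ∀ j, ∃ φ : ℤ → ℝ, ∃ hφ : Summable (fun n => φ n ^ 2), a K ≤ |ψ j 0| →
      mk φ hφ ∈ EigSpan V ∧ ‖mk (ψ j) (hsm j) - mk φ hφ‖ ≤ 4 * s := by
    intro j
    by_cases hj : a K ≤ |ψ j 0|
    · obtain ⟨E, φ, hφ, heq, hsum, hle⟩ := hchain j hj
      refine ⟨φ, hφ, fun _ => ⟨?_, ?_⟩⟩
      · refine Submodule.subset_span ⟨E, fun n => ?_⟩
        simp only [mk_apply]
        exact_mod_cast heq n
      · have : ‖mk (ψ j) (hsm j) - mk φ hφ‖ ^ 2 ≤ (4 * s) ^ 2 := by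
          refine le_trans (le_of_eq ?_) hle
          rw [norm_sq_eq]
          refine tsum_congr fun n => ?_
          rw [lp.coeFn_sub, Pi.sub_apply, mk_apply, mk_apply, ← Complex.ofReal_sub,
            Complex.norm_real, Real.norm_eq_abs, sq_abs]
        exact abs_le_of_sq_le_sq' this (by positivity) |>.2
    · exact ⟨0, by simp, fun h => absurd h hj⟩
  choose φ hφ hφ2 using hchain'
  classical
  set J : Finset (Fin (2 * L K + 1)) := Finset.univ.filter (fun j => a K ≤ |ψ j 0|) with hJ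
  refine ⟨∑ j ∈ J, (ψ j 0 : ℂ) • mk (φ j) (hφ j), ?_, ?_⟩
  · refine Submodule.sum_mem _ fun j hj => Submodule.smul_mem _ _ ?_
    exact (hφ2 j (Finset.mem_filter.1 hj).2).1
  have hdecomp : lp.single 2 (0 : ℤ) (1 : ℂ) = ∑ j, (ψ j 0 : ℂ) • mk (ψ j) (hsm j) := by
    ext n
    rw [lp.coeFn_sum, Finset.sum_apply]
    have := hδ n
    by_cases hn : n = 0
    · subst hn
      rw [lp.single_apply_self]
      rw [if_pos rfl] at this
      simp only [lp.coeFn_smul, Pi.smul_apply, mk_apply, smul_eq_mul]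
      exact_mod_cast this
    · rw [lp.single_apply_ne _ _ _ hn]
      rw [if_neg hn] at this
      simp only [lp.coeFn_smul, Pi.smul_apply, mk_apply, smul_eq_mul]
      exact_mod_cast this
  rw [dist_eq_norm, hdecomp, ← Finset.sum_filter_add_sum_filter_not Finset.univ
    (fun j => a K ≤ |ψ j 0|), ← hJ]
  have hrw : (∑ j ∈ J, (ψ j 0 : ℂ) • mk (ψ j) (hsm j) +
      ∑ j ∈ Finset.univ.filter (fun j => ¬ a K ≤ |ψ j 0|), (ψ j 0 : ℂ) • mk (ψ j) (hsm j)) -
      ∑ j ∈ J, (ψ j 0 : ℂ) • mk (φ j) (hφ j) =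
      ∑ j ∈ J, (ψ j 0 : ℂ) • (mk (ψ j) (hsm j) - mk (φ j) (hφ j)) +
      ∑ j ∈ Finset.univ.filter (fun j => ¬ a K ≤ |ψ j 0|), (ψ j 0 : ℂ) • mk (ψ j) (hsm j) := by
    simp only [smul_sub, Finset.sum_sub_distrib]
    abel
  rw [hrw]
  have hψ1 : ∀ j, |ψ j 0| ≤ 1 := by
    intro j
    have h0 : (0 : ℤ) ∈ Finset.Icc (-(L K : ℤ)) (L K) := by
      rw [Finset.mem_Icc]; omega
    have h3 : ψ j 0 ^ 2 ≤ 1 := by
      rw [← (hψ j).2.1]
      exact Finset.single_le_sum (f := fun n => ψ j n ^ 2) (fun n _ => sq_nonneg _) h0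
    exact (abs_le_one_iff_mul_self_le_one).2 (by nlinarith)
  have hb1 : ‖∑ j ∈ J, (ψ j 0 : ℂ) • (mk (ψ j) (hsm j) - mk (φ j) (hφ j))‖ ≤
      (2 * (L K : ℝ) + 1) * (4 * s) := by
    refine (norm_sum_le _ _).trans ?_
    have : ∀ j ∈ J, ‖(ψ j 0 : ℂ) • (mk (ψ j) (hsm j) - mk (φ j) (hφ j))‖ ≤ 4 * s := by
      intro j hj
      rw [norm_smul, Complex.norm_real, Real.norm_eq_abs]
      calc |ψ j 0| * ‖mk (ψ j) (hsm j) - mk (φ j) (hφ j)‖ ≤ 1 * (4 * s) := by
            refine mul_le_mul (hψ1 j) (hφ2 j (Finset.mem_filter.1 hj).2).2 (norm_nonneg _) zero_le_one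
        _ = 4 * s := one_mul _
    refine (Finset.sum_le_card_nsmul _ _ _ this).trans ?_
    rw [nsmul_eq_mul]
    have hc : (J.card : ℝ) ≤ 2 * (L K : ℝ) + 1 := by
      have : J.card ≤ 2 * L K + 1 := by
        refine (Finset.card_le_univ J).trans ?_
        simp
      exact_mod_cast this
    gcongr
  have hb2 : ‖∑ j ∈ Finset.univ.filter (fun j => ¬ a K ≤ |ψ j 0|),
      (ψ j 0 : ℂ) • mk (ψ j) (hsm j)‖ ^ 2 ≤ (2 * (L K : ℝ) + 1) * a K ^ 2 := by
    set c : Fin (2 * L K + 1) → ℝ := fun j => if a K ≤ |ψ j 0| then 0 else ψ j 0 with hc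
    have e1 : ∑ j ∈ Finset.univ.filter (fun j => ¬ a K ≤ |ψ j 0|),
      (ψ j 0 : ℂ) • mk (ψ j) (hsm j) = ∑ j, (c j : ℂ) • mk (ψ j) (hsm j) := by
      rw [Finset.sum_filter]
      refine Finset.sum_congr rfl fun j _ => ?_
      simp only [hc]
      split_ifs <;> simp
    have e2 : ‖∑ j, (c j : ℂ) • mk (ψ j) (hsm j)‖ ^ 2 = ∑ j, c j ^ 2 := by
      rw [norm_sq_eq, ← hpars c]
      have e3 : ∀ n, ‖(∑ j, (c j : ℂ) • mk (ψ j) (hsm j) : lp (fun _ : ℤ => ℂ) 2) n‖ ^ 2 =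
          (∑ j, c j * ψ j n) ^ 2 := by
        intro n
        rw [lp.coeFn_sum, Finset.sum_apply]
        simp only [lp.coeFn_smul, Pi.smul_apply, mk_apply, smul_eq_mul]
        rw [← sq_abs (∑ j, c j * ψ j n), ← Real.norm_eq_abs, ← Complex.norm_real]
        push_cast
        rfl
      simp_rw [e3]
      refine tsum_eq_sum fun n hn => ?_
      rw [Finset.mem_Icc, not_and_or, not_le, not_le] at hn
      have : ∀ j, c j * ψ j n = 0 := fun j => by rw [(hψ j).1 n hn, mul_zero]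
      simp [this]
    rw [e1, e2]
    have : ∀ j ∈ (Finset.univ : Finset (Fin (2 * L K + 1))), c j ^ 2 ≤ a K ^ 2 := by
      intro j _
      simp only [hc]
      split_ifs with h
      · have := sq_nonneg (a K)
        simpa using this
      · rw [← sq_abs (ψ j 0)]
        have h5 := (hpos K).1
        have h6 := abs_nonneg (ψ j 0)
        have h7 := not_le.1 h
        gcongr
    refine (Finset.sum_le_card_nsmul _ _ _ this).trans (le_of_eq ?_)
    rw [nsmul_eq_mul, Finset.card_univ, Fintype.card_fin]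
    push_cast
    ring
  have hb2' : ‖∑ j ∈ Finset.univ.filter (fun j => ¬ a K ≤ |ψ j 0|),
      (ψ j 0 : ℂ) • mk (ψ j) (hsm j)‖ < ε / 2 := by
    have h7 := (hK K le_rfl).2.2.2.2.1
    exact lt_of_pow_lt_pow_left₀ 2 (by positivity) (hb2.trans_lt h7)
  have hb3 := (hK K le_rfl).2.2.2.2.2
  calc _ ≤ _ := norm_add_le _ _
    _ < (2 * (L K : ℝ) + 1) * (4 * s) + ε / 2 := add_lt_add_of_le_of_lt hb1 hb2'
    _ < ε := by nlinarith

end Pool.Agent.TH925.J23
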