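import Mathlib

set_option autoImplicit false

open MeasureTheory Set Metric Filter Topology
open scoped Convolution

namespace Pool.Agent.TH925.J56

section
variable {E : Type*} [NormedAddCommGroup E] [InnerProductSpace ℝ E] [MeasureSpace E]

def lamSet (p : ℝ) (Ω : Set E) : Set ℝ :=
  {r | ∃ u : E → ℝ, ContDiff ℝ 1 u ∧ HasCompactSupport u ∧ tsupport u ⊆ Ω ∧ u ≠ 0 ∧
    r = (∫ x, ‖fderiv ℝ u x‖ ^ p) / (∫ x, |u x| ^ p)}

noncomputable def lam (p : ℝ) (Ω : Set E) : ℝ := sInf (lamSet p Ω)

theorem lam_mul_le {p : ℝ} {Ω : Set E} {u : E → ℝ} (hu : ContDiff ℝ 1 u) (hc : HasCompactSupport u)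
    (hs : tsupport u ⊆ Ω) :
    lam p Ω * ∫ x, |u x| ^ p ≤ ∫ x, ‖fderiv ℝ u x‖ ^ p := by
  have hA : 0 ≤ ∫ x, ‖fderiv ℝ u x‖ ^ p := integral_nonneg fun x => by positivity
  have hB : 0 ≤ ∫ x, |u x| ^ p := integral_nonneg fun x => by positivity
  rcases hB.eq_or_lt with h | h
  · rw [← h, mul_zero]; exact hA
  by_cases hu0 : u = 0
  · by_cases hp : p = 0
    · subst hp
      subst hu0
      simp only [Real.rpow_zero] at h ⊢
      have h1 : lam 0 Ω ≤ 1 := by
        unfold lam
        have hbd : BddBelow (lamSet (0:ℝ) Ω) := by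
          refine ⟨0, ?_⟩
          rintro r ⟨u, -, -, -, -, rfl⟩
          exact div_nonneg (integral_nonneg fun x => by positivity)
            (integral_nonneg fun x => by positivity)
        rcases (lamSet (0:ℝ) Ω).eq_empty_or_nonempty with he | ⟨r, hr⟩
        · rw [he, Real.sInf_empty]; exact zero_le_one
        · refine (csInf_le hbd hr).trans ?_
          obtain ⟨u, -, -, -, -, rfl⟩ := hr
          simp only [Real.rpow_zero]
          exact div_self_le_one _
      calc lam 0 Ω * ∫ x : E, (1:ℝ) ≤ 1 * ∫ x : E, (1:ℝ) := mul_le_mul_of_nonneg_right h1 h.le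
        _ = _ := one_mul _
    · exfalso
      subst hu0
      simp [Real.zero_rpow hp] at h
  · have hbd : BddBelow (lamSet p Ω) := by
      refine ⟨0, ?_⟩
      rintro r ⟨u, -, -, -, -, rfl⟩
      exact div_nonneg (integral_nonneg fun x => by positivity)
        (integral_nonneg fun x => by positivity)
    have h1 : lam p Ω ≤ (∫ x, ‖fderiv ℝ u x‖ ^ p) / (∫ x, |u x| ^ p) :=
      csInf_le hbd ⟨u, hu, hc, hs, hu0, rfl⟩
    rwa [le_div_iff₀ h] at h1

end

section Mol

variable {d : ℕ}

/-- the mollified function -/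
noncomputable def mol (ρ : ContDiffBump (0 : EuclideanSpace ℝ (Fin d)))
    (φ : EuclideanSpace ℝ (Fin d) → ℝ) (x : EuclideanSpace ℝ (Fin d)) : ℝ :=
  ∫ y, ρ.normed volume y • φ (x - y)

theorem mol_facts (ρ : ContDiffBump (0 : EuclideanSpace ℝ (Fin d)))
    {φ : EuclideanSpace ℝ (Fin d) → ℝ} {K : NNReal} (hf : LipschitzWith K φ) :
    ContDiff ℝ 1 (mol ρ φ) ∧
    (∀ x, Integrable (fun y => ρ.normed volume y • fderiv ℝ φ (x - y))) ∧
    (∀ x, fderiv ℝ (mol ρ φ) x = ∫ y, ρ.normed volume y • fderiv ℝ φ (x - y)) ∧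
    ∀ x, |mol ρ φ x - φ x| ≤ K * ρ.rOut := by
  have hfc : Continuous φ := hf.continuous
  have hρc : Continuous (ρ.normed (volume : Measure (EuclideanSpace ℝ (Fin d)))) :=
    ρ.continuous_normed
  have hρi : Integrable (ρ.normed (volume : Measure (EuclideanSpace ℝ (Fin d)))) :=
    ρ.integrable_normed
  have hcs : HasCompactSupport (ρ.normed (volume : Measure (EuclideanSpace ℝ (Fin d)))) :=
    ρ.hasCompactSupport_normed
  have hconv : mol ρ φ =
      (ρ.normed volume ⋆[ContinuousLinearMap.lsmul ℝ ℝ, volume] φ) := rfl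
  have hderiv : ∀ F, Integrable (fun y => ρ.normed volume y • fderiv ℝ φ (F - y)) ∧
      HasFDerivAt (mol ρ φ)
        (∫ y, ρ.normed volume y • fderiv ℝ φ (F - y)) F := by
    intro F
    refine hasFDerivAt_integral_of_dominated_loc_of_lip
      (F := fun F y => ρ.normed volume y • φ (F - y)) (s := univ)
      (bound := fun y => K * ρ.normed volume y) univ_mem ?_ ?_ ?_ ?_ ?_ ?_
    · refine Eventually.of_forall fun x => ?_
      exact (hρc.smul (hfc.comp (continuous_const.sub continuous_id))).aestronglyMeasurable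
    · exact (hρc.smul (hfc.comp (continuous_const.sub continuous_id))).integrable_of_hasCompactSupport
        (hcs.smul_right)
    · refine hρc.aestronglyMeasurable.smul ?_
      exact ((measurable_fderiv ℝ φ).comp (measurable_const.sub measurable_id)).aestronglyMeasurable
    · refine Eventually.of_forall fun y => ?_
      refine LipschitzOnWith.of_dist_le_mul fun x _ x' _ => ?_
      have h1 : 0 ≤ ρ.normed (volume : Measure (EuclideanSpace ℝ (Fin d))) y := ρ.nonneg_normed y
      have h2 : 0 ≤ (K : ℝ) * ρ.normed (volume : Measure (EuclideanSpace ℝ (Fin d))) y := by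
        positivity
      rw [dist_smul₀, Real.norm_of_nonneg h1, Real.coe_nnabs, abs_of_nonneg h2]
      have h3 := hf.dist_le_mul (x - y) (x' - y)
      rw [dist_sub_right] at h3
      calc _ ≤ ρ.normed (volume : Measure (EuclideanSpace ℝ (Fin d))) y * (K * dist x x') :=
            mul_le_mul_of_nonneg_left h3 h1
        _ = _ := by ring
    · exact hρi.const_mul _
    · have h1 : ∀ᵐ z ∂(volume : Measure (EuclideanSpace ℝ (Fin d))), DifferentiableAt ℝ φ z :=
        hf.ae_differentiableAt
      have h2 : ∀ᵐ y ∂(volume : Measure (EuclideanSpace ℝ (Fin d))),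
          DifferentiableAt ℝ φ (F - y) :=
        (Measure.measurePreserving_sub_left (volume : Measure (EuclideanSpace ℝ (Fin d)))
          F).quasiMeasurePreserving.ae h1
      filter_upwards [h2] with y hy
      have h3 : HasFDerivAt (fun x => φ (x - y)) (fderiv ℝ φ (F - y)) F := by
        have h4 := hy.hasFDerivAt.comp F ((hasFDerivAt_id F).sub_const y)
        exact h4
      exact h3.const_smul (ρ.normed (volume : Measure (EuclideanSpace ℝ (Fin d))) y)
  refine ⟨?_, fun F => (hderiv F).1, fun F => (hderiv F).2.fderiv, ?_⟩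
  · rw [hconv]
    exact hcs.contDiff_convolution_left _ ρ.contDiff_normed (hfc.locallyIntegrable)
  · intro F
    have h := ρ.dist_normed_convolution_le (μ := (volume : Measure (EuclideanSpace ℝ (Fin d))))
      (g := φ) (x₀ := F)
      (ε := K * ρ.rOut) hfc.aestronglyMeasurable (by
        intro x hx
        calc dist (φ x) (φ F) ≤ K * dist x F := hf.dist_le_mul x F
          _ ≤ K * ρ.rOut := mul_le_mul_of_nonneg_left (mem_ball.1 hx).le K.coe_nonneg)
    rw [Real.dist_eq] at h
    exact h

theorem mol_support (ρ : ContDiffBump (0 : EuclideanSpace ℝ (Fin d)))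
    {φ : EuclideanSpace ℝ (Fin d) → ℝ} :
    tsupport (mol ρ φ) ⊆ cthickening ρ.rOut (tsupport φ) := by
  refine closure_minimal ?_ isClosed_cthickening
  intro x hx
  by_contra hcon
  apply hx
  unfold mol
  refine integral_eq_zero_of_ae (Eventually.of_forall fun y => ?_)
  simp only [Pi.zero_apply]
  by_cases hy : ρ.normed (volume : Measure (EuclideanSpace ℝ (Fin d))) y = 0
  · rw [hy, zero_smul]
  · have h1 : y ∈ Function.support (ρ.normed (volume : Measure (EuclideanSpace ℝ (Fin d)))) := hy
    rw [ContDiffBump.support_normed_eq, Metric.mem_ball, dist_zero_right] at h1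
    have h2 : x - y ∉ tsupport φ := by
      intro h3
      apply hcon
      refine mem_cthickening_of_dist_le x (x - y) _ _ h3 ?_
      rw [dist_eq_norm, sub_sub_cancel]
      exact h1.le
    rw [image_eq_zero_of_notMem_tsupport h2, smul_zero]

theorem mol_energy (ρ : ContDiffBump (0 : EuclideanSpace ℝ (Fin d)))
    {φ : EuclideanSpace ℝ (Fin d) → ℝ} {K : NNReal} (hf : LipschitzWith K φ)
    (hc : HasCompactSupport φ) {p : ℝ} (hp : 1 < p) :
    ∫ x, ‖fderiv ℝ (mol ρ φ) x‖ ^ p ≤ ∫ x, ‖fderiv ℝ φ x‖ ^ p := by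
  obtain ⟨h1, h2, h3, -⟩ := mol_facts ρ hf
  have hp0 : 0 < p := zero_lt_one.trans hp
  set G : EuclideanSpace ℝ (Fin d) → ℝ := fun x => ‖fderiv ℝ φ x‖ ^ p with hG
  have hGm : Measurable G := (measurable_fderiv ℝ φ).norm.pow_const p
  have hGb : ∀ x, ‖G x‖ ≤ (K : ℝ) ^ p := by
    intro x
    rw [Real.norm_of_nonneg (by positivity)]
    exact Real.rpow_le_rpow (norm_nonneg _) (norm_fderiv_le_of_lipschitz ℝ hf) hp0.le
  have hG0 : ∀ x, x ∉ tsupport φ → G x = 0 := by
    intro x hx
    have : fderiv ℝ φ x = 0 := by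
      by_contra hne
      exact hx (support_fderiv_subset ℝ hne)
    simp only [hG, this, norm_zero]
    exact Real.zero_rpow hp0.ne'
  have hGi : Integrable G := by
    have h4 : IntegrableOn G (tsupport φ) :=
      Measure.integrableOn_of_bounded (M := (K : ℝ) ^ p) hc.measure_lt_top.ne
        hGm.aestronglyMeasurable (Eventually.of_forall hGb)
    refine (integrableOn_iff_integrable_of_support_subset ?_).1 h4
    intro x hx
    by_contra hcon
    exact hx (hG0 x hcon)
  have hρi : Integrable (ρ.normed (volume : Measure (EuclideanSpace ℝ (Fin d)))) :=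
    ρ.integrable_normed
  -- pointwise Jensen
  have hpt : ∀ x, ‖fderiv ℝ (mol ρ φ) x‖ ^ p ≤ ∫ y, ρ.normed volume y • G (x - y) := by
    intro x
    rw [h3 x]
    have hq : p.HolderConjugate (p / (p - 1)) := Real.HolderConjugate.conjExponent hp
    have hnn : ∀ y, 0 ≤ ρ.normed (volume : Measure (EuclideanSpace ℝ (Fin d))) y :=
      fun y => ρ.nonneg_normed y
    have e1 : ‖∫ y, ρ.normed volume y • fderiv ℝ φ (x - y)‖ ≤
        ∫ y, ρ.normed volume y * ‖fderiv ℝ φ (x - y)‖ := by
      refine (norm_integral_le_integral_norm _).trans (le_of_eq ?_)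
      refine integral_congr_ae (Eventually.of_forall fun y => ?_)
      simp only
      rw [norm_smul, Real.norm_of_nonneg (hnn y)]
    have e2 : (∫ y, ρ.normed volume y * ‖fderiv ℝ φ (x - y)‖) ^ p ≤
        ∫ y, ρ.normed volume y • G (x - y) := by
      set μ : Measure (EuclideanSpace ℝ (Fin d)) := volume.withDensity
        (fun y => ENNReal.ofReal (ρ.normed volume y)) with hμ
      have hμp : IsProbabilityMeasure μ := by
        refine ⟨?_⟩
        rw [hμ, withDensity_apply _ MeasurableSet.univ, Measure.restrict_univ,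
          ← ofReal_integral_eq_lintegral_ofReal hρi (Eventually.of_forall hnn),
          ContDiffBump.integral_normed, ENNReal.ofReal_one]
      have hdm : Measurable (fun y => ENNReal.ofReal
          (ρ.normed (volume : Measure (EuclideanSpace ℝ (Fin d))) y)) :=
        (ρ.continuous_normed.measurable).ennreal_ofReal
      have hint : ∀ g : EuclideanSpace ℝ (Fin d) → ℝ, ∫ y, g y ∂μ =
          ∫ y, ρ.normed volume y • g y := by
        intro g
        rw [hμ, integral_withDensity_eq_integral_toReal_smul hdm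
          (Eventually.of_forall fun y => ENNReal.ofReal_lt_top)]
        refine integral_congr_ae (Eventually.of_forall fun y => ?_)
        simp only
        rw [ENNReal.toReal_ofReal (hnn y)]
      have hgm : Measurable (fun y => ‖fderiv ℝ φ (x - y)‖) :=
        ((measurable_fderiv ℝ φ).comp (measurable_const.sub measurable_id)).norm
      have j1 : Integrable (fun y => ‖fderiv ℝ φ (x - y)‖) μ := by
        refine Integrable.of_bound hgm.aestronglyMeasurable (K : ℝ)
          (Eventually.of_forall fun y => ?_)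
        rw [norm_norm]
        exact norm_fderiv_le_of_lipschitz ℝ hf
      have j2 : Integrable (fun y => G (x - y)) μ := by
        refine Integrable.of_bound (hGm.comp
          (measurable_const.sub measurable_id)).aestronglyMeasurable ((K : ℝ) ^ p)
          (Eventually.of_forall fun y => ?_)
        exact hGb _
      have j3 := (convexOn_rpow hp.le).map_integral_le
        (continuousOn_id.rpow_const fun y _ => Or.inr hp0.le) isClosed_Ici
        (μ := μ) (f := fun y => ‖fderiv ℝ φ (x - y)‖)
        (Eventually.of_forall fun y => norm_nonneg _) j1 j2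
      rw [hint] at j3
      have j4 := hint (fun y => G (x - y))
      rw [← j4]
      exact j3
    exact (Real.rpow_le_rpow (norm_nonneg _) e1 hp0.le).trans e2
  have hconv : (∫ x, (ρ.normed volume ⋆[ContinuousLinearMap.lsmul ℝ ℝ, volume] G) x) =
      ∫ x, G x := by
    rw [integral_convolution (ContinuousLinearMap.lsmul ℝ ℝ) hρi hGi, ContDiffBump.integral_normed]
    simp
  rw [← hconv]
  have hci : Integrable (ρ.normed (volume : Measure (EuclideanSpace ℝ (Fin d)))
      ⋆[ContinuousLinearMap.lsmul ℝ ℝ, volume] G) :=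
    hρi.integrable_convolution (ContinuousLinearMap.lsmul ℝ ℝ) hGi
  refine integral_mono_of_nonneg (Eventually.of_forall fun x => by positivity) hci
    (Eventually.of_forall fun x => ?_)
  exact hpt x

end Mol

/-- the variational inequality extends to Lipschitz functions with compact support -/
theorem lam_le_lipschitz {d : ℕ} {p : ℝ} (hp : 1 < p) {Ω : Set (EuclideanSpace ℝ (Fin d))}
    (hΩ : IsOpen Ω) {φ : EuclideanSpace ℝ (Fin d) → ℝ} {K : NNReal} (hφ : LipschitzWith K φ)
    (hc : HasCompactSupport φ) (hs : tsupport φ ⊆ Ω) :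
    lam p Ω * ∫ x, |φ x| ^ p ≤ ∫ x, ‖fderiv ℝ φ x‖ ^ p := by
  have hp0 : 0 < p := zero_lt_one.trans hp
  obtain ⟨δ, hδ, hδΩ⟩ := (IsCompact.exists_cthickening_subset_open hc hΩ hs)
  -- the mollifiers
  let ρ : ℕ → ContDiffBump (0 : EuclideanSpace ℝ (Fin d)) := fun n =>
    { rIn := min δ 1 / (2 * ((n : ℝ) + 1))
      rOut := min δ 1 / ((n : ℝ) + 1)
      rIn_pos := by have : 0 < min δ 1 := lt_min hδ one_pos; positivity
      rIn_lt_rOut := by
        have : 0 < min δ 1 := lt_min hδ one_pos
        have h : (0:ℝ) < (n : ℝ) + 1 := by positivity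
        rw [div_lt_div_iff₀ (by positivity) h]
        nlinarith }
  have hm : 0 < min δ 1 := lt_min hδ one_pos
  have hr1 : ∀ n, (ρ n).rOut ≤ min δ 1 := by
    intro n
    show min δ 1 / ((n : ℝ) + 1) ≤ min δ 1
    exact div_le_self hm.le (by have : (0:ℝ) ≤ n := Nat.cast_nonneg n; linarith)
  have hr0 : Tendsto (fun n => (ρ n).rOut) atTop (𝓝 0) := by
    show Tendsto (fun n : ℕ => min δ 1 / ((n : ℝ) + 1)) atTop (𝓝 0)
    refine tendsto_const_nhds.div_atTop ?_
    exact tendsto_atTop_add_const_right _ _ tendsto_natCast_atTop_atTop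
  have hsupp : ∀ n, tsupport (mol (ρ n) φ) ⊆ cthickening δ (tsupport φ) := fun n =>
    (mol_support (ρ n)).trans (cthickening_mono ((hr1 n).trans (min_le_left _ _)) _)
  have hKc : IsCompact (cthickening δ (tsupport φ)) := hc.cthickening
  have hineq : ∀ n, lam p Ω * ∫ x, |mol (ρ n) φ x| ^ p ≤ ∫ x, ‖fderiv ℝ φ x‖ ^ p := by
    intro n
    obtain ⟨h1, -, -, -⟩ := mol_facts (ρ n) hφ
    refine (lam_mul_le h1 (hKc.of_isClosed_subset (isClosed_tsupport _) (hsupp n))
      ((hsupp n).trans hδΩ)).trans ?_
    exact mol_energy (ρ n) hφ hc hp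
  have hlim : Tendsto (fun n => ∫ x, |mol (ρ n) φ x| ^ p) atTop (𝓝 (∫ x, |φ x| ^ p)) := by
    obtain ⟨C, hC⟩ := hc.exists_bound_of_continuous hφ.continuous
    have hC0 : 0 ≤ C := (norm_nonneg _).trans (hC 0)
    refine tendsto_integral_of_dominated_convergence
      ((cthickening δ (tsupport φ)).indicator fun _ => (C + K) ^ p) ?_ ?_ ?_ ?_
    · intro n
      obtain ⟨h1, -, -, -⟩ := mol_facts (ρ n) hφ
      exact (h1.continuous.abs.rpow_const fun x => Or.inr hp0.le).aestronglyMeasurable
    · exact (integrable_indicator_iff hKc.measurableSet).2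
        (integrableOn_const hKc.measure_lt_top.ne)
    · intro n
      refine Eventually.of_forall fun x => ?_
      obtain ⟨-, -, -, h4⟩ := mol_facts (ρ n) hφ
      rw [Real.norm_of_nonneg (by positivity)]
      by_cases hx : x ∈ cthickening δ (tsupport φ)
      · rw [indicator_of_mem hx]
        refine Real.rpow_le_rpow (abs_nonneg _) ?_ hp0.le
        have h5 := h4 x
        have h6 := hC x
        rw [Real.norm_eq_abs] at h6
        have h7 : (K : ℝ) * (ρ n).rOut ≤ K * 1 :=
          mul_le_mul_of_nonneg_left ((hr1 n).trans (min_le_right _ _)) K.coe_nonneg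
        have h8 : |mol (ρ n) φ x| ≤ |mol (ρ n) φ x - φ x| + |φ x| := by
          have := abs_add_le (mol (ρ n) φ x - φ x) (φ x)
          rwa [sub_add_cancel] at this
        linarith
      · rw [indicator_of_notMem hx, image_eq_zero_of_notMem_tsupport (fun h => hx (hsupp n h)),
          abs_zero, Real.zero_rpow hp0.ne']
    · refine Eventually.of_forall fun x => ?_
      have h1 : Tendsto (fun n => mol (ρ n) φ x) atTop (𝓝 (φ x)) := by
        rw [tendsto_iff_dist_tendsto_zero]
        refine squeeze_zero (fun n => dist_nonneg) (fun n => ?_)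
          (by simpa using hr0.const_mul (K : ℝ))
        rw [Real.dist_eq]
        exact (mol_facts (ρ n) hφ).2.2.2 x
      exact (h1.abs).rpow_const (Or.inr hp0.le)
  exact le_of_tendsto' (hlim.const_mul _) hineq

/-- entropy bound for log-concave functions, from the change of variables
`x ↦ x₀ + (1 - t) (x - x₀)` -/
theorem entropy_bound {d : ℕ} {p : ℝ} (hp : 0 < p) {Ω : Set (EuclideanSpace ℝ (Fin d))}
    (hΩ : IsOpen Ω) (hb : Bornology.IsBounded Ω) {w : EuclideanSpace ℝ (Fin d) → ℝ}
    (hw : ConcaveOn ℝ Ω w) {x₀ : EuclideanSpace ℝ (Fin d)} (hx₀ : x₀ ∈ Ω) (h0 : w x₀ = 0)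
    (hle : ∀ x ∈ Ω, w x ≤ 0) :
    ∫ x in Ω, |w x| * Real.exp (p * w x) ≤ (d / p) * ∫ x in Ω, Real.exp (p * w x) := by
  have hvol : volume Ω < ⊤ := hb.measure_lt_top
  have hΩm : MeasurableSet Ω := hΩ.measurableSet
  have hwc : ContinuousOn w Ω := hw.continuousOn hΩ
  have hfin : IsFiniteMeasure (volume.restrict Ω) := ⟨by simpa using hvol⟩
  -- integrability
  have hexpc : ∀ s : ℝ, ContinuousOn (fun x => Real.exp (s * w x)) Ω := fun s =>
    Real.continuous_exp.comp_continuousOn (continuousOn_const.mul hwc)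
  have hI : ∀ s : ℝ, 0 ≤ s → IntegrableOn (fun x => Real.exp (s * w x)) Ω := by
    intro s hs
    refine Integrable.of_bound ((hexpc s).aestronglyMeasurable hΩm) 1 ?_
    refine (ae_restrict_iff' hΩm).2 (Eventually.of_forall fun x hx => ?_)
    rw [Real.norm_of_nonneg (Real.exp_pos _).le]
    rw [Real.exp_le_one_iff]
    exact mul_nonpos_of_nonneg_of_nonpos hs (hle x hx)
  have hJ : IntegrableOn (fun x => |w x| * Real.exp (p * w x)) Ω := by
    refine Integrable.of_bound ((hwc.abs.mul (hexpc p)).aestronglyMeasurable hΩm) (1 / p) ?_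
    refine (ae_restrict_iff' hΩm).2 (Eventually.of_forall fun x hx => ?_)
    rw [Real.norm_of_nonneg (by positivity)]
    have h1 := hle x hx
    rw [abs_of_nonpos h1, le_div_iff₀ hp]
    have h2 := Real.add_one_le_exp (-(p * w x))
    have h3 : Real.exp (-(p * w x)) * Real.exp (p * w x) = 1 := by
      rw [← Real.exp_add]; simp
    nlinarith [Real.exp_pos (p * w x)]
  set I := ∫ x in Ω, Real.exp (p * w x) with hIdef
  set J := ∫ x in Ω, |w x| * Real.exp (p * w x) with hJdef
  have hJ0 : 0 ≤ J := integral_nonneg fun x => by positivity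
  have hI0 : 0 ≤ I := integral_nonneg fun x => by positivity
  -- the key inequality
  have key : ∀ t : ℝ, 0 < t → t < 1 → (1 - t) ^ d * (p * J) ≤ d * I := by
    intro t ht0 ht1
    have ht : 0 < 1 - t := by linarith
    set g : EuclideanSpace ℝ (Fin d) → ℝ := Ω.indicator fun x => Real.exp (p * w x) with hg
    have hgI : ∫ x, g x = I := integral_indicator hΩm
    have hcv : ∫ x, g (x₀ + (1 - t) • (x - x₀)) = ((1 - t) ^ d)⁻¹ * I := by
      have e1 : ∫ x, g (x₀ + (1 - t) • (x - x₀)) = ∫ x, g (x₀ + (1 - t) • x) :=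
        integral_sub_right_eq_self (fun x => g (x₀ + (1 - t) • x)) x₀
      have e2 := Measure.integral_comp_smul (volume : Measure (EuclideanSpace ℝ (Fin d)))
        (fun x => g (x₀ + x)) (1 - t)
      rw [e1, e2, integral_add_left_eq_self g x₀, hgI, smul_eq_mul,
        abs_of_nonneg (by positivity), finrank_euclideanSpace_fin]
    have hsub : ∀ x ∈ Ω, x₀ + (1 - t) • (x - x₀) ∈ Ω ∧
        (1 - t) * w x ≤ w (x₀ + (1 - t) • (x - x₀)) := by
      intro x hx
      have e3 : x₀ + (1 - t) • (x - x₀) = t • x₀ + (1 - t) • x := by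
        rw [smul_sub, sub_smul, sub_smul, one_smul, one_smul]; abel
      rw [e3]
      refine ⟨hw.1 hx₀ hx ht0.le ht.le (by ring), ?_⟩
      have := hw.2 hx₀ hx ht0.le ht.le (by ring)
      rw [h0, smul_zero, zero_add, smul_eq_mul] at this
      exact this
    have hge : ∫ x in Ω, Real.exp (p * (1 - t) * w x) ≤ ∫ x, g (x₀ + (1 - t) • (x - x₀)) := by
      rw [← integral_indicator hΩm]
      refine integral_mono ((integrable_indicator_iff hΩm).2 (hI _ (by positivity))) ?_ fun x => ?_
      · have hgi : Integrable g := (integrable_indicator_iff hΩm).2 (hI p hp.le)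
        have i1 : Integrable (fun x => g (x₀ + x)) := hgi.comp_add_left x₀
        have i2 : Integrable (fun x => g (x₀ + (1 - t) • x)) := by
          have := (integrable_comp_smul_iff (volume : Measure (EuclideanSpace ℝ (Fin d)))
            (fun x => g (x₀ + x)) ht.ne').2 i1
          exact this
        exact i2.comp_sub_right x₀
      · by_cases hx : x ∈ Ω
        · obtain ⟨a, b⟩ := hsub x hx
          simp only [hg]
          rw [indicator_of_mem hx, indicator_of_mem a, Real.exp_le_exp, mul_assoc]
          exact mul_le_mul_of_nonneg_left b hp.le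
        · rw [indicator_of_notMem hx]
          simp only [hg]
          exact indicator_nonneg (fun _ _ => (Real.exp_pos _).le) _
    have hlow : I + p * t * J ≤ ∫ x in Ω, Real.exp (p * (1 - t) * w x) := by
      have e4 : I + p * t * J = ∫ x in Ω, (Real.exp (p * w x) +
          p * t * (|w x| * Real.exp (p * w x))) := by
        rw [integral_add (hI p hp.le) (hJ.const_mul _), integral_const_mul]
      rw [e4]
      refine setIntegral_mono_on ((hI p hp.le).add (hJ.const_mul _)) (hI _ (by positivity)) hΩm ?_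
      intro x hx
      have h1 := hle x hx
      rw [abs_of_nonpos h1]
      have h2 : Real.exp (p * (1 - t) * w x) = Real.exp (p * w x) * Real.exp (-(p * t * w x)) := by
        rw [← Real.exp_add]; congr 1; ring
      rw [h2]
      have h3 := Real.add_one_le_exp (-(p * t * w x))
      nlinarith [Real.exp_pos (p * w x)]
    have h5 : I + p * t * J ≤ ((1 - t) ^ d)⁻¹ * I := hlow.trans (hge.trans hcv.le)
    have hpow : 0 < (1 - t) ^ d := by positivity
    have h6 : (1 - t) ^ d * (I + p * t * J) ≤ I := by
      have := mul_le_mul_of_nonneg_left h5 hpow.le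
      rwa [← mul_assoc, mul_inv_cancel₀ hpow.ne', one_mul] at this
    have h7 : 1 - d * t ≤ (1 - t) ^ d := by
      have := one_add_mul_le_pow (a := -t) (by linarith) d
      have e5 : (1 + -t) ^ d = (1 - t) ^ d := by ring
      rw [e5] at this
      linarith
    have h8 : t * ((1 - t) ^ d * (p * J)) ≤ t * (d * I) := by nlinarith
    exact le_of_mul_le_mul_left h8 ht0
  have hlim : Tendsto (fun t : ℝ => (1 - t) ^ d * (p * J)) (𝓝[>] 0) (𝓝 (p * J)) := by
    have : Tendsto (fun t : ℝ => (1 - t) ^ d * (p * J)) (𝓝 0) (𝓝 ((1 - 0) ^ d * (p * J))) :=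
      Continuous.tendsto (by fun_prop) 0
    rw [sub_zero, one_pow, one_mul] at this
    exact this.mono_left nhdsWithin_le_nhds
  have hfin : p * J ≤ d * I := by
    refine le_of_tendsto hlim ?_
    filter_upwards [Ioo_mem_nhdsGT (zero_lt_one : (0:ℝ) < 1)] with t ht
    exact key t ht.1 ht.2
  rw [div_mul_eq_mul_div, le_div_iff₀ hp]
  linarith

end Pool.Agent.TH925.J56
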