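import Mathlib
import Pool.Agent.TH925.J56

set_option autoImplicit false
set_option linter.unusedVariables false

open MeasureTheory Set Metric Filter Topology

namespace Pool.Agent.TH925.J53

open Pool.Agent.TH925.J56

noncomputable def Jr (r : ℝ) : ℝ := ∫ a in Ioi (0 : ℝ), 1 / (1 + (r - 1) * a ^ (r / (r - 1)))

section

variable {r : ℝ}

/-- the denominator -/
noncomputable def den (r a : ℝ) : ℝ := 1 + (r - 1) * |a| ^ (r / (r - 1))

theorem rp_gt (hr : 1 < r) : 1 < r / (r - 1) := by
  rw [lt_div_iff₀ (by linarith)]; linarith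

theorem den_ge (hr : 1 < r) (a : ℝ) : 1 ≤ den r a := by
  unfold den
  have : 0 ≤ (r - 1) * |a| ^ (r / (r - 1)) := mul_nonneg (by linarith) (by positivity)
  linarith

theorem den_pos (hr : 1 < r) (a : ℝ) : 0 < den r a := zero_lt_one.trans_le (den_ge hr a)

theorem den_cont (hr : 1 < r) : Continuous (den r) := by
  unfold den
  have h : 0 ≤ r / (r - 1) := (zero_lt_one.trans (rp_gt hr)).le
  exact continuous_const.add (continuous_const.mul (continuous_abs.rpow_const fun x => Or.inr h))

theorem den_deriv (hr : 1 < r) (a : ℝ) :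
    HasDerivAt (den r) (r * (|a| ^ (r / (r - 1) - 2) * a)) a := by
  have h1 := (hasDerivAt_abs_rpow a (rp_gt hr)).const_mul (r - 1) |>.const_add 1
  refine h1.congr_deriv ?_
  have : r - 1 ≠ 0 := by linarith
  field_simp

theorem integrable_inv_den (hr : 1 < r) : IntegrableOn (fun a => 1 / den r a) (Ioi 0) := by
  have hc : Continuous fun a => 1 / den r a :=
    continuous_const.div (den_cont hr) fun a => (den_pos hr a).ne'
  rw [← Ioc_union_Ioi_eq_Ioi (zero_le_one' ℝ)]
  refine IntegrableOn.union ?_ ?_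
  · exact (hc.integrableOn_Icc).mono_set Ioc_subset_Icc_self
  · have h1 : IntegrableOn (fun a : ℝ => (r - 1)⁻¹ * a ^ (-(r / (r - 1)))) (Ioi 1) := by
      refine Integrable.const_mul ?_ _
      exact integrableOn_Ioi_rpow_of_lt (by have := rp_gt hr; linarith) zero_lt_one
    refine Integrable.mono' h1 hc.aestronglyMeasurable ?_
    refine (ae_restrict_iff' measurableSet_Ioi).2 (Eventually.of_forall fun a ha => ?_)
    have ha0 : (0:ℝ) < a := zero_lt_one.trans ha
    rw [Real.norm_of_nonneg (by have := den_pos hr a; positivity)]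
    rw [Real.rpow_neg ha0.le, ← mul_inv, one_div]
    refine inv_anti₀ (mul_pos (by linarith) (by positivity)) ?_
    unfold den
    rw [abs_of_pos ha0]
    linarith

theorem Jr_eq_den : Jr r = ∫ a in Ioi (0:ℝ), 1 / den r a := by
  unfold Jr
  refine setIntegral_congr_fun measurableSet_Ioi fun a ha => ?_
  simp only [den]
  rw [abs_of_pos ha]

/-- the time map -/
noncomputable def T (r a : ℝ) : ℝ := ∫ x in (0:ℝ)..a, 1 / den r x

theorem T_deriv (hr : 1 < r) (a : ℝ) : HasStrictDerivAt (T r) (1 / den r a) a := by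
  have hc : Continuous fun a => 1 / den r a :=
    continuous_const.div (den_cont hr) fun a => (den_pos hr a).ne'
  exact intervalIntegral.integral_hasStrictDerivAt_right (hc.intervalIntegrable _ _)
    (hc.stronglyMeasurableAtFilter _ _) hc.continuousAt

theorem T_zero : T r 0 = 0 := intervalIntegral.integral_same

theorem T_neg (a : ℝ) : T r (-a) = - T r a := by
  unfold T
  have h1 : ∀ x, 1 / den r (-x) = 1 / den r x := by intro x; unfold den; rw [abs_neg]
  have h2 := intervalIntegral.integral_comp_neg (a := 0) (b := a) (fun x => 1 / den r x)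
  simp only [h1, neg_zero] at h2
  rw [intervalIntegral.integral_symm, ← h2]

theorem T_mono (hr : 1 < r) : StrictMono (T r) :=
  strictMono_of_deriv_pos fun a => by
    rw [(T_deriv hr a).hasDerivAt.deriv]
    have := den_pos hr a
    positivity

theorem T_cont (hr : 1 < r) : Continuous (T r) :=
  continuous_iff_continuousAt.2 fun a => (T_deriv hr a).hasDerivAt.continuousAt

theorem T_tendsto (hr : 1 < r) : Tendsto (T r) atTop (𝓝 (Jr r)) := by
  rw [Jr_eq_den]
  exact intervalIntegral_tendsto_integral_Ioi 0 (integrable_inv_den hr) tendsto_id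

theorem T_lt (hr : 1 < r) (a : ℝ) : T r a < Jr r := by
  have h1 : T r a < T r (a + 1) := T_mono hr (by linarith)
  refine h1.trans_le ?_
  exact (T_mono hr).monotone.ge_of_tendsto (T_tendsto hr) _

theorem neg_lt_T (hr : 1 < r) (a : ℝ) : -Jr r < T r a := by
  have := T_lt hr (-a)
  rw [T_neg] at this
  linarith

theorem Jr_pos {r : ℝ} (hr : 1 < r) : 0 < Jr r := by
  have := T_lt hr 0
  rwa [T_zero] at this

theorem T_surj (hr : 1 < r) {t : ℝ} (h1 : -Jr r < t) (h2 : t < Jr r) : ∃ a, T r a = t := by
  have hpos : ∀ t, 0 ≤ t → t < Jr r → ∃ a, T r a = t := by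
    intro t h0 ht
    obtain ⟨b, hb, hb0⟩ := (((T_tendsto hr).eventually (lt_mem_nhds ht)).and
      (eventually_ge_atTop 0)).exists
    have := intermediate_value_Icc hb0 (T_cont hr).continuousOn
    obtain ⟨a, -, ha⟩ := this ⟨by rw [T_zero]; exact h0, hb.le⟩
    exact ⟨a, ha⟩
  rcases le_total 0 t with h | h
  · exact hpos t h h2
  · obtain ⟨a, ha⟩ := hpos (-t) (by linarith) (by linarith)
    exact ⟨-a, by rw [T_neg, ha, neg_neg]⟩

/-- the inverse of the time map -/
noncomputable def al (r t : ℝ) : ℝ := Function.invFun (T r) t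

theorem al_T (hr : 1 < r) (a : ℝ) : al r (T r a) = a :=
  Function.leftInverse_invFun (T_mono hr).injective a

theorem T_al (hr : 1 < r) {t : ℝ} (h1 : -Jr r < t) (h2 : t < Jr r) : T r (al r t) = t :=
  Function.invFun_eq (T_surj hr h1 h2)

theorem al_deriv (hr : 1 < r) {t : ℝ} (h1 : -Jr r < t) (h2 : t < Jr r) :
    HasDerivAt (al r) (den r (al r t)) t := by
  have h3 := (T_deriv hr (al r t)).to_local_left_inverse
    (by have := den_pos hr (al r t); positivity) (g := al r)
    (Eventually.of_forall fun x => al_T hr x)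
  rw [T_al hr h1 h2, one_div, inv_inv] at h3
  exact h3.hasDerivAt

theorem abs_deriv_le (hr : 1 < r) {u : ℝ → ℝ} (hu : ContDiff ℝ 1 u) (s : ℝ) :
    |deriv (fun s => |u s| ^ r) s| ≤ r * |u s| ^ (r - 1) * |deriv u s| := by
  have h1 : HasDerivAt (fun s => |u s| ^ r) ((r * |u s| ^ (r - 2) * u s) * deriv u s) s :=
    (hasDerivAt_abs_rpow (u s) hr).comp s (hu.differentiable one_ne_zero s).hasDerivAt
  rw [h1.deriv, abs_mul, abs_mul, abs_mul, abs_of_pos (show 0 < r by linarith),
    abs_of_nonneg (show (0:ℝ) ≤ |u s| ^ (r - 2) by positivity)]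
  refine mul_le_mul_of_nonneg_right ?_ (abs_nonneg _)
  rw [mul_assoc]
  refine mul_le_mul_of_nonneg_left ?_ (by linarith)
  rcases eq_or_ne (u s) 0 with h | h
  · rw [h, abs_zero, mul_zero]
    positivity
  · have h0 : 0 < |u s| := abs_pos.2 h
    have : |u s| ^ (r - 2) * |u s| = |u s| ^ (r - 1) := by
      rw [← Real.rpow_add_one h0.ne']; congr 1; ring
    rw [this]

theorem young (hr : 1 < r) {X Y : ℝ} (hX : 0 ≤ X) (hY : 0 ≤ Y) :
    r * (X * Y) ≤ Y ^ r + (r - 1) * X ^ (r / (r - 1)) := by
  have hq : r.HolderConjugate (r / (r - 1)) := Real.HolderConjugate.conjExponent hr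
  have h := Real.young_inequality_of_nonneg hY hX hq
  have hr0 : 0 < r := by linarith
  have hr1 : r - 1 ≠ 0 := by linarith
  have h2 := mul_le_mul_of_nonneg_left h hr0.le
  have h3 : r * (Y ^ r / r + X ^ (r / (r - 1)) / (r / (r - 1))) =
      Y ^ r + (r - 1) * X ^ (r / (r - 1)) := by
    field_simp
  rw [h3] at h2
  linarith

theorem lower (hr : 1 < r) {u : ℝ → ℝ} (hu : ContDiff ℝ 1 u) (hc : HasCompactSupport u)
    (hs : tsupport u ⊆ Ioo (0:ℝ) 1) :
    (2 * Jr r) ^ r * ∫ x, |u x| ^ r ≤ ∫ x, ‖fderiv ℝ u x‖ ^ r := by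
  have hr0 : 0 < r := by linarith
  have hr1 : r - 1 ≠ 0 := by linarith
  have hr1' : 0 < r - 1 := by linarith
  rcases (tsupport u).eq_empty_or_nonempty with he | ⟨x0, hx0⟩
  · have hu0 : u = 0 := tsupport_eq_empty_iff.1 he
    subst hu0
    simp [Real.zero_rpow hr0.ne']
  set κ : ℝ := 2 * Jr r with hκ
  have hJ := Jr_pos hr
  have hκ0 : 0 < κ := by positivity
  obtain ⟨ε, hε, hεs⟩ := (IsCompact.exists_cthickening_subset_open hc isOpen_Ioo hs)
  have hin : ∀ x ∈ tsupport u, ε < x ∧ x < 1 - ε := by
    intro x hx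
    have h1 : x - ε ∈ cthickening ε (tsupport u) :=
      mem_cthickening_of_dist_le _ x _ _ hx (by rw [Real.dist_eq]; simp [abs_of_pos hε])
    have h2 : x + ε ∈ cthickening ε (tsupport u) :=
      mem_cthickening_of_dist_le _ x _ _ hx (by rw [Real.dist_eq]; simp [abs_of_pos hε])
    have h3 := (hεs h1).1
    have h4 := (hεs h2).2
    constructor <;> linarith
  set a := ε with ha
  set b := 1 - ε with hb
  have hab : a < b := (hin x0 hx0).1.trans (hin x0 hx0).2
  have hua : u a = 0 := image_eq_zero_of_notMem_tsupport fun h => (hin a h).1.false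
  have hub : u b = 0 := image_eq_zero_of_notMem_tsupport fun h => (hin b h).2.false
  have hI : ∀ s ∈ Icc a b, -Jr r < κ * (s - 1 / 2) ∧ κ * (s - 1 / 2) < Jr r := by
    intro s hs
    have h1 : 0 < s := hε.trans_le hs.1
    have h2 : s < 1 := by linarith [hs.2]
    constructor <;> nlinarith
  set f : ℝ → ℝ := fun s => |u s| ^ r with hf
  have hfC : ContDiff ℝ 1 f := (contDiff_norm_rpow hr).comp hu
  have hfd : ∀ s, HasDerivAt f (deriv f s) s := fun s =>
    (hfC.differentiable one_ne_zero s).hasDerivAt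
  have hfc : Continuous (deriv f) := hfC.continuous_deriv_one
  set F : ℝ → ℝ := fun s => -(κ ^ (r - 1)) * al r (κ * (s - 1 / 2)) with hF
  set F' : ℝ → ℝ := fun s => -(κ ^ (r - 1)) * (den r (al r (κ * (s - 1 / 2))) * κ) with hF'
  have hFd : ∀ s ∈ Icc a b, HasDerivAt F (F' s) s := by
    intro s hs
    have h1 := al_deriv hr (hI s hs).1 (hI s hs).2
    have h2 : HasDerivAt (fun s : ℝ => κ * (s - 1 / 2)) κ s := by
      simpa using ((hasDerivAt_id s).sub_const (1 / 2 : ℝ)).const_mul κ
    exact (h1.comp s h2).const_mul _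
  have hFc : ContinuousOn F (Icc a b) := fun s hs => (hFd s hs).continuousAt.continuousWithinAt
  have halc : ContinuousOn (fun s => al r (κ * (s - 1 / 2))) (Icc a b) := by
    intro s hs
    have h1 := (al_deriv hr (hI s hs).1 (hI s hs).2).continuousAt
    have h2 : ContinuousAt (fun s : ℝ => κ * (s - 1 / 2)) s := by fun_prop
    exact (ContinuousAt.comp (f := fun s : ℝ => κ * (s - 1 / 2)) h1 h2).continuousWithinAt
  have hF'c : ContinuousOn F' (Icc a b) :=
    continuousOn_const.mul (((den_cont hr).comp_continuousOn halc).mul continuousOn_const)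
  have hGd : ∀ s ∈ uIcc a b, HasDerivAt (fun s => F s * f s) (F' s * f s + F s * deriv f s) s := by
    intro s hs
    rw [uIcc_of_le hab.le] at hs
    exact (hFd s hs).mul (hfd s)
  have hG'c : ContinuousOn (fun s => F' s * f s + F s * deriv f s) (uIcc a b) := by
    rw [uIcc_of_le hab.le]
    exact (hF'c.mul hfC.continuous.continuousOn).add (hFc.mul hfc.continuousOn)
  have hint := intervalIntegral.integral_eq_sub_of_hasDerivAt hGd hG'c.intervalIntegrable
  have hfa : f a = 0 := by simp only [hf, hua, abs_zero]; exact Real.zero_rpow hr0.ne'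
  have hfb : f b = 0 := by simp only [hf, hub, abs_zero]; exact Real.zero_rpow hr0.ne'
  rw [hfa, hfb, mul_zero, mul_zero, sub_zero] at hint
  have hDc : Continuous fun s => |deriv u s| ^ r :=
    hu.continuous_deriv_one.abs.rpow_const fun x => Or.inr hr0.le
  -- pointwise inequality
  have hpt : ∀ s ∈ Icc a b, κ ^ r * f s + (F' s * f s + F s * deriv f s) ≤ |deriv u s| ^ r := by
    intro s hs
    set A := |al r (κ * (s - 1 / 2))| with hA
    have hA0 : 0 ≤ A := abs_nonneg _
    have e1 : F s * deriv f s ≤ |F s| * (r * |u s| ^ (r - 1) * |deriv u s|) := by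
      refine (le_abs_self _).trans ?_
      rw [abs_mul]
      exact mul_le_mul_of_nonneg_left (abs_deriv_le hr hu s) (abs_nonneg _)
    have e2 := young hr (X := |F s| * |u s| ^ (r - 1)) (Y := |deriv u s|) (by positivity)
      (abs_nonneg _)
    have e3 : (|F s| * |u s| ^ (r - 1)) ^ (r / (r - 1)) = κ ^ r * A ^ (r / (r - 1)) * f s := by
      rw [Real.mul_rpow (abs_nonneg _) (by positivity), ← Real.rpow_mul (abs_nonneg _),
        mul_div_cancel₀ _ hr1]
      congr 1
      simp only [hF]
      rw [abs_mul, abs_neg, abs_of_pos (by positivity), Real.mul_rpow (by positivity)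
        (abs_nonneg _), ← Real.rpow_mul hκ0.le, mul_div_cancel₀ _ hr1]
    have e4 : F' s = -(κ ^ r * (1 + (r - 1) * A ^ (r / (r - 1)))) := by
      simp only [hF', den]
      have : κ ^ r = κ ^ (r - 1) * κ := by
        rw [← Real.rpow_add_one hκ0.ne']; congr 1; ring
      rw [this]; ring
    rw [e3] at e2
    rw [e4]
    have e5 : |F s| * (r * |u s| ^ (r - 1) * |deriv u s|) =
        r * (|F s| * |u s| ^ (r - 1) * |deriv u s|) := by ring
    rw [e5] at e1
    nlinarith
  have hkc : Continuous fun s => κ ^ r * f s := continuous_const.mul hfC.continuous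
  have hkf : IntervalIntegrable (fun s => κ ^ r * f s) volume a b := hkc.intervalIntegrable _ _
  have hmono : ∫ s in a..b, (κ ^ r * f s + (F' s * f s + F s * deriv f s)) ≤
      ∫ s in a..b, |deriv u s| ^ r := by
    refine intervalIntegral.integral_mono_on hab.le ?_ (hDc.intervalIntegrable _ _) hpt
    exact hkf.add hG'c.intervalIntegrable
  rw [intervalIntegral.integral_add hkf
    hG'c.intervalIntegrable, hint, add_zero, intervalIntegral.integral_const_mul] at hmono
  have hout : ∀ s, s ∉ Ioc a b → s ∉ tsupport u := fun s hs h => hs ⟨(hin s h).1, (hin s h).2.le⟩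
  have c1 : ∫ s in a..b, f s = ∫ x, |u x| ^ r := by
    rw [intervalIntegral.integral_of_le hab.le]
    refine setIntegral_eq_integral_of_forall_compl_eq_zero fun s hs => ?_
    simp only [hf, image_eq_zero_of_notMem_tsupport (hout s hs), abs_zero]
    exact Real.zero_rpow hr0.ne'
  have c2 : ∫ s in a..b, |deriv u s| ^ r = ∫ x, ‖fderiv ℝ u x‖ ^ r := by
    rw [intervalIntegral.integral_of_le hab.le]
    rw [setIntegral_eq_integral_of_forall_compl_eq_zero fun s hs => ?_]
    · refine integral_congr_ae (Eventually.of_forall fun s => ?_)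
      simp only
      rw [← norm_deriv_eq_norm_fderiv, Real.norm_eq_abs]
    · have h1 : deriv u s = 0 := by
        by_contra hne
        exact hout s hs (support_deriv_subset hne)
      rw [h1, abs_zero]
      exact Real.zero_rpow hr0.ne'
  rw [c1, c2] at hmono
  exact hmono

/-! the upper bound -/

theorem sqpos_deriv (y : ℝ) : HasDerivAt (fun y : ℝ => (max y 0) ^ 2) (2 * max y 0) y := by
  rcases lt_trichotomy y 0 with h | h | h
  · have h1 : (fun y : ℝ => (max y 0) ^ 2) =ᶠ[𝓝 y] fun _ => 0 := by
      filter_upwards [gt_mem_nhds h] with z hz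
      rw [max_eq_right hz.le]; norm_num
    rw [max_eq_right h.le, mul_zero]
    exact (hasDerivAt_const y (0:ℝ)).congr_of_eventuallyEq h1
  · subst h
    have h1 : (fun y : ℝ => (max y 0) ^ 2) =O[𝓝 0] fun x => ‖x - 0‖ ^ 2 := by
      refine Asymptotics.IsBigO.of_bound 1 (Eventually.of_forall fun z => ?_)
      rw [sub_zero, one_mul, norm_pow, norm_pow, norm_norm]
      refine pow_le_pow_left₀ (norm_nonneg _) ?_ 2
      rw [Real.norm_eq_abs, Real.norm_eq_abs, abs_of_nonneg (le_max_right z 0)]
      exact max_le (le_abs_self z) (abs_nonneg z)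
    have h2 := h1.hasFDerivAt (𝕜 := ℝ) one_lt_two
    have h3 := h2.hasDerivAt
    simpa using h3
  · have h1 : (fun y : ℝ => (max y 0) ^ 2) =ᶠ[𝓝 y] fun z => z ^ 2 := by
      filter_upwards [lt_mem_nhds h] with z hz
      rw [max_eq_left hz.le]
    rw [max_eq_left h.le]
    have h2 : HasDerivAt (fun z : ℝ => z ^ 2) (2 * y) y := by simpa using hasDerivAt_pow 2 y
    exact h2.congr_of_eventuallyEq h1

/-- the truncation -/
noncomputable def phi (ε x : ℝ) : ℝ := (max (x - ε) 0) ^ 2 / x

noncomputable def phi' (ε x : ℝ) : ℝ := (2 * max (x - ε) 0 * x - (max (x - ε) 0) ^ 2 * 1) / x ^ 2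

theorem phi_deriv (ε : ℝ) {x : ℝ} (hx : 0 < x) : HasDerivAt (phi ε) (phi' ε x) x := by
  have h1 : HasDerivAt (fun x : ℝ => x - ε) 1 x := (hasDerivAt_id x).sub_const ε
  have h2 : HasDerivAt (fun x : ℝ => (max (x - ε) 0) ^ 2) (2 * max (x - ε) 0) x := by
    have := (sqpos_deriv (x - ε)).comp x h1
    rw [mul_one] at this
    exact this
  exact h2.div (hasDerivAt_id x) hx.ne'

theorem phi'_bound {ε x : ℝ} (hε : 0 < ε) (hx : 0 < x) : |phi' ε x| ≤ 1 := by
  unfold phi'
  set m := max (x - ε) 0 with hm
  have h1 : 0 ≤ m := le_max_right _ _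
  have h2 : m ≤ x := max_le (by linarith) hx.le
  rw [abs_of_nonneg (div_nonneg (by nlinarith) (by positivity)), div_le_one (by positivity)]
  nlinarith [sq_nonneg (x - m)]

theorem phi_nonneg {ε x : ℝ} (hx : 0 < x) : 0 ≤ phi ε x := by unfold phi; positivity

theorem phi_le {ε x : ℝ} (hε : 0 < ε) (hx : 0 < x) : phi ε x ≤ x := by
  unfold phi
  have h1 : 0 ≤ max (x - ε) 0 := le_max_right _ _
  have h2 : max (x - ε) 0 ≤ x := max_le (by linarith) hx.le
  rw [div_le_iff₀ hx]
  nlinarith

theorem phi_zero {ε x : ℝ} (hx : x ≤ ε) : phi ε x = 0 := by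
  unfold phi
  rw [max_eq_right (by linarith)]
  simp

theorem phi_zero' {x : ℝ} (hx : 0 < x) : phi 0 x = x := by
  unfold phi
  rw [sub_zero, max_eq_left hx.le]
  field_simp

/-- the profile -/
noncomputable def prof (r a : ℝ) : ℝ := den r a ^ (-(1 / r))

theorem prof_pos (hr : 1 < r) (a : ℝ) : 0 < prof r a := Real.rpow_pos_of_pos (den_pos hr a) _

theorem prof_le_one (hr : 1 < r) (a : ℝ) : prof r a ≤ 1 :=
  Real.rpow_le_one_of_one_le_of_nonpos (den_ge hr a) (by
    have : 0 < 1 / r := by positivity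
    linarith)

theorem prof_anti (hr : 1 < r) {a b : ℝ} (h : |a| ≤ |b|) : prof r b ≤ prof r a := by
  unfold prof
  refine Real.rpow_le_rpow_of_nonpos (den_pos hr a) ?_ (by
    have : 0 < 1 / r := by positivity
    linarith)
  unfold den
  have h1 : 0 ≤ r / (r - 1) := (zero_lt_one.trans (rp_gt hr)).le
  have h2 := Real.rpow_le_rpow (abs_nonneg a) h h1
  have h3 : 0 < r - 1 := by linarith
  nlinarith

theorem prof_pow (hr : 1 < r) (a : ℝ) : prof r a ^ r = 1 / den r a := by
  unfold prof
  rw [← Real.rpow_mul (den_pos hr a).le]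
  have : -(1 / r) * r = -1 := by
    have : r ≠ 0 := by linarith
    field_simp
  rw [this, Real.rpow_neg_one, one_div]

theorem prof_deriv (hr : 1 < r) (a : ℝ) :
    HasDerivAt (prof r) (-(den r a ^ (-(1 / r) - 1) * (|a| ^ (r / (r - 1) - 2) * a))) a := by
  have h1 := (den_deriv hr a).rpow_const (p := -(1 / r)) (Or.inl (den_pos hr a).ne')
  refine h1.congr_deriv ?_
  have : r ≠ 0 := by linarith
  field_simp

theorem exists_small (hr : 1 < r) {ε : ℝ} (hε : 0 < ε) : ∃ M : ℝ, 0 ≤ M ∧ prof r M ≤ ε := by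
  have h1 : Tendsto (fun a : ℝ => (r - 1) * a ^ (r / (r - 1))) atTop atTop :=
    (tendsto_rpow_atTop (zero_lt_one.trans (rp_gt hr))).const_mul_atTop (by linarith)
  obtain ⟨M, hM, hM0⟩ := ((h1.eventually_ge_atTop (ε ^ (-r))).and (eventually_ge_atTop 0)).exists
  refine ⟨M, hM0, ?_⟩
  unfold prof
  have hr0 : r ≠ 0 := by linarith
  have h2 : ε ^ (-r) ≤ den r M := by
    unfold den
    rw [abs_of_nonneg hM0]
    linarith
  have h3 := Real.rpow_le_rpow_of_nonpos (z := -(1 / r)) (Real.rpow_pos_of_pos hε _) h2 (by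
    have : 0 < 1 / r := by positivity
    linarith)
  refine h3.trans (le_of_eq ?_)
  rw [← Real.rpow_mul hε.le]
  have : -r * -(1 / r) = 1 := by field_simp
  rw [this, Real.rpow_one]

theorem tang_cont (hr : 1 < r) : Continuous fun a : ℝ => |a| ^ (r / (r - 1) - 2) * a := by
  have h1 : ContDiff ℝ 1 (fun x : ℝ => |x| ^ (r / (r - 1))) := contDiff_norm_rpow (rp_gt hr)
  have h2 := h1.continuous_deriv_one
  have h0 : r / (r - 1) ≠ 0 := (zero_lt_one.trans (rp_gt hr)).ne'
  have h3 : (fun a : ℝ => |a| ^ (r / (r - 1) - 2) * a) =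
      fun a => (r / (r - 1))⁻¹ * deriv (fun x : ℝ => |x| ^ (r / (r - 1))) a := by
    funext a
    rw [(hasDerivAt_abs_rpow a (rp_gt hr)).deriv]
    rw [mul_assoc, ← mul_assoc, inv_mul_cancel₀ h0, one_mul]
  rw [h3]
  exact continuous_const.mul h2

theorem tang_pow (hr : 1 < r) (a : ℝ) :
    |(|a| ^ (r / (r - 1) - 2) * a)| ^ r = |a| ^ (r / (r - 1)) := by
  have hr1 : r - 1 ≠ 0 := by linarith
  rcases eq_or_ne a 0 with rfl | h
  · have h0 : r / (r - 1) ≠ 0 := (zero_lt_one.trans (rp_gt hr)).ne'
    rw [mul_zero, abs_zero, Real.zero_rpow (by linarith), Real.zero_rpow h0]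
  · have h0 : 0 < |a| := abs_pos.2 h
    rw [abs_mul, abs_of_nonneg (by positivity : (0:ℝ) ≤ |a| ^ (r / (r - 1) - 2)),
      ← Real.rpow_add_one h0.ne', ← Real.rpow_mul h0.le]
    congr 1
    field_simp
    ring

/-- the angle -/
noncomputable def ang (r s : ℝ) : ℝ := al r (2 * Jr r * (s - 1 / 2))

theorem ang_range (hr : 1 < r) {s : ℝ} (hs : s ∈ Ioo (0:ℝ) 1) :
    -Jr r < 2 * Jr r * (s - 1 / 2) ∧ 2 * Jr r * (s - 1 / 2) < Jr r := by
  have hJ := Jr_pos hr
  constructor <;> nlinarith [hs.1, hs.2]

theorem ang_deriv (hr : 1 < r) {s : ℝ} (hs : s ∈ Ioo (0:ℝ) 1) :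
    HasDerivAt (ang r) (den r (ang r s) * (2 * Jr r)) s := by
  obtain ⟨h1, h2⟩ := ang_range hr hs
  have h3 := al_deriv hr h1 h2
  have h4 : HasDerivAt (fun s : ℝ => 2 * Jr r * (s - 1 / 2)) (2 * Jr r) s := by
    simpa using ((hasDerivAt_id s).sub_const (1 / 2 : ℝ)).const_mul (2 * Jr r)
  exact h3.comp s h4

theorem ang_contOn (hr : 1 < r) : ContinuousOn (ang r) (Ioo 0 1) := fun s hs =>
  (ang_deriv hr hs).continuousAt.continuousWithinAt

noncomputable def V (r s : ℝ) : ℝ := prof r (ang r s)

noncomputable def V' (r s : ℝ) : ℝ :=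
  -(prof r (ang r s) * (|ang r s| ^ (r / (r - 1) - 2) * ang r s) * (2 * Jr r))

theorem V_deriv (hr : 1 < r) {s : ℝ} (hs : s ∈ Ioo (0:ℝ) 1) : HasDerivAt (V r) (V' r s) s := by
  have h1 := (prof_deriv hr (ang r s)).comp s (ang_deriv hr hs)
  refine h1.congr_deriv ?_
  unfold V' prof
  rw [Real.rpow_sub_one (den_pos hr _).ne']
  have := (den_pos hr (ang r s)).ne'
  field_simp

theorem prof_cont (hr : 1 < r) : Continuous (prof r) :=
  continuous_iff_continuousAt.2 fun a => (prof_deriv hr a).continuousAt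

theorem V'_contOn (hr : 1 < r) : ContinuousOn (V' r) (Ioo 0 1) :=
  ((((prof_cont hr).comp_continuousOn (ang_contOn hr)).mul
    ((tang_cont hr).comp_continuousOn (ang_contOn hr))).mul continuousOn_const).neg

theorem V_contOn (hr : 1 < r) : ContinuousOn (V r) (Ioo 0 1) :=
  (prof_cont hr).comp_continuousOn (ang_contOn hr)

theorem V'_pow (hr : 1 < r) (s : ℝ) :
    |V' r s| ^ r = (2 * Jr r) ^ r * (|ang r s| ^ (r / (r - 1)) / den r (ang r s)) := by
  have hJ := Jr_pos hr
  unfold V'
  rw [abs_neg, abs_mul, abs_mul, abs_of_pos (prof_pos hr _), abs_of_pos (by positivity : 0 < 2 * Jr r),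
    Real.mul_rpow (mul_nonneg (prof_pos hr _).le (abs_nonneg _)) (by positivity),
    Real.mul_rpow (prof_pos hr _).le (abs_nonneg _), prof_pow hr, tang_pow hr]
  ring

theorem ang_T (hr : 1 < r) (a : ℝ) : ang r (1 / 2 + T r a / (2 * Jr r)) = a := by
  unfold ang
  have hJ := (Jr_pos hr).ne'
  have : 2 * Jr r * (1 / 2 + T r a / (2 * Jr r) - 1 / 2) = T r a := by field_simp; ring
  rw [this, al_T hr]

/-- equality of energies on symmetric intervals -/
theorem energy (hr : 1 < r) {M : ℝ} (hM : 0 ≤ M) :
    ∫ s in (1 / 2 + T r (-M) / (2 * Jr r))..(1 / 2 + T r M / (2 * Jr r)), |V' r s| ^ r ≤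
      (2 * Jr r) ^ r * ∫ s in (1 / 2 + T r (-M) / (2 * Jr r))..(1 / 2 + T r M / (2 * Jr r)),
        1 / den r (ang r s) := by
  have hJ := Jr_pos hr
  have hr1 : r - 1 ≠ 0 := by linarith
  set p := 1 / 2 + T r (-M) / (2 * Jr r) with hp
  set q := 1 / 2 + T r M / (2 * Jr r) with hq
  have hpq : p ≤ q := by
    rw [hp, hq]
    have := (T_mono hr).monotone (show -M ≤ M by linarith)
    gcongr
  have hin : ∀ a, 1 / 2 + T r a / (2 * Jr r) ∈ Ioo (0:ℝ) 1 := by
    intro a
    have h1 := T_lt hr a
    have h2 := neg_lt_T hr a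
    have h3 : T r a / (2 * Jr r) < 1 / 2 := by rw [div_lt_iff₀ (by positivity)]; linarith
    have h4 : -(1 / 2) < T r a / (2 * Jr r) := by rw [lt_div_iff₀ (by positivity)]; linarith
    constructor <;> linarith
  have hsub : Icc p q ⊆ Ioo 0 1 := fun s hs =>
    ⟨(hin (-M)).1.trans_le hs.1, hs.2.trans_lt (hin M).2⟩
  have hac : ContinuousOn (ang r) (uIcc p q) := by
    rw [uIcc_of_le hpq]; exact (ang_contOn hr).mono hsub
  have hdc : ContinuousOn (fun s => 1 / den r (ang r s)) (uIcc p q) :=
    continuousOn_const.div ((den_cont hr).comp_continuousOn hac) fun s _ => (den_pos hr _).ne'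
  have h0 : 0 ≤ r / (r - 1) := (zero_lt_one.trans (rp_gt hr)).le
  have hpc : ContinuousOn (fun s => |ang r s| ^ (r / (r - 1)) / den r (ang r s)) (uIcc p q) :=
    (hac.abs.rpow_const fun x _ => Or.inr h0).div ((den_cont hr).comp_continuousOn hac)
      fun s _ => (den_pos hr _).ne'
  -- the primitive
  set Q : ℝ → ℝ := fun s => ang r s / den r (ang r s) with hQ
  have hQd : ∀ s ∈ uIcc p q, HasDerivAt Q ((2 * Jr r) * (1 / den r (ang r s) -
      |ang r s| ^ (r / (r - 1)) / den r (ang r s))) s := by
    intro s hs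
    rw [uIcc_of_le hpq] at hs
    have h1 := ang_deriv hr (hsub hs)
    have h2 := (den_deriv hr (ang r s)).comp s h1
    have h3 := h1.div h2 (den_pos hr (ang r s)).ne'
    refine h3.congr_deriv ?_
    set a := ang r s with ha
    have hd := (den_pos hr a).ne'
    have e1 : |a| ^ (r / (r - 1) - 2) * a * a = |a| ^ (r / (r - 1)) := by
      rcases eq_or_ne a 0 with h | h
      · rw [h]
        have h0' : r / (r - 1) ≠ 0 := (zero_lt_one.trans (rp_gt hr)).ne'
        rw [mul_zero, abs_zero, Real.zero_rpow h0']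
      · have h4 : 0 < |a| := abs_pos.2 h
        rw [mul_assoc, ← abs_mul_abs_self a, ← mul_assoc, ← Real.rpow_add_one h4.ne',
          ← Real.rpow_add_one h4.ne']
        congr 1; ring
    have e2 : den r a = 1 + (r - 1) * |a| ^ (r / (r - 1)) := rfl
    simp only [Function.comp_apply, ← ha]
    rw [div_eq_iff (by positivity)]
    have e3 : (2 * Jr r) * (1 / den r a - |a| ^ (r / (r - 1)) / den r a) * den r a ^ 2 =
        (2 * Jr r) * den r a * (1 - |a| ^ (r / (r - 1))) := by
      field_simp
    rw [e3, ← e1]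
    have e4 : den r a = 1 + (r - 1) * (|a| ^ (r / (r - 1) - 2) * a * a) := by rw [e1]; exact e2
    have e5 : den r a * (2 * Jr r) * den r a - a * (r * (|a| ^ (r / (r - 1) - 2) * a) *
        (den r a * (2 * Jr r))) = (2 * Jr r) * den r a *
        (den r a - r * (|a| ^ (r / (r - 1) - 2) * a * a)) := by ring
    rw [e5]
    congr 1
    rw [e4]; ring
  have hint := intervalIntegral.integral_eq_sub_of_hasDerivAt hQd
    ((continuousOn_const.mul (hdc.sub hpc)).intervalIntegrable)
  rw [intervalIntegral.integral_const_mul, intervalIntegral.integral_sub hdc.intervalIntegrable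
    hpc.intervalIntegrable] at hint
  have hQq : Q q = M / den r M := by simp only [hQ, hq, ang_T hr]
  have hQp : Q p = (-M) / den r (-M) := by simp only [hQ, hp, ang_T hr]
  have hQ0 : 0 ≤ Q q - Q p := by
    rw [hQq, hQp]
    have := div_nonneg hM (den_pos hr M).le
    have h2 := div_nonneg hM (den_pos hr (-M)).le
    rw [neg_div]
    linarith
  rw [← hint] at hQ0
  have h5 : 0 ≤ (∫ s in p..q, 1 / den r (ang r s)) -
      ∫ s in p..q, |ang r s| ^ (r / (r - 1)) / den r (ang r s) :=
    nonneg_of_mul_nonneg_right hQ0 (by positivity)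
  simp only [V'_pow hr]
  rw [intervalIntegral.integral_const_mul]
  exact mul_le_mul_of_nonneg_left (by linarith) (by positivity)

theorem test_fun (hr : 1 < r) {ε : ℝ} (hε : 0 < ε) :
    lam r (Ioo (0:ℝ) 1) * ∫ s in Ioo (0:ℝ) 1, (phi ε (V r s)) ^ r ≤
      (2 * Jr r) ^ r * ∫ s in Ioo (0:ℝ) 1, 1 / den r (ang r s) := by
  have hJ := Jr_pos hr
  have hr0 : 0 < r := by linarith
  obtain ⟨M, hM, hMε⟩ := exists_small hr hε
  set p := 1 / 2 + T r (-M) / (2 * Jr r) with hp
  set q := 1 / 2 + T r M / (2 * Jr r) with hq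
  have hpq : p ≤ q := by
    rw [hp, hq]
    have := (T_mono hr).monotone (show -M ≤ M by linarith)
    gcongr
  have hin : ∀ a, 1 / 2 + T r a / (2 * Jr r) ∈ Ioo (0:ℝ) 1 := by
    intro a
    have h1 := T_lt hr a
    have h2 := neg_lt_T hr a
    have h3 : T r a / (2 * Jr r) < 1 / 2 := by rw [div_lt_iff₀ (by positivity)]; linarith
    have h4 : -(1 / 2) < T r a / (2 * Jr r) := by rw [lt_div_iff₀ (by positivity)]; linarith
    constructor <;> linarith
  have hsub : Icc p q ⊆ Ioo 0 1 := fun s hs =>
    ⟨(hin (-M)).1.trans_le hs.1, hs.2.trans_lt (hin M).2⟩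
  have hVpos : ∀ s, 0 < V r s := fun s => prof_pos hr _
  -- outside [p, q] the profile is small
  have hsmall : ∀ s ∈ Ioo (0:ℝ) 1, s ∉ Icc p q → V r s ≤ ε := by
    intro s hs hsn
    refine le_trans ?_ hMε
    refine prof_anti hr ?_
    obtain ⟨h1, h2⟩ := ang_range hr hs
    have h3 : T r (ang r s) = 2 * Jr r * (s - 1 / 2) := T_al hr h1 h2
    rw [abs_of_nonneg hM]
    rw [mem_Icc, not_and_or, not_le, not_le] at hsn
    rcases hsn with h | h
    · have h4 : T r (ang r s) < T r (-M) := by
        rw [h3]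
        rw [hp] at h
        have h5 : s - 1 / 2 < T r (-M) / (2 * Jr r) := by linarith
        rw [lt_div_iff₀ (by positivity)] at h5
        linarith
      have h6 := (T_mono hr).lt_iff_lt.1 h4
      have := neg_abs_le (ang r s)
      linarith
    · have h4 : T r M < T r (ang r s) := by
        rw [h3]
        rw [hq] at h
        have h5 : T r M / (2 * Jr r) < s - 1 / 2 := by linarith
        rw [div_lt_iff₀ (by positivity)] at h5
        linarith
      have h6 := (T_mono hr).lt_iff_lt.1 h4
      exact h6.le.trans (le_abs_self _)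
  classical
  set u : ℝ → ℝ := fun s => if s ∈ Ioo (0:ℝ) 1 then phi ε (V r s) else 0 with hu
  set D : ℝ → ℝ := fun s => if s ∈ Ioo (0:ℝ) 1 then phi' ε (V r s) * V' r s else 0 with hD
  have hu0 : ∀ s, s ∉ Icc p q → u s = 0 := by
    intro s hs
    simp only [hu]
    split_ifs with h
    · exact phi_zero (hsmall s h hs)
    · rfl
  have hD0 : ∀ s, s ∉ Icc p q → D s = 0 := by
    intro s hs
    simp only [hD]
    split_ifs with h
    · have h1 := hsmall s h hs
      unfold phi'
      rw [max_eq_right (by linarith)]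
      simp
    · rfl
  have hud : ∀ s, HasDerivAt u (D s) s := by
    intro s
    by_cases hs : s ∈ Icc p q
    · have hs' := hsub hs
      have h1 : u =ᶠ[𝓝 s] fun s => phi ε (V r s) := by
        filter_upwards [isOpen_Ioo.mem_nhds hs'] with z hz
        simp only [hu]
        rw [if_pos hz]
      have h2 : D s = phi' ε (V r s) * V' r s := by simp only [hD]; rw [if_pos hs']
      rw [h2]
      exact ((phi_deriv ε (hVpos s)).comp s (V_deriv hr hs')).congr_of_eventuallyEq h1
    · rw [hD0 s hs]
      have h1 : u =ᶠ[𝓝 s] fun _ => 0 := by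
        filter_upwards [isClosed_Icc.isOpen_compl.mem_nhds hs] with z hz
        exact hu0 z hz
      exact (hasDerivAt_const s (0:ℝ)).congr_of_eventuallyEq h1
  have hDc : Continuous D := by
    rw [continuous_iff_continuousAt]
    intro s
    by_cases hs : s ∈ Icc p q
    · have hs' := hsub hs
      have h1 : D =ᶠ[𝓝 s] fun s => phi' ε (V r s) * V' r s := by
        filter_upwards [isOpen_Ioo.mem_nhds hs'] with z hz
        simp only [hD]
        rw [if_pos hz]
      have hVc : ContinuousAt (V r) s := (V_contOn hr).continuousAt (isOpen_Ioo.mem_nhds hs')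
      have hV'c : ContinuousAt (V' r) s := (V'_contOn hr).continuousAt (isOpen_Ioo.mem_nhds hs')
      have h2 : ContinuousAt (fun s => phi' ε (V r s)) s := by
        unfold phi'
        have hm : ContinuousAt (fun s => max (V r s - ε) 0) s :=
          (hVc.sub continuousAt_const).max continuousAt_const
        refine ContinuousAt.div ?_ (hVc.pow 2) (by have := hVpos s; positivity)
        exact ((continuousAt_const.mul hm).mul hVc).sub ((hm.pow 2).mul continuousAt_const)
      exact (h2.mul hV'c).congr h1.symm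
    · have h1 : D =ᶠ[𝓝 s] fun _ => 0 := by
        filter_upwards [isClosed_Icc.isOpen_compl.mem_nhds hs] with z hz
        exact hD0 z hz
      exact continuousAt_const.congr h1.symm
  have hderiv : deriv u = D := funext fun s => (hud s).deriv
  have huC : ContDiff ℝ 1 u := by
    rw [contDiff_one_iff_deriv]
    exact ⟨fun s => (hud s).differentiableAt, by rw [hderiv]; exact hDc⟩
  have hts : tsupport u ⊆ Icc p q := by
    refine closure_minimal ?_ isClosed_Icc
    intro s hs
    by_contra hcon
    exact hs (hu0 s hcon)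
  have huc : HasCompactSupport u := isCompact_Icc.of_isClosed_subset (isClosed_tsupport _) hts
  have hmain := lam_mul_le (p := r) huC huc (hts.trans hsub)
  -- left side
  have e1 : ∫ x, |u x| ^ r = ∫ s in Ioo (0:ℝ) 1, (phi ε (V r s)) ^ r := by
    rw [← integral_indicator measurableSet_Ioo]
    refine integral_congr_ae (Eventually.of_forall fun s => ?_)
    simp only [hu, indicator]
    split_ifs with h
    · rw [abs_of_nonneg (phi_nonneg (hVpos s))]
    · rw [abs_zero]; exact Real.zero_rpow hr0.ne'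
  -- right side
  have hV'c : ContinuousOn (fun s => |V' r s| ^ r) (Icc p q) :=
    (((V'_contOn hr).mono hsub).abs).rpow_const fun x _ => Or.inr hr0.le
  have e2 : ∫ x, ‖fderiv ℝ u x‖ ^ r ≤ ∫ s in p..q, |V' r s| ^ r := by
    have h1 : ∫ x, ‖fderiv ℝ u x‖ ^ r = ∫ s in Icc p q, |D s| ^ r := by
      rw [setIntegral_eq_integral_of_forall_compl_eq_zero fun s hs => ?_]
      · refine integral_congr_ae (Eventually.of_forall fun s => ?_)
        simp only
        rw [← norm_deriv_eq_norm_fderiv, Real.norm_eq_abs, hderiv]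
      · rw [hD0 s hs, abs_zero]; exact Real.zero_rpow hr0.ne'
    rw [h1, intervalIntegral.integral_of_le hpq, ← integral_Icc_eq_integral_Ioc]
    refine setIntegral_mono_on ?_ hV'c.integrableOn_Icc measurableSet_Icc ?_
    · exact ((hDc.abs.rpow_const fun x => Or.inr hr0.le).continuousOn).integrableOn_Icc
    · intro s hs
      refine Real.rpow_le_rpow (abs_nonneg _) ?_ hr0.le
      simp only [hD]
      rw [if_pos (hsub hs), abs_mul]
      exact mul_le_of_le_one_left (abs_nonneg _) (phi'_bound hε (hVpos s))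
  have e3 := energy hr hM
  rw [← hp, ← hq] at e3
  have hdc : ContinuousOn (fun s => 1 / den r (ang r s)) (Ioo 0 1) :=
    continuousOn_const.div ((den_cont hr).comp_continuousOn (ang_contOn hr))
      fun s _ => (den_pos hr _).ne'
  have hdi : IntegrableOn (fun s => 1 / den r (ang r s)) (Ioo 0 1) := by
    refine Integrable.of_bound (hdc.aestronglyMeasurable measurableSet_Ioo) 1
      (Eventually.of_forall fun s => ?_)
    rw [Real.norm_of_nonneg (by have := den_pos hr (ang r s); positivity), div_le_one (den_pos hr _)]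
    exact den_ge hr _
  have e4 : ∫ s in p..q, 1 / den r (ang r s) ≤ ∫ s in Ioo (0:ℝ) 1, 1 / den r (ang r s) := by
    rw [intervalIntegral.integral_of_le hpq]
    refine setIntegral_mono_set hdi ?_ ?_
    · exact Eventually.of_forall fun s => by
        have := den_pos hr (ang r s)
        simp only [Pi.zero_apply]
        positivity
    · exact (Ioc_subset_Icc_self.trans hsub).eventuallyLE
  rw [e1] at hmain
  refine hmain.trans (e2.trans (e3.trans ?_))
  exact mul_le_mul_of_nonneg_left e4 (by positivity)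

/-- the first eigenvalue of the `r`-Laplacian on the unit interval -/
theorem lam_interval {r : ℝ} (hr : 1 < r) : lam r (Ioo (0 : ℝ) 1) = (2 * Jr r) ^ r := by
  have hJ := Jr_pos hr
  have hr0 : 0 < r := by linarith
  have hVpos : ∀ s, 0 < V r s := fun s => prof_pos hr _
  refine le_antisymm ?_ ?_
  · set I := ∫ s in Ioo (0:ℝ) 1, 1 / den r (ang r s) with hI
    have hdc : ContinuousOn (fun s => 1 / den r (ang r s)) (Ioo 0 1) :=
      continuousOn_const.div ((den_cont hr).comp_continuousOn (ang_contOn hr))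
        fun s _ => (den_pos hr _).ne'
    have hdi : IntegrableOn (fun s => 1 / den r (ang r s)) (Ioo 0 1) := by
      refine Integrable.of_bound (hdc.aestronglyMeasurable measurableSet_Ioo) 1
        (Eventually.of_forall fun s => ?_)
      rw [Real.norm_of_nonneg (by have := den_pos hr (ang r s); positivity),
        div_le_one (den_pos hr _)]
      exact den_ge hr _
    have hIpos : 0 < I := by
      have h1 : I = ∫ s in (0:ℝ)..1, 1 / den r (ang r s) := by
        rw [intervalIntegral.integral_of_le zero_le_one, integral_Ioc_eq_integral_Ioo]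
      rw [h1]
      refine intervalIntegral.intervalIntegral_pos_of_pos_on ?_ ?_ zero_lt_one
      · rw [intervalIntegrable_iff_integrableOn_Ioo_of_le zero_le_one]
        exact hdi
      · intro s _
        have := den_pos hr (ang r s)
        positivity
    have hlim : Tendsto (fun n : ℕ => ∫ s in Ioo (0:ℝ) 1, (phi (1 / ((n : ℝ) + 1)) (V r s)) ^ r)
        atTop (𝓝 I) := by
      have hI2 : I = ∫ s in Ioo (0:ℝ) 1, (V r s) ^ r := by
        rw [hI]
        refine setIntegral_congr_fun measurableSet_Ioo fun s _ => ?_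
        simp only [V]
        rw [prof_pow hr]
      rw [hI2]
      refine tendsto_integral_of_dominated_convergence (fun _ => (1:ℝ)) ?_ ?_ ?_ ?_
      · intro n
        refine ContinuousOn.aestronglyMeasurable ?_ measurableSet_Ioo
        refine ContinuousOn.rpow_const ?_ fun x _ => Or.inr hr0.le
        unfold phi
        have hm : Continuous fun x : ℝ => (max (x - 1 / ((n : ℝ) + 1)) 0) ^ 2 := by fun_prop
        exact (hm.comp_continuousOn (V_contOn hr)).div
          (V_contOn hr) fun s _ => (hVpos s).ne'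
      · exact integrableOn_const (by simp)
      · intro n
        refine Eventually.of_forall fun s => ?_
        have hn : (0:ℝ) < 1 / ((n : ℝ) + 1) := by positivity
        have h1 := phi_nonneg (ε := 1 / ((n : ℝ) + 1)) (hVpos s)
        rw [Real.norm_of_nonneg (by positivity)]
        refine Real.rpow_le_one h1 ?_ hr0.le
        exact (phi_le hn (hVpos s)).trans (prof_le_one hr _)
      · refine Eventually.of_forall fun s => ?_
        have h1 : Tendsto (fun n : ℕ => 1 / ((n : ℝ) + 1)) atTop (𝓝 0) :=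
          tendsto_one_div_add_atTop_nhds_zero_nat
        have h2 : Continuous fun ε : ℝ => (phi ε (V r s)) ^ r := by
          unfold phi
          refine Continuous.rpow_const ?_ fun x => Or.inr hr0.le
          fun_prop
        have h3 := (h2.tendsto 0).comp h1
        rw [phi_zero' (hVpos s)] at h3
        exact h3
    have h1 : lam r (Ioo (0:ℝ) 1) * I ≤ (2 * Jr r) ^ r * I :=
      le_of_tendsto' (hlim.const_mul _) fun n => test_fun hr (by positivity)
    exact le_of_mul_le_mul_right h1 hIpos
  · refine le_csInf ?_ ?_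
    · -- a bump function
      let ρ : ContDiffBump (1 / 2 : ℝ) := ⟨1 / 8, 1 / 4, by norm_num, by norm_num⟩
      refine ⟨_, ρ, ρ.contDiff, ρ.hasCompactSupport, ?_, ?_, rfl⟩
      · rw [ρ.tsupport_eq]
        intro x hx
        rw [mem_closedBall, Real.dist_eq, abs_le] at hx
        have h1 : ρ.rOut = 1 / 4 := rfl
        rw [h1] at hx
        constructor <;> linarith [hx.1, hx.2]
      · intro h
        have := congrFun h (1 / 2)
        have h1 : ρ (1 / 2) = 1 := ρ.one_of_mem_closedBall (by simp [ρ])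
        rw [h1] at this
        simp at this
    · rintro _ ⟨u, hu, hc, hs, h0, rfl⟩
      have hpos : 0 < ∫ x, |u x| ^ r := by
        obtain ⟨x, hx⟩ := Function.ne_iff.1 h0
        refine Continuous.integral_pos_of_hasCompactSupport_nonneg_nonzero (x := x)
          (hu.continuous.abs.rpow_const fun x => Or.inr hr0.le) ?_ (fun x => by positivity) ?_
        · exact hc.comp_left (g := fun t : ℝ => |t| ^ r) (by simp [Real.zero_rpow hr0.ne'])
        · simp only [Pi.zero_apply] at hx
          have : 0 < |u x| := abs_pos.2 hx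
          positivity
      rw [le_div_iff₀ hpos]
      exact lower hr hu hc hs

end

end Pool.Agent.TH925.J53
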