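import Pool.Agent.TH281.PC.Core

set_option autoImplicit false

open MeasureTheory Set Metric Filter Topology
open scoped InnerProductSpace

namespace Pool.Agent.TH925.J150

open Pool.Agent.TH281.PC

variable {d : ℕ}

/-- tangent plane inequality -/
theorem tangent {W : V d → ℝ} {g : V d → V d} (hW : ConcaveOn ℝ univ W)
    (hg : ∀ x, HasGradientAt W (g x) x) (z e : V d) {t : ℝ} (ht : 0 < t) :
    ⟪g (z + t • e), e⟫_ℝ ≤ ⟪g z, e⟫_ℝ := by
  set φ : ℝ → ℝ := fun s => W (z + s • e) with hφ
  have hc : ConcaveOn ℝ univ φ := by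
    refine ⟨convex_univ, fun a _ b _ α β hα hβ hαβ => ?_⟩
    have h := hW.2 (mem_univ (z + a • e)) (mem_univ (z + b • e)) hα hβ hαβ
    have e1 : α • (z + a • e) + β • (z + b • e) = z + (α • a + β • b) • e := by
      rw [smul_add, smul_add, smul_smul, smul_smul, smul_eq_mul, smul_eq_mul, add_smul]
      have : z = α • z + β • z := by rw [← add_smul, hαβ, one_smul]
      nth_rewrite 3 [this]
      abel
    rw [e1] at h
    exact h
  have hd : ∀ s, HasDerivAt φ ⟪g (z + s • e), e⟫_ℝ s := by
    intro s
    have h2 : HasDerivAt (fun s : ℝ => z + s • e) e s := by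
      simpa using ((hasDerivAt_id s).smul_const e).const_add z
    have h4 := (hg (z + s • e)).hasFDerivAt.comp_hasDerivAt s h2
    refine h4.congr_deriv ?_
    simp
  have h1 := hc.slope_le_of_hasDerivAt (mem_univ 0) (mem_univ t) ht (hd 0)
  have h2 := hc.le_slope_of_hasDerivAt (mem_univ 0) (mem_univ t) ht (hd t)
  have h3 := h2.trans h1
  simpa using h3

theorem deriv_nonpos {W : V d → ℝ} {g : V d → V d} (hW : ConcaveOn ℝ univ W)
    (hg : ∀ x, HasGradientAt W (g x) x) {z : V d} {D : V d →L[ℝ] V d}
    (hD : HasFDerivAt g D z) (e : V d) : ⟪D e, e⟫_ℝ ≤ 0 := by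
  have h2 : HasDerivAt (fun s : ℝ => z + s • e) e 0 := by
    simpa using ((hasDerivAt_id (0:ℝ)).smul_const e).const_add z
  have hD' : HasFDerivAt g D (z + (0:ℝ) • e) := by simpa using hD
  have h3 : HasDerivAt (fun s : ℝ => g (z + s • e)) (D e) 0 := hD'.comp_hasDerivAt 0 h2
  have h4 : HasDerivAt (fun s : ℝ => ⟪g (z + s • e), e⟫_ℝ) ⟪D e, e⟫_ℝ 0 := by
    have := h3.inner ℝ (hasDerivAt_const (0:ℝ) e)
    simpa using this
  rw [hasDerivAt_iff_tendsto_slope] at h4
  have h5 : Tendsto (slope (fun s : ℝ => ⟪g (z + s • e), e⟫_ℝ) 0) (𝓝[>] 0) (𝓝 ⟪D e, e⟫_ℝ) :=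
    h4.mono_left (nhdsWithin_mono _ (fun x hx => ne_of_gt hx))
  refine le_of_tendsto h5 ?_
  filter_upwards [self_mem_nhdsWithin] with t ht
  rw [mem_Ioi] at ht
  rw [slope_def_field]
  refine div_nonpos_of_nonpos_of_nonneg ?_ (by linarith)
  have := tangent hW hg z e ht
  simp only [zero_smul, add_zero]
  linarith

/-- a weighted average is at least a lower bound -/
theorem avg_ge (ρ : ContDiffBump (0 : V d)) {f : V d → ℝ}
    (hf : Integrable fun y => ρ.normed volume y • f y) {c : ℝ}
    (h : ∀ᵐ y, ‖y‖ ≤ ρ.rOut → c ≤ f y) :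
    c ≤ ∫ y, ρ.normed volume y • f y := by
  have h1 : ∫ y, ρ.normed volume y • c = c := by
    rw [integral_smul_const, ρ.integral_normed, one_smul]
  rw [← h1]
  refine integral_mono_ae (ρ.integrable_normed.smul_const c) hf ?_
  filter_upwards [h] with y hy
  by_cases h0 : ρ.normed (volume : Measure (V d)) y = 0
  · simp [h0]
  · have h2 : y ∈ Function.support (ρ.normed (volume : Measure (V d))) := h0
    rw [ContDiffBump.support_normed_eq, Metric.mem_ball, dist_zero_right] at h2
    exact mul_le_mul_of_nonneg_left (hy h2.le) (ρ.nonneg_normed y)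

theorem avg_norm_sub_le (ρ : ContDiffBump (0 : V d)) {F : Type*} [NormedAddCommGroup F]
    [NormedSpace ℝ F] [CompleteSpace F] {f : V d → F}
    (hf : Integrable fun y => ρ.normed volume y • f y) {a : F} {c : ℝ}
    (h : ∀ y, ‖y‖ ≤ ρ.rOut → ‖f y - a‖ ≤ c) :
    ‖(∫ y, ρ.normed volume y • f y) - a‖ ≤ c := by
  have h1 : ∫ y, ρ.normed volume y • a = a := by
    rw [integral_smul_const, ρ.integral_normed, one_smul]
  have h1c : ∫ y, ρ.normed volume y • c = c := by
    rw [integral_smul_const, ρ.integral_normed, one_smul]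
  have h2 : (∫ y, ρ.normed volume y • f y) - a = ∫ y, ρ.normed volume y • (f y - a) := by
    simp_rw [smul_sub]
    rw [integral_sub hf (ρ.integrable_normed.smul_const a), h1]
  rw [h2]
  refine (norm_integral_le_of_norm_le (ρ.integrable_normed.smul_const c) ?_).trans_eq h1c
  refine Eventually.of_forall fun y => ?_
  rw [norm_smul, Real.norm_of_nonneg (ρ.nonneg_normed y), smul_eq_mul]
  by_cases h0 : ρ.normed (volume : Measure (V d)) y = 0
  · simp [h0]
  · have h2 : y ∈ Function.support (ρ.normed (volume : Measure (V d))) := h0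
    rw [ContDiffBump.support_normed_eq, Metric.mem_ball, dist_zero_right] at h2
    exact mul_le_mul_of_nonneg_left (h y h2.le) (ρ.nonneg_normed y)

theorem smul_integrable (ρ : ContDiffBump (0 : V d)) {F : Type*} [NormedAddCommGroup F]
    [NormedSpace ℝ F] {f : V d → F} (hf : Continuous f) (x : V d) :
    Integrable fun y => ρ.normed volume y • f (x - y) :=
  (ρ.continuous_normed.smul (hf.comp (continuous_const.sub
    continuous_id))).integrable_of_hasCompactSupport (ρ.hasCompactSupport_normed.smul_right)

/-- differentiation of averages of Lipschitz maps -/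
theorem deriv_avg (ρ : ContDiffBump (0 : V d)) {g : V d → V d} {L : NNReal}
    (hf : LipschitzWith L g) (x : V d) :
    Integrable (fun y => ρ.normed volume y • fderiv ℝ g (x - y)) ∧
    HasFDerivAt (fun x => ∫ y, ρ.normed volume y • g (x - y))
        (∫ y, ρ.normed volume y • fderiv ℝ g (x - y)) x := by
  have hfc : Continuous g := hf.continuous
  have hρc : Continuous (ρ.normed (volume : Measure (V d))) := ρ.continuous_normed
  have hρi : Integrable (ρ.normed (volume : Measure (V d))) := ρ.integrable_normed
  refine hasFDerivAt_integral_of_dominated_loc_of_lip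
      (F := fun x y => ρ.normed volume y • g (x - y)) (s := univ)
      (bound := fun y => L * ρ.normed volume y) univ_mem ?_ ?_ ?_ ?_ ?_ ?_
  · refine Eventually.of_forall fun x => ?_
    exact (hρc.smul (hfc.comp (continuous_const.sub continuous_id))).aestronglyMeasurable
  · exact smul_integrable ρ hfc x
  · refine hρc.aestronglyMeasurable.smul ?_
    exact ((measurable_fderiv ℝ g).comp (measurable_const.sub measurable_id)).aestronglyMeasurable
  · refine Eventually.of_forall fun y => ?_
    refine LipschitzOnWith.of_dist_le_mul fun x _ x' _ => ?_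
    have h1 : 0 ≤ ρ.normed (volume : Measure (V d)) y := ρ.nonneg_normed y
    have h2 : 0 ≤ (L : ℝ) * ρ.normed (volume : Measure (V d)) y := by positivity
    rw [dist_smul₀, Real.norm_of_nonneg h1, Real.coe_nnabs, abs_of_nonneg h2]
    have h3 := hf.dist_le_mul (x - y) (x' - y)
    rw [dist_sub_right] at h3
    calc _ ≤ ρ.normed (volume : Measure (V d)) y * (L * dist x x') :=
          mul_le_mul_of_nonneg_left h3 h1
      _ = _ := by ring
  · exact hρi.const_mul _
  · have h1 : ∀ᵐ z ∂(volume : Measure (V d)), DifferentiableAt ℝ g z := hf.ae_differentiableAt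
    have h2 : ∀ᵐ y ∂(volume : Measure (V d)), DifferentiableAt ℝ g (x - y) :=
      (Measure.measurePreserving_sub_left (volume : Measure (V d))
        x).quasiMeasurePreserving.ae h1
    filter_upwards [h2] with y hy
    have h3 : HasFDerivAt (fun x => g (x - y)) (fderiv ℝ g (x - y)) x :=
      hy.hasFDerivAt.comp x ((hasFDerivAt_id x).sub_const y)
    exact h3.const_smul (ρ.normed (volume : Measure (V d)) y)

/-- differentiation of averages of `C^{1,1}` functions -/
theorem grad_avg (ρ : ContDiffBump (0 : V d)) {W : V d → ℝ} {g : V d → V d} {L : NNReal}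
    (hg : ∀ x, HasGradientAt W (g x) x) (hf : LipschitzWith L g) (x : V d) :
    HasGradientAt (fun x => ∫ y, ρ.normed volume y • W (x - y))
        (∫ y, ρ.normed volume y • g (x - y)) x := by
  have hgc : Continuous g := hf.continuous
  have hWc : Continuous W := by
    rw [continuous_iff_continuousAt]
    exact fun x => (hg x).hasFDerivAt.continuousAt
  have hρc : Continuous (ρ.normed (volume : Measure (V d))) := ρ.continuous_normed
  have hρi : Integrable (ρ.normed (volume : Measure (V d))) := ρ.integrable_normed
  rw [hasGradientAt_iff_hasFDerivAt]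
  have key := hasFDerivAt_integral_of_dominated_of_fderiv_le (𝕜 := ℝ)
      (μ := (volume : Measure (V d))) (x₀ := x)
      (F := fun x y => ρ.normed volume y • W (x - y)) (s := ball x 1)
      (F' := fun x y => ρ.normed volume y • (InnerProductSpace.toDual ℝ (V d) (g (x - y))))
      (bound := fun y => (‖g x‖ + L * (1 + ρ.rOut)) * ρ.normed volume y)
      (ball_mem_nhds x one_pos) ?_ ?_ ?_ ?_ ?_ ?_
  · refine key.congr_fderiv ?_
    have h1 := (InnerProductSpace.toDual ℝ (V d)).toContinuousLinearEquiv.toContinuousLinearMap.integral_comp_comm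
      (smul_integrable ρ hgc x)
    refine Eq.trans ?_ h1
    refine integral_congr_ae (Eventually.of_forall fun y => ?_)
    exact ((InnerProductSpace.toDual ℝ (V d)).map_smulₛₗ _ _).symm
  · refine Eventually.of_forall fun x => ?_
    exact (hρc.smul (hWc.comp (continuous_const.sub continuous_id))).aestronglyMeasurable
  · exact smul_integrable ρ hWc x
  · refine Continuous.aestronglyMeasurable ?_
    exact hρc.smul ((InnerProductSpace.toDual ℝ (V d)).continuous.comp
      (hgc.comp (continuous_const.sub continuous_id)))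
  · refine Eventually.of_forall fun y x' hx' => ?_
    have h1 : 0 ≤ ρ.normed (volume : Measure (V d)) y := ρ.nonneg_normed y
    rw [norm_smul, Real.norm_of_nonneg h1, LinearIsometryEquiv.norm_map]
    by_cases h0 : ρ.normed (volume : Measure (V d)) y = 0
    · simp [h0]
    · have h2 : y ∈ Function.support (ρ.normed (volume : Measure (V d))) := h0
      rw [ContDiffBump.support_normed_eq, Metric.mem_ball, dist_zero_right] at h2
      rw [mul_comm]
      refine mul_le_mul_of_nonneg_right ?_ h1
      have h3 : ‖g (x' - y) - g x‖ ≤ L * ‖x' - y - x‖ := by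
        have := hf.dist_le_mul (x' - y) x
        rwa [dist_eq_norm, dist_eq_norm] at this
      have h4 : ‖x' - y - x‖ ≤ 1 + ρ.rOut := by
        have e : x' - y - x = (x' - x) - y := by abel
        rw [e]
        refine (norm_sub_le _ _).trans ?_
        rw [mem_ball, dist_eq_norm] at hx'
        linarith
      have h5 : ‖g (x' - y)‖ ≤ ‖g x‖ + ‖g (x' - y) - g x‖ := by
        have := norm_add_le (g x) (g (x' - y) - g x)
        rwa [add_sub_cancel] at this
      have h6 : (L : ℝ) * ‖x' - y - x‖ ≤ L * (1 + ρ.rOut) :=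
        mul_le_mul_of_nonneg_left h4 L.coe_nonneg
      linarith
  · exact hρi.const_mul _
  · refine Eventually.of_forall fun y x' _ => ?_
    have h3 : HasFDerivAt (fun x => W (x - y)) (InnerProductSpace.toDual ℝ (V d) (g (x' - y))) x' :=
      HasFDerivAt.comp (g := W) (f := fun x => x - y) x' (hg (x' - y)).hasFDerivAt
        ((hasFDerivAt_id x').sub_const y)
    exact h3.const_smul (ρ.normed (volume : Measure (V d)) y)

theorem mollify {O : OpData d} {δ : ℝ} {W : V d → ℝ} {g : V d → V d} {L : NNReal}
    (hW : ConcaveOn ℝ univ W) (hg : ∀ x, HasGradientAt W (g x) x) (hL : LipschitzWith L g)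
    (hs : Sub O δ univ W) {K : Set (V d)} (hK : IsCompact K) {η : ℝ} (hη : 0 < η) :
    ∃ (G : V d → ℝ) (q : V d → V d) (Q : V d → V d →L[ℝ] V d), Apx O δ K η W G q Q := by
  have hgc : Continuous g := hL.continuous
  have hWc : Continuous W := by
    rw [continuous_iff_continuousAt]
    exact fun x => (hg x).hasFDerivAt.continuousAt
  obtain ⟨R, hR⟩ := hK.isBounded.subset_closedBall (0 : V d)
  -- bound of the gradient
  set B : ℝ := ‖g 0‖ + L * (|R| + 1) with hB
  have hB0 : 0 ≤ B := by positivity
  have hgB : ∀ z : V d, ‖z‖ ≤ |R| + 1 → ‖g z‖ ≤ B := by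
    intro z hz
    have h3 : ‖g z - g 0‖ ≤ L * ‖z - 0‖ := by
      have := hL.dist_le_mul z 0
      rwa [dist_eq_norm, dist_eq_norm] at this
    rw [sub_zero] at h3
    have h5 : ‖g z‖ ≤ ‖g 0‖ + ‖g z - g 0‖ := by
      have := norm_add_le (g 0) (g z - g 0)
      rwa [add_sub_cancel] at this
    have h6 : (L : ℝ) * ‖z‖ ≤ L * (|R| + 1) := mul_le_mul_of_nonneg_left hz L.coe_nonneg
    linarith
  -- uniform continuity
  have hcpt : IsCompact (closedBall (0 : V d) B) := isCompact_closedBall _ _
  set η' : ℝ := η / (L + 1) with hη'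
  have hη'0 : 0 < η' := by positivity
  have hη'1 : η' * (L + 1) = η := by
    rw [hη']; field_simp
  have hAu := hcpt.uniformContinuousOn_of_continuous (f := O.A) O.contA.continuousOn
  have hbu := hcpt.uniformContinuousOn_of_continuous (f := O.b) O.contb.continuousOn
  obtain ⟨s₁, hs₁, hA⟩ := ((Metric.uniformContinuousOn_iff (α := V d)
    (β := (V d →L[ℝ] V d) →L[ℝ] ℝ)).1 hAu) η' hη'0
  obtain ⟨s₂, hs₂, hb⟩ := ((Metric.uniformContinuousOn_iff (α := V d) (β := ℝ)).1 hbu) η' hη'0
  -- the radius
  set τ : ℝ := min (min 1 (min s₁ s₂ / (2 * (L + 1)))) (η / (B + 1)) with hτ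
  have hτ0 : 0 < τ := by
    refine lt_min (lt_min one_pos ?_) (by positivity)
    have := lt_min hs₁ hs₂
    positivity
  have hτ1 : τ ≤ 1 := (min_le_left _ _).trans (min_le_left _ _)
  have hτ2 : L * τ < min s₁ s₂ := by
    have h1 : τ ≤ min s₁ s₂ / (2 * (L + 1)) := (min_le_left _ _).trans (min_le_right _ _)
    rw [le_div_iff₀ (by positivity)] at h1
    have h2 := lt_min hs₁ hs₂
    have : (L : ℝ) * τ ≤ τ * (L + 1) := by nlinarith [L.coe_nonneg]
    nlinarith
  have hτ3 : B * τ ≤ η := by
    have h1 : τ ≤ η / (B + 1) := min_le_right _ _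
    rw [le_div_iff₀ (by positivity)] at h1
    nlinarith
  have hτ4 : L * (2 * τ) < min s₁ s₂ := by
    have h1 : τ ≤ min s₁ s₂ / (2 * (L + 1)) := (min_le_left _ _).trans (min_le_right _ _)
    rw [le_div_iff₀ (by positivity)] at h1
    nlinarith [L.coe_nonneg]
  let ρ : ContDiffBump (0 : V d) := ⟨τ / 2, τ, by positivity, by linarith⟩
  have hρτ : ρ.rOut = τ := rfl
  have hDint : ∀ x, Integrable (fun y => ρ.normed volume y • fderiv ℝ g (x - y)) :=
    fun x => (deriv_avg ρ hL x).1
  have hWint : ∀ x, Integrable (fun y => ρ.normed volume y • W (x - y)) :=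
    fun x => smul_integrable ρ hWc x
  have hgint : ∀ x, Integrable (fun y => ρ.normed volume y • g (x - y)) :=
    fun x => smul_integrable ρ hgc x
  have hdiff : ∀ x, ∀ᵐ y ∂(volume : Measure (V d)), DifferentiableAt ℝ g (x - y) := fun x =>
    (Measure.measurePreserving_sub_left (volume : Measure (V d))
        x).quasiMeasurePreserving.ae hL.ae_differentiableAt
  refine ⟨fun x => ∫ y, ρ.normed volume y • W (x - y), fun x => ∫ y, ρ.normed volume y • g (x - y),
    fun x => ∫ y, ρ.normed volume y • fderiv ℝ g (x - y), ?_, ?_, ?_, ?_, ?_, ?_⟩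
  · exact fun x => grad_avg ρ hg hL x
  · exact fun x => (deriv_avg ρ hL x).2
  · intro x e
    set T : (V d →L[ℝ] V d) →L[ℝ] ℝ :=
      (innerSL ℝ e).comp (ContinuousLinearMap.apply ℝ (V d) e) with hT
    have h1 := T.integral_comp_comm (hDint x)
    have h2 : ⟪(∫ y, ρ.normed volume y • fderiv ℝ g (x - y)) e, e⟫_ℝ =
        T (∫ y, ρ.normed volume y • fderiv ℝ g (x - y)) := by
      rw [real_inner_comm]
      simp [hT]
    rw [h2, ← h1]
    refine integral_nonpos_of_ae ?_
    filter_upwards [hdiff x] with y hy
    simp only [Pi.zero_apply, map_smul, smul_eq_mul]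
    refine mul_nonpos_of_nonneg_of_nonpos (ρ.nonneg_normed y) ?_
    have h3 := deriv_nonpos hW hg hy.hasFDerivAt e
    rw [real_inner_comm] at h3
    simpa [hT] using h3
  · refine ⟨convex_univ, fun a _ b _ α β hα hβ hαβ => ?_⟩
    have h1 : α • (∫ y, ρ.normed volume y • W (a - y)) + β • (∫ y, ρ.normed volume y • W (b - y)) =
        ∫ y, (α • (ρ.normed volume y • W (a - y)) + β • (ρ.normed volume y • W (b - y))) := by
      have e := integral_add (μ := (volume : Measure (V d)))
        (f := fun y => α • (ρ.normed volume y • W (a - y)))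
        (g := fun y => β • (ρ.normed volume y • W (b - y)))
        ((hWint a).smul α) ((hWint b).smul β)
      rw [e, integral_smul, integral_smul]
    rw [h1]
    refine integral_mono (((hWint a).smul α).add ((hWint b).smul β)) (hWint _) ?_
    intro y
    have h2 := hW.2 (mem_univ (a - y)) (mem_univ (b - y)) hα hβ hαβ
    have e1 : α • (a - y) + β • (b - y) = α • a + β • b - y := by
      rw [smul_sub, smul_sub]
      have : y = α • y + β • y := by rw [← add_smul, hαβ, one_smul]
      nth_rewrite 3 [this]
      abel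
    rw [e1] at h2
    simp only [smul_eq_mul] at h2
    have h3 := mul_le_mul_of_nonneg_left h2 (ρ.nonneg_normed (μ := (volume : Measure (V d))) y)
    simp only [Pi.add_apply, Pi.smul_apply, smul_eq_mul]
    linarith
  · intro x hx
    have hxR : ‖x‖ ≤ |R| := by
      have := hR hx
      rw [mem_closedBall, dist_zero_right] at this
      exact this.trans (le_abs_self R)
    set q : V d := ∫ y, ρ.normed volume y • g (x - y) with hq
    set Q : V d →L[ℝ] V d := ∫ y, ρ.normed volume y • fderiv ℝ g (x - y) with hQ
    set G : ℝ := ∫ y, ρ.normed volume y • W (x - y) with hG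
    -- ‖q‖ ≤ B
    have hqB : ‖q‖ ≤ B := by
      have := avg_norm_sub_le ρ (hgint x) (a := 0) (c := B) (fun y hy => by
        rw [sub_zero]
        apply hgB
        refine (norm_sub_le _ _).trans ?_
        rw [hρτ] at hy
        linarith)
      rwa [sub_zero] at this
    have hqg : ∀ y, ‖y‖ ≤ ρ.rOut → ‖q - g (x - y)‖ ≤ L * (2 * τ) := by
      intro y hy
      refine avg_norm_sub_le ρ (hgint x) (fun y' hy' => ?_)
      have h3 : ‖g (x - y') - g (x - y)‖ ≤ L * ‖(x - y') - (x - y)‖ := by
        have := hL.dist_le_mul (x - y') (x - y)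
        rwa [dist_eq_norm, dist_eq_norm] at this
      refine h3.trans (mul_le_mul_of_nonneg_left ?_ L.coe_nonneg)
      have e : (x - y') - (x - y) = y - y' := by abel
      rw [e]
      refine (norm_sub_le _ _).trans ?_
      rw [hρτ] at hy hy'
      linarith
    have hAint : Integrable fun y => ρ.normed volume y • (O.A q) (fderiv ℝ g (x - y)) := by
      have := (O.A q).integrable_comp (hDint x)
      simpa using this
    have hAeq : O.A q Q = ∫ y, ρ.normed volume y • (O.A q) (fderiv ℝ g (x - y)) := by
      rw [hQ, ← (O.A q).integral_comp_comm (hDint x)]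
      refine integral_congr_ae (Eventually.of_forall fun y => ?_)
      simp
    have hbint : Integrable fun y => ρ.normed (volume : Measure (V d)) y • O.b q :=
      ρ.integrable_normed.smul_const _
    have hbeq : O.b q = ∫ y, ρ.normed (volume : Measure (V d)) y • O.b q := by
      rw [integral_smul_const, ρ.integral_normed, one_smul]
    have htot : O.A q Q + O.b q - δ * G =
        ∫ y, ρ.normed volume y • ((O.A q) (fderiv ℝ g (x - y)) + O.b q - δ * W (x - y)) := by
      have e1 : (fun y => ρ.normed volume y •
          ((O.A q) (fderiv ℝ g (x - y)) + O.b q - δ * W (x - y))) =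
          fun y => (ρ.normed volume y • (O.A q) (fderiv ℝ g (x - y)) +
            ρ.normed volume y • O.b q) - δ * (ρ.normed volume y • W (x - y)) := by
        funext y
        simp only [smul_eq_mul]
        ring
      have e2 := integral_sub (μ := (volume : Measure (V d)))
        (f := fun y => ρ.normed volume y • (O.A q) (fderiv ℝ g (x - y)) +
            ρ.normed volume y • O.b q) (g := fun y => δ * (ρ.normed volume y • W (x - y)))
        (hAint.add hbint) ((hWint x).const_mul δ)
      rw [e1, e2, integral_add hAint hbint, integral_const_mul, ← hAeq, ← hbeq]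
    rw [htot]
    refine avg_ge ρ ?_ ?_
    · have e1 : (fun y => ρ.normed volume y •
          ((O.A q) (fderiv ℝ g (x - y)) + O.b q - δ * W (x - y))) =
          fun y => (ρ.normed volume y • (O.A q) (fderiv ℝ g (x - y)) +
            ρ.normed volume y • O.b q) - δ * (ρ.normed volume y • W (x - y)) := by
        funext y
        simp only [smul_eq_mul]
        ring
      rw [e1]
      exact (hAint.add hbint).sub ((hWint x).const_mul δ)
    · filter_upwards [hdiff x] with y hy hyτ
      have h1 := hs.at_point isOpen_univ (fun x _ => hg x) (mem_univ (x - y)) (mem_univ _)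
        hy.hasFDerivAt
      have hgy : g (x - y) ∈ closedBall (0 : V d) B := by
        rw [mem_closedBall, dist_zero_right]
        apply hgB
        refine (norm_sub_le _ _).trans ?_
        rw [hρτ] at hyτ
        linarith
      have hqm : q ∈ closedBall (0 : V d) B := by
        rw [mem_closedBall, dist_zero_right]
        exact hqB
      have hdist : dist q (g (x - y)) < min s₁ s₂ := by
        rw [dist_eq_norm]
        exact (hqg y hyτ).trans_lt hτ4
      have h2 := hA q hqm (g (x - y)) hgy (hdist.trans_le (min_le_left _ _))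
      have h3 := hb q hqm (g (x - y)) hgy (hdist.trans_le (min_le_right _ _))
      have h2' : ‖O.A q - O.A (g (x - y))‖ < η' :=
        (dist_eq_norm (O.A q) (O.A (g (x - y)))).symm.trans_lt h2
      rw [Real.dist_eq] at h3
      have h4 : |(O.A q - O.A (g (x - y))) (fderiv ℝ g (x - y))| ≤ η' * L := by
        rw [← Real.norm_eq_abs]
        refine ((O.A q - O.A (g (x - y))).le_opNorm _).trans ?_
        exact mul_le_mul h2'.le (norm_fderiv_le_of_lipschitz ℝ hL) (norm_nonneg _) hη'0.le
      rw [sub_apply] at h4
      have h5 := (abs_le.1 h4).1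
      have h6 := (abs_le.1 h3.le).1
      have h7 : η' * L + η' = η := by rw [← hη'1]; ring
      linarith
  · intro x hx
    have hxR : ‖x‖ ≤ |R| := by
      have := hR hx
      rw [mem_closedBall, dist_zero_right] at this
      exact this.trans (le_abs_self R)
    rw [← Real.norm_eq_abs]
    refine avg_norm_sub_le ρ (hWint x) (fun y hy => ?_)
    rw [hρτ] at hy
    have hconv : Convex ℝ (closedBall (0 : V d) (|R| + 1)) := convex_closedBall _ _
    have h1 := hconv.norm_image_sub_le_of_norm_hasFDerivWithin_le (f := W)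
      (f' := fun z => InnerProductSpace.toDual ℝ (V d) (g z)) (C := B) (x := x) (y := x - y)
      (fun z hz => (hg z).hasFDerivAt.hasFDerivWithinAt) (fun z hz => by
        rw [LinearIsometryEquiv.norm_map]
        rw [mem_closedBall, dist_zero_right] at hz
        exact hgB z hz) (by
        rw [mem_closedBall, dist_zero_right]
        linarith) (by
        rw [mem_closedBall, dist_zero_right]
        refine (norm_sub_le _ _).trans ?_
        linarith)
    refine h1.trans ?_
    have e : x - y - x = -y := by abel
    rw [e, norm_neg]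
    exact (mul_le_mul_of_nonneg_left hy hB0).trans hτ3

end Pool.Agent.TH925.J150
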