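import Pool.Agent.TH281.PC.Op
import Pool.Agent.TH281.PC.Defs

set_option autoImplicit false

open MeasureTheory Set Metric Filter Topology
open scoped InnerProductSpace

namespace Pool.Agent.TH925.J160

open Pool.Agent.TH281.PC

variable {d : ℕ}

theorem opb_bdd_below (d : ℕ) {p ε : ℝ} (hp : 1 < p) (hε : 0 < ε) :
    ∃ C : ℝ, 0 ≤ C ∧ ∀ ξ : V d, -C ≤ opb p ε ξ := by
  refine ⟨p * (ε ^ 2 * (ε ^ 2) ^ ((p - 2) / 2)), by positivity, fun ξ => ?_⟩
  set r := ‖ξ‖ with hr
  have hr0 : 0 ≤ r := norm_nonneg _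
  set m := ε ^ 2 + r ^ 2 with hm
  have hm0 : 0 < m := by positivity
  have hC : 0 ≤ p * (ε ^ 2 * (ε ^ 2) ^ ((p - 2) / 2)) := by positivity
  have e1 : opb p ε ξ = p * (m ^ ((p - 2) / 2) * r ^ 2) - r ^ p := rfl
  rw [e1]
  rcases le_total 2 p with h2 | h2
  · have h3 : (r ^ 2) ^ ((p - 2) / 2) ≤ m ^ ((p - 2) / 2) :=
      Real.rpow_le_rpow (by positivity) (by rw [hm]; nlinarith [sq_nonneg ε]) (by linarith)
    have h4 : r ^ p ≤ m ^ ((p - 2) / 2) * r ^ 2 := by
      rcases hr0.eq_or_lt with h0 | h0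
      · rw [← h0, Real.zero_rpow (by linarith)]
        positivity
      · have h5 : r ^ p = (r ^ 2) ^ ((p - 2) / 2) * r ^ 2 := by
          rw [← Real.rpow_natCast r 2, ← Real.rpow_mul hr0, ← Real.rpow_add h0]
          congr 1
          push_cast
          ring
        rw [h5]
        exact mul_le_mul_of_nonneg_right h3 (by positivity)
    have h6 : 0 ≤ m ^ ((p - 2) / 2) * r ^ 2 := by positivity
    nlinarith
  · -- `r ^ p ≤ m ^ (p / 2)`
    have h3 : r ^ p ≤ m ^ ((p - 2) / 2) * m := by
      have h4 : m ^ ((p - 2) / 2) * m = m ^ (p / 2) := by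
        rw [← Real.rpow_add_one hm0.ne']
        congr 1
        ring
      have h5 : r ^ p = (r ^ 2) ^ (p / 2) := by
        rw [← Real.rpow_natCast r 2, ← Real.rpow_mul hr0]
        congr 1
        push_cast
        ring
      rw [h4, h5]
      exact Real.rpow_le_rpow (by positivity) (by rw [hm]; nlinarith [sq_nonneg ε])
        (by linarith)
    have h6 : m ^ ((p - 2) / 2) ≤ (ε ^ 2) ^ ((p - 2) / 2) := by
      apply Real.rpow_le_rpow_of_nonpos (by positivity) (by rw [hm]; nlinarith [sq_nonneg r])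
        (by linarith)
    have h7 : 0 < m ^ ((p - 2) / 2) := by positivity
    have h8 : r ^ 2 = m - ε ^ 2 := by rw [hm]; ring
    rw [h8]
    have h9 : ε ^ 2 * m ^ ((p - 2) / 2) ≤ ε ^ 2 * (ε ^ 2) ^ ((p - 2) / 2) :=
      mul_le_mul_of_nonneg_left h6 (by positivity)
    have h10 : p * (ε ^ 2 * m ^ ((p - 2) / 2)) ≤ p * (ε ^ 2 * (ε ^ 2) ^ ((p - 2) / 2)) :=
      mul_le_mul_of_nonneg_left h9 (by linarith)
    have h11 : 0 ≤ m ^ ((p - 2) / 2) * m := by positivity
    nlinarith

/-- truncated exponential -/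
noncomputable def cut (P : Set (V d)) (w : V d → ℝ) (q c : ℝ) : V d → ℝ :=
  P.indicator (fun x => max (Real.exp (q * w x) - c) 0)

/-- active set -/
def act (P : Set (V d)) (w : V d → ℝ) (q c : ℝ) : Set (V d) :=
  {x | x ∈ P ∧ c < Real.exp (q * w x)}

theorem cut_eq (P : Set (V d)) (w : V d → ℝ) (q c : ℝ) :
    cut P w q c = (act P w q c).indicator (fun x => Real.exp (q * w x) - c) := by
  funext x
  by_cases hx : x ∈ act P w q c
  · rw [indicator_of_mem hx, cut, indicator_of_mem hx.1]
    exact max_eq_left (by linarith [hx.2])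
  · rw [indicator_of_notMem hx, cut]
    by_cases hP : x ∈ P
    · rw [indicator_of_mem hP]
      refine max_eq_right ?_
      have : ¬ c < Real.exp (q * w x) := fun h => hx ⟨hP, h⟩
      linarith
    · rw [indicator_of_notMem hP]

theorem cut_nonneg (P : Set (V d)) (w : V d → ℝ) (q c : ℝ) (x : V d) : 0 ≤ cut P w q c x := by
  rw [cut_eq]
  refine indicator_nonneg (fun x hx => ?_) x
  linarith [hx.2]

theorem act_subset (P : Set (V d)) (w : V d → ℝ) (q c : ℝ) : act P w q c ⊆ P := fun _ h => h.1

theorem exists_compact {P : Set (V d)} {w : V d → ℝ}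
    (hco : ∀ M : ℝ, ∃ K : Set (V d), K ⊆ P ∧ IsCompact K ∧ ∀ x ∈ P, -M ≤ w x → x ∈ K)
    {q c : ℝ} (hq : 0 < q) (hc : 0 < c) :
    ∃ K : Set (V d), K ⊆ P ∧ IsCompact K ∧ act P w q c ⊆ K := by
  obtain ⟨K, hKP, hK, h⟩ := hco (-(Real.log c / q))
  refine ⟨K, hKP, hK, fun x hx => h x hx.1 ?_⟩
  rw [neg_neg, div_le_iff₀ hq]
  have := (Real.log_le_iff_le_exp hc).2 hx.2.le
  linarith

theorem isOpen_act {P : Set (V d)} (hP : IsOpen P) {w : V d → ℝ} (hwc : ContinuousOn w P)
    (q c : ℝ) : IsOpen (act P w q c) := by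
  have h1 : ContinuousOn (fun x => Real.exp (q * w x)) P := by fun_prop
  have h2 := h1.isOpen_inter_preimage hP (isOpen_Ioi (a := c))
  exact h2

theorem cut_tsupport {P : Set (V d)} {w : V d → ℝ}
    (hco : ∀ M : ℝ, ∃ K : Set (V d), K ⊆ P ∧ IsCompact K ∧ ∀ x ∈ P, -M ≤ w x → x ∈ K)
    {q c : ℝ} (hq : 0 < q) (hc : 0 < c) :
    HasCompactSupport (cut P w q c) ∧ tsupport (cut P w q c) ⊆ P := by
  obtain ⟨K, hKP, hK, hact⟩ := exists_compact hco hq hc
  have h1 : Function.support (cut P w q c) ⊆ K := by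
    rw [cut_eq]
    exact support_indicator_subset.trans hact
  have h2 : tsupport (cut P w q c) ⊆ K := closure_minimal h1 hK.isClosed
  exact ⟨hK.of_isClosed_subset (isClosed_tsupport _) h2, h2.trans hKP⟩

theorem cut_lipschitz {P : Set (V d)} (hP : IsOpen P) {w : V d → ℝ} {g : V d → V d}
    (hw : ∀ x ∈ P, HasGradientAt w (g x) x) (hgc : ContinuousOn g P) (hw0 : ∀ x ∈ P, w x ≤ 0)
    (hco : ∀ M : ℝ, ∃ K : Set (V d), K ⊆ P ∧ IsCompact K ∧ ∀ x ∈ P, -M ≤ w x → x ∈ K)
    {q c : ℝ} (hq : 0 < q) (hc : 0 < c) : ∃ L : NNReal, LipschitzWith L (cut P w q c) := by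
  obtain ⟨K, hKP, hK, hact⟩ := exists_compact hco hq hc
  obtain ⟨r, hr, hrP⟩ := hK.exists_cthickening_subset_open hP hKP
  have hK1 : IsCompact (cthickening r K) := hK.cthickening
  obtain ⟨B, hB⟩ := hK1.exists_bound_of_continuousOn (hgc.mono hrP)
  set B' : ℝ := max B 0 with hB'
  have hB'0 : 0 ≤ B' := le_max_right _ _
  have hL0 : 0 ≤ q * B' + 1 / r := by positivity
  have hrange : ∀ x, 0 ≤ cut P w q c x ∧ cut P w q c x ≤ 1 := by
    intro x
    refine ⟨cut_nonneg _ _ _ _ _, ?_⟩
    rw [cut_eq]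
    by_cases hx : x ∈ act P w q c
    · rw [indicator_of_mem hx]
      have h1 : Real.exp (q * w x) ≤ 1 := by
        rw [Real.exp_le_one_iff]
        exact mul_nonpos_of_nonneg_of_nonpos hq.le (hw0 x hx.1)
      linarith
    · rw [indicator_of_notMem hx]
      exact zero_le_one
  -- one sided estimate
  have key : ∀ x ∈ K, ∀ y, |cut P w q c x - cut P w q c y| ≤ (q * B' + 1 / r) * ‖x - y‖ := by
    intro x hx y
    rcases le_total ‖x - y‖ r with h | h
    · have hsub : closedBall x r ⊆ P :=
        (closedBall_subset_cthickening hx r).trans hrP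
      have hxP : x ∈ P := hKP hx
      have hyb : y ∈ closedBall x r := by
        rw [mem_closedBall, dist_eq_norm, norm_sub_rev]
        exact h
      have hyP : y ∈ P := hsub hyb
      have h1 := (convex_closedBall x r).norm_image_sub_le_of_norm_hasFDerivWithin_le
        (f := fun z => Real.exp (q * w z))
        (f' := fun z => Real.exp (q * w z) • (q • InnerProductSpace.toDual ℝ (V d) (g z)))
        (C := q * B') (x := y) (y := x)
        (fun z hz => by
          have h2 := ((hw z (hsub hz)).hasFDerivAt.const_mul q).exp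
          exact h2.hasFDerivWithinAt) (fun z hz => by
          rw [norm_smul, norm_smul, LinearIsometryEquiv.norm_map, Real.norm_eq_abs,
            Real.norm_eq_abs, Real.abs_exp, abs_of_pos hq]
          have h1 : Real.exp (q * w z) ≤ 1 := by
            rw [Real.exp_le_one_iff]
            exact mul_nonpos_of_nonneg_of_nonpos hq.le (hw0 z (hsub hz))
          have h2 : ‖g z‖ ≤ B' := (hB z (closedBall_subset_cthickening hx r hz)).trans
            (le_max_left _ _)
          calc Real.exp (q * w z) * (q * ‖g z‖) ≤ 1 * (q * B') := by gcongr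
            _ = q * B' := one_mul _)
        hyb (mem_closedBall_self hr.le)
      have e1 : ∀ z ∈ P, cut P w q c z = max (Real.exp (q * w z) - c) 0 := fun z hz => by
        rw [cut, indicator_of_mem hz]
      rw [e1 x hxP, e1 y hyP]
      have h3 := abs_max_sub_max_le_abs (Real.exp (q * w x) - c) (Real.exp (q * w y) - c) 0
      refine h3.trans ?_
      have e2 : Real.exp (q * w x) - c - (Real.exp (q * w y) - c) =
        Real.exp (q * w x) - Real.exp (q * w y) := by ring
      rw [e2, ← Real.norm_eq_abs]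
      refine h1.trans ?_
      have : 0 ≤ 1 / r * ‖x - y‖ := by positivity
      nlinarith
    · have h1 : |cut P w q c x - cut P w q c y| ≤ 1 := by
        rw [abs_le]
        constructor
        · linarith [(hrange x).1, (hrange y).2]
        · linarith [(hrange x).2, (hrange y).1]
      refine h1.trans ?_
      have h2 : 1 ≤ 1 / r * ‖x - y‖ := by
        rw [one_div, ← div_eq_inv_mul, le_div_iff₀ hr, one_mul]
        exact h
      have : 0 ≤ q * B' * ‖x - y‖ := by positivity
      nlinarith
  have hout : ∀ x, x ∉ K → cut P w q c x = 0 := by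
    intro x hx
    rw [cut_eq, indicator_of_notMem fun h => hx (hact h)]
  refine ⟨⟨q * B' + 1 / r, hL0⟩, LipschitzWith.of_dist_le_mul fun x y => ?_⟩
  rw [Real.dist_eq, dist_eq_norm]
  change |cut P w q c x - cut P w q c y| ≤ (q * B' + 1 / r) * ‖x - y‖
  by_cases hx : x ∈ K
  · exact key x hx y
  · by_cases hy : y ∈ K
    · rw [abs_sub_comm, norm_sub_rev]
      exact key y hy x
    · rw [hout x hx, hout y hy, sub_zero, abs_zero]
      positivity

theorem cut_fderiv {P : Set (V d)} (hP : IsOpen P) {w : V d → ℝ} {g : V d → V d}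
    (hw : ∀ x ∈ P, HasGradientAt w (g x) x) {q c : ℝ} (x : V d) :
    fderiv ℝ (cut P w q c) x = (act P w q c).indicator
      (fun x => (q * Real.exp (q * w x)) • innerSL ℝ (g x)) x := by
  have hwc : ContinuousOn w P := fun x hx => (hw x hx).hasFDerivAt.continuousAt.continuousWithinAt
  by_cases hx : x ∈ act P w q c
  · rw [indicator_of_mem hx]
    have h1 : cut P w q c =ᶠ[𝓝 x] fun z => Real.exp (q * w z) - c := by
      filter_upwards [(isOpen_act hP hwc q c).mem_nhds hx] with z hz
      rw [cut_eq, indicator_of_mem hz]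
    rw [h1.fderiv_eq]
    have h2 := (((hw x hx.1).hasFDerivAt.const_mul q).exp).sub_const c
    rw [h2.fderiv]
    ext e
    simp only [smul_apply, InnerProductSpace.toDual_apply_apply, smul_eq_mul, innerSL_apply_apply]
    ring
  · rw [indicator_of_notMem hx]
    apply IsLocalMin.fderiv_eq_zero
    refine Eventually.of_forall fun z => ?_
    have : cut P w q c x = 0 := by rw [cut_eq, indicator_of_notMem hx]
    rw [this]
    exact cut_nonneg _ _ _ _ _

theorem locLip_continuousOn {P : Set (V d)} (hP : IsOpen P) {g : V d → V d} (h : LocLip P g) :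
    ContinuousOn g P := by
  intro x hx
  obtain ⟨r, hr, hb⟩ := Metric.nhds_basis_closedBall.mem_iff.1 (hP.mem_nhds hx)
  obtain ⟨L, hL⟩ := h (closedBall x r) hb (isCompact_closedBall x r)
  exact (hL.continuousOn.continuousAt (closedBall_mem_nhds x hr)).continuousWithinAt

/-- the inequality for a fixed truncation level -/
theorem energy_s {p ε δ : ℝ} (hp : 1 < p) (hε : 0 < ε) {P : Set (V d)}
    (hP : IsOpen P) (hb : Bornology.IsBounded P) {v : V d → ℝ} {g : V d → V d}
    (h : Soln p ε δ P v g) {x₀ : V d} (hmax : ∀ x ∈ P, v x ≤ v x₀)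
    (hae : ∀ᵐ x, x ∈ P → DifferentiableAt ℝ (fun y => opS p ε (g y)) x ∧ DifferentiableAt ℝ g x)
    (hibp : ∀ (φ : V d → ℝ) (L : NNReal), LipschitzWith L φ → HasCompactSupport φ →
      tsupport φ ⊆ P →
      Integrable (fun x => φ x * trL d (fderiv ℝ (fun y => opS p ε (g y)) x)) ∧
      Integrable (fun x => fderiv ℝ φ x (opS p ε (g x))) ∧
      ∫ x, φ x * trL d (fderiv ℝ (fun y => opS p ε (g y)) x) =
        -∫ x, fderiv ℝ φ x (opS p ε (g x)))
    (hlam : ∀ (φ : V d → ℝ) (L : NNReal), LipschitzWith L φ → HasCompactSupport φ →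
      tsupport φ ⊆ P → lam p P * ∫ x, |φ x| ^ p ≤ ∫ x, ‖fderiv ℝ φ x‖ ^ p)
    {C : ℝ} (hC0 : 0 ≤ C) (hC : ∀ ξ : V d, -C ≤ opb p ε ξ) {s : ℝ} (hs : 0 < s) :
    lam p P * ∫ x, |cut P (fun x => v x - v x₀) 1 s x| ^ p ≤
      (∫ x in P, (-δ * v x) * cut P (fun x => v x - v x₀) p (s ^ p) x) +
        s ^ p * (C * volume.real P) := by
  have hp0 : 0 < p := by linarith
  set w : V d → ℝ := fun x => v x - v x₀ with hwdef
  have hw : ∀ x ∈ P, HasGradientAt w (g x) x := by
    intro x hx
    exact ((h.grad x hx).hasFDerivAt.sub_const (v x₀))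
  have hgc : ContinuousOn g P := locLip_continuousOn hP h.lip
  have hw0 : ∀ x ∈ P, w x ≤ 0 := fun x hx => by
    simp only [hwdef]
    linarith [hmax x hx]
  have hwc : ContinuousOn w P := fun x hx => (hw x hx).hasFDerivAt.continuousAt.continuousWithinAt
  have hvc : ContinuousOn v P := fun x hx =>
    (h.grad x hx).hasFDerivAt.continuousAt.continuousWithinAt
  have hco : ∀ M : ℝ, ∃ K : Set (V d), K ⊆ P ∧ IsCompact K ∧ ∀ x ∈ P, -M ≤ w x → x ∈ K := by
    intro M
    obtain ⟨K, h1, h2, h3⟩ := h.coer (M - v x₀)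
    refine ⟨K, h1, h2, fun x hx hM => h3 x hx ?_⟩
    simp only [hwdef] at hM
    linarith
  have hsp : 0 < s ^ p := Real.rpow_pos_of_pos hs p
  -- the two cutoffs have the same active set
  set A : Set (V d) := act P w 1 s with hA
  have hA2 : act P w p (s ^ p) = A := by
    ext x
    simp only [hA, act, Set.mem_ofPred_eq, one_mul]
    refine and_congr_right fun _ => ?_
    have e1 : Real.exp (p * w x) = (Real.exp (w x)) ^ p := by
      rw [← Real.exp_mul, mul_comm]
    rw [e1]
    exact Real.rpow_lt_rpow_iff hs.le (Real.exp_pos _).le hp0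
  have hAo : IsOpen A := isOpen_act hP hwc 1 s
  have hAm : MeasurableSet A := hAo.measurableSet
  have hAP : A ⊆ P := act_subset _ _ _ _
  obtain ⟨K, hKP, hK, hAK⟩ := exists_compact hco one_pos hs
  have hAint : ∀ f : V d → ℝ, ContinuousOn f P → IntegrableOn f A := fun f hf =>
    ((hf.mono hKP).integrableOn_compact hK).mono_set hAK
  have hbc : ContinuousOn (fun x => opb p ε (g x)) P :=
    (continuous_opb hp hε).comp_continuousOn hgc
  have hSc : ContinuousOn (fun x => opS p ε (g x)) P := by
    have : Continuous (opS p ε : V d → V d) := by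
      rw [continuous_iff_continuousAt]
      exact fun ξ => (hasFDerivAt_opS hε ξ).continuousAt
    exact this.comp_continuousOn hgc
  have hexpc : ContinuousOn (fun x => Real.exp (p * w x)) P := by fun_prop
  -- the eigenvalue inequality
  obtain ⟨L₁, hL₁⟩ := cut_lipschitz hP hw hgc hw0 hco one_pos hs
  obtain ⟨hcs₁, hts₁⟩ := cut_tsupport hco one_pos hs
  have E1 := hlam _ L₁ hL₁ hcs₁ hts₁
  have e1 : (fun x => ‖fderiv ℝ (cut P w 1 s) x‖ ^ p) =
      A.indicator (fun x => Real.exp (p * w x) * ‖g x‖ ^ p) := by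
    funext x
    rw [cut_fderiv hP hw]
    by_cases hx : x ∈ A
    · rw [indicator_of_mem hx, indicator_of_mem hx, norm_smul, innerSL_apply_norm, one_mul, one_mul,
        Real.norm_eq_abs, Real.abs_exp, Real.mul_rpow (Real.exp_pos _).le (norm_nonneg _),
        ← Real.exp_mul, mul_comm (w x) p]
    · rw [indicator_of_notMem hx, indicator_of_notMem hx, norm_zero, Real.zero_rpow hp0.ne']
  rw [e1, integral_indicator hAm] at E1
  -- integration by parts
  obtain ⟨L₂, hL₂⟩ := cut_lipschitz hP hw hgc hw0 hco hp0 hsp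
  obtain ⟨hcs₂, hts₂⟩ := cut_tsupport hco hp0 hsp
  obtain ⟨-, -, E2⟩ := hibp _ L₂ hL₂ hcs₂ hts₂
  have e2 : ∫ x, cut P w p (s ^ p) x * trL d (fderiv ℝ (fun y => opS p ε (g y)) x) =
      ∫ x in A, (Real.exp (p * w x) - s ^ p) * (δ * v x - opb p ε (g x)) := by
    rw [← integral_indicator hAm]
    refine integral_congr_ae ?_
    filter_upwards [hae] with x hx
    rw [cut_eq, hA2]
    by_cases hxA : x ∈ A
    · rw [indicator_of_mem hxA, indicator_of_mem hxA]
      congr 1
      have hxP := hAP hxA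
      have hD := (hx hxP).2.hasFDerivAt
      have h3 : HasFDerivAt (fun y => opS p ε (g y)) ((opDS p ε (g x)).comp (fderiv ℝ g x)) x :=
        (hasFDerivAt_opS hε (g x)).comp x hD
      rw [h3.fderiv, trL_comp_opDS]
      have h4 := h.eq x hxP _ hD
      linarith
    · rw [indicator_of_notMem hxA, indicator_of_notMem hxA, zero_mul]
  have e3 : ∫ x, fderiv ℝ (cut P w p (s ^ p)) x (opS p ε (g x)) =
      ∫ x in A, p * Real.exp (p * w x) * ⟪g x, opS p ε (g x)⟫_ℝ := by
    rw [← integral_indicator hAm]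
    refine integral_congr_ae (Eventually.of_forall fun x => ?_)
    simp only
    rw [cut_fderiv hP hw, hA2]
    by_cases hxA : x ∈ A
    · rw [indicator_of_mem hxA, indicator_of_mem hxA]
      simp
    · rw [indicator_of_notMem hxA, indicator_of_notMem hxA]
      simp
  rw [e2, e3] at E2
  -- rearrangement
  have i1 : IntegrableOn (fun x => (Real.exp (p * w x) - s ^ p) * (δ * v x - opb p ε (g x))) A :=
    hAint _ ((hexpc.sub continuousOn_const).mul ((continuousOn_const.mul hvc).sub hbc))
  have i2 : IntegrableOn (fun x => p * Real.exp (p * w x) * ⟪g x, opS p ε (g x)⟫_ℝ) A :=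
    hAint _ ((continuousOn_const.mul hexpc).mul (hgc.inner hSc))
  have i3 : IntegrableOn (fun x => (-δ * v x) * (Real.exp (p * w x) - s ^ p)) A :=
    hAint _ ((continuousOn_const.mul hvc).mul (hexpc.sub continuousOn_const))
  have i4 : IntegrableOn (fun x => opb p ε (g x) * s ^ p) A :=
    hAint _ (hbc.mul continuousOn_const)
  have E3 : ∫ x in A, Real.exp (p * w x) * ‖g x‖ ^ p =
      (∫ x in A, (-δ * v x) * (Real.exp (p * w x) - s ^ p)) - ∫ x in A, opb p ε (g x) * s ^ p := by
    have e4 : ∀ x, Real.exp (p * w x) * ‖g x‖ ^ p =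
        (((Real.exp (p * w x) - s ^ p) * (δ * v x - opb p ε (g x)) +
          p * Real.exp (p * w x) * ⟪g x, opS p ε (g x)⟫_ℝ) +
          (-δ * v x) * (Real.exp (p * w x) - s ^ p)) - opb p ε (g x) * s ^ p := by
      intro x
      have := opb_eq p ε (g x)
      rw [real_inner_comm] at this
      have h5 : ‖g x‖ ^ p = p * ⟪g x, opS p ε (g x)⟫_ℝ - opb p ε (g x) := by linarith
      rw [h5]
      ring
    have e5 : ∫ x in A, Real.exp (p * w x) * ‖g x‖ ^ p =
        ∫ x in A, ((((Real.exp (p * w x) - s ^ p) * (δ * v x - opb p ε (g x)) +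
          p * Real.exp (p * w x) * ⟪g x, opS p ε (g x)⟫_ℝ) +
          (-δ * v x) * (Real.exp (p * w x) - s ^ p)) - opb p ε (g x) * s ^ p) :=
      integral_congr_ae (Eventually.of_forall fun x => e4 x)
    have i12 : IntegrableOn (fun x => (Real.exp (p * w x) - s ^ p) * (δ * v x - opb p ε (g x)) +
        p * Real.exp (p * w x) * ⟪g x, opS p ε (g x)⟫_ℝ) A := i1.add i2
    have i123 : IntegrableOn (fun x => ((Real.exp (p * w x) - s ^ p) *
        (δ * v x - opb p ε (g x)) + p * Real.exp (p * w x) * ⟪g x, opS p ε (g x)⟫_ℝ) +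
          (-δ * v x) * (Real.exp (p * w x) - s ^ p)) A := i12.add i3
    rw [e5, integral_sub i123 i4, integral_add i12 i3, integral_add i1 i2, E2]
    ring
  have E4 : -(∫ x in A, opb p ε (g x) * s ^ p) ≤ s ^ p * (C * volume.real P) := by
    have hvolP : volume P ≠ ⊤ := hb.measure_lt_top.ne
    have hvolA : volume A ≠ ⊤ := ((measure_mono hAP).trans_lt hb.measure_lt_top).ne
    have h1 : ∫ x in A, (-C) * s ^ p ≤ ∫ x in A, opb p ε (g x) * s ^ p := by
      refine setIntegral_mono (integrableOn_const hvolA) i4 fun x => ?_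
      exact mul_le_mul_of_nonneg_right (hC _) hsp.le
    rw [setIntegral_const] at h1
    have h2 : volume.real A ≤ volume.real P := measureReal_mono hAP hvolP
    have h3 : volume.real A * (C * s ^ p) ≤ volume.real P * (C * s ^ p) :=
      mul_le_mul_of_nonneg_right h2 (by positivity)
    simp only [smul_eq_mul] at h1
    nlinarith
  have e6 : ∫ x in P, (-δ * v x) * cut P w p (s ^ p) x =
      ∫ x in A, (-δ * v x) * (Real.exp (p * w x) - s ^ p) := by
    rw [cut_eq, hA2]
    have e7 : (fun x => -δ * v x * A.indicator (fun x => Real.exp (p * w x) - s ^ p) x) =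
        A.indicator (fun x => (-δ * v x) * (Real.exp (p * w x) - s ^ p)) := by
      funext x
      by_cases hxA : x ∈ A
      · rw [indicator_of_mem hxA, indicator_of_mem hxA]
      · rw [indicator_of_notMem hxA, indicator_of_notMem hxA, mul_zero]
    rw [e7, setIntegral_indicator hAm, inter_eq_self_of_subset_right hAP]
  rw [e6]
  linarith

/-- energy inequality: the multiplier of the regularised solution is almost at least `lam p P` -/
theorem energy {p ε δ : ℝ} (hp : 1 < p) (hε : 0 < ε) (hδ : 0 < δ) {P : Set (V d)}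
    (hP : IsOpen P) (hb : Bornology.IsBounded P) {v : V d → ℝ} {g : V d → V d}
    (h : Soln p ε δ P v g) {x₀ : V d} (hx₀ : x₀ ∈ P) (hmax : ∀ x ∈ P, v x ≤ v x₀)
    -- to be supplied by other modules:
    (hae : ∀ᵐ x, x ∈ P → DifferentiableAt ℝ (fun y => opS p ε (g y)) x ∧ DifferentiableAt ℝ g x)
    (hibp : ∀ (φ : V d → ℝ) (L : NNReal), LipschitzWith L φ → HasCompactSupport φ →
      tsupport φ ⊆ P →
      Integrable (fun x => φ x * trL d (fderiv ℝ (fun y => opS p ε (g y)) x)) ∧
      Integrable (fun x => fderiv ℝ φ x (opS p ε (g x))) ∧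
      ∫ x, φ x * trL d (fderiv ℝ (fun y => opS p ε (g y)) x) =
        -∫ x, fderiv ℝ φ x (opS p ε (g x)))
    (hlam : ∀ (φ : V d → ℝ) (L : NNReal), LipschitzWith L φ → HasCompactSupport φ →
      tsupport φ ⊆ P → lam p P * ∫ x, |φ x| ^ p ≤ ∫ x, ‖fderiv ℝ φ x‖ ^ p)
    (hent : ∫ x in P, |v x - v x₀| * Real.exp (p * (v x - v x₀)) ≤
      (d / p) * ∫ x in P, Real.exp (p * (v x - v x₀))) :
    lam p P ≤ -δ * v x₀ + δ * d / p := by
  have hp0 : 0 < p := by linarith
  obtain ⟨C, hC0, hC⟩ := opb_bdd_below d hp hε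
  set w : V d → ℝ := fun x => v x - v x₀ with hwdef
  have hPm : MeasurableSet P := hP.measurableSet
  have hvolP : volume P < ⊤ := hb.measure_lt_top
  have : IsFiniteMeasure (volume.restrict P) := ⟨by simpa using hvolP⟩
  have hvc : ContinuousOn v P := fun x hx =>
    (h.grad x hx).hasFDerivAt.continuousAt.continuousWithinAt
  have hwc : ContinuousOn w P := hvc.sub continuousOn_const
  have hw0 : ∀ x ∈ P, w x ≤ 0 := fun x hx => by
    simp only [hwdef]
    linarith [hmax x hx]
  have hexpc : ContinuousOn (fun x => Real.exp (p * w x)) P := by fun_prop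
  have hexp1 : ∀ x ∈ P, Real.exp (p * w x) ≤ 1 := fun x hx => by
    rw [Real.exp_le_one_iff]
    exact mul_nonpos_of_nonneg_of_nonpos hp0.le (hw0 x hx)
  -- `|w| e^{p w} ≤ 1 / p`
  have hwexp : ∀ x ∈ P, |w x| * Real.exp (p * w x) ≤ 1 / p := by
    intro x hx
    rw [abs_of_nonpos (hw0 x hx), le_div_iff₀ hp0]
    have h1 := Real.add_one_le_exp (-(p * w x))
    have h2 := Real.exp_pos (p * w x)
    have h3 : Real.exp (-(p * w x)) * Real.exp (p * w x) = 1 := by
      rw [← Real.exp_add]; simp
    nlinarith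
  have ie : IntegrableOn (fun x => Real.exp (p * w x)) P := by
    refine Integrable.of_bound (hexpc.aestronglyMeasurable hPm) 1 ?_
    refine ae_restrict_of_forall_mem hPm fun x hx => ?_
    rw [Real.norm_eq_abs, Real.abs_exp]
    exact hexp1 x hx
  have iw : IntegrableOn (fun x => |w x| * Real.exp (p * w x)) P := by
    refine Integrable.of_bound ((hwc.abs.mul hexpc).aestronglyMeasurable hPm) (1 / p) ?_
    refine ae_restrict_of_forall_mem hPm fun x hx => ?_
    rw [Real.norm_eq_abs, abs_mul, abs_abs, Real.abs_exp]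
    exact hwexp x hx
  -- sequences of levels
  set s : ℕ → ℝ := fun n => 1 / ((n : ℝ) + 1) with hsdef
  have hs0 : ∀ n, 0 < s n := fun n => by simp only [hsdef]; positivity
  have hslim : Tendsto s atTop (𝓝 0) := tendsto_one_div_add_atTop_nhds_zero_nat
  have hsplim : Tendsto (fun n => s n ^ p) atTop (𝓝 0) := by
    have := hslim.rpow_const (p := p) (Or.inr hp0.le)
    rwa [Real.zero_rpow hp0.ne'] at this
  have hineq : ∀ n, lam p P * ∫ x in P, |cut P w 1 (s n) x| ^ p ≤
      (∫ x in P, (-δ * v x) * cut P w p (s n ^ p) x) + s n ^ p * (C * volume.real P) := by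
    intro n
    have h1 := energy_s hp hε hP hb h hmax hae hibp hlam hC0 hC (hs0 n)
    have h2 : ∫ x in P, |cut P w 1 (s n) x| ^ p = ∫ x, |cut P w 1 (s n) x| ^ p := by
      refine setIntegral_eq_integral_of_forall_compl_eq_zero fun x hx => ?_
      rw [cut, indicator_of_notMem hx, abs_zero, Real.zero_rpow hp0.ne']
    rw [h2]
    exact h1
  have cutval : ∀ q c, ∀ x ∈ P, cut P w q c x = max (Real.exp (q * w x) - c) 0 :=
    fun q c x hx => by rw [cut, indicator_of_mem hx]
  have cutm : ∀ q c, ContinuousOn (cut P w q c) P := by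
    intro q c
    have : ContinuousOn (fun x => max (Real.exp (q * w x) - c) 0) P := by fun_prop
    exact this.congr fun x hx => cutval q c x hx
  have lim1 : Tendsto (fun n => ∫ x in P, |cut P w 1 (s n) x| ^ p) atTop
      (𝓝 (∫ x in P, Real.exp (p * w x))) := by
    refine tendsto_integral_of_dominated_convergence (fun _ => (1 : ℝ)) ?_ ?_ ?_ ?_
    · intro n
      have : ContinuousOn (fun x => |cut P w 1 (s n) x| ^ p) P :=
        ((cutm 1 (s n)).abs).rpow_const fun x _ => Or.inr hp0.le
      exact this.aestronglyMeasurable hPm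
    · exact integrableOn_const hvolP.ne
    · intro n
      refine ae_restrict_of_forall_mem hPm fun x hx => ?_
      rw [Real.norm_of_nonneg (by positivity), cutval _ _ x hx]
      refine Real.rpow_le_one (abs_nonneg _) ?_ hp0.le
      rw [abs_of_nonneg (le_max_right _ _)]
      refine max_le ?_ zero_le_one
      have : Real.exp (1 * w x) ≤ 1 := by
        rw [one_mul, Real.exp_le_one_iff]
        exact hw0 x hx
      linarith [hs0 n]
    · refine ae_restrict_of_forall_mem hPm fun x hx => ?_
      have h1 : Tendsto (fun n => cut P w 1 (s n) x) atTop (𝓝 (Real.exp (w x))) := by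
        have h2 : Tendsto (fun n => max (Real.exp (1 * w x) - s n) 0) atTop
            (𝓝 (max (Real.exp (1 * w x) - 0) 0)) :=
          (tendsto_const_nhds.sub hslim).max tendsto_const_nhds
        rw [sub_zero, one_mul, max_eq_left (Real.exp_pos _).le] at h2
        refine h2.congr fun n => ?_
        rw [cutval _ _ x hx, one_mul]
      have h3 := (h1.abs).rpow_const (p := p) (Or.inr hp0.le)
      rw [Real.abs_exp, ← Real.exp_mul, mul_comm (w x) p] at h3
      exact h3
  have lim2 : Tendsto (fun n => ∫ x in P, (-δ * v x) * cut P w p (s n ^ p) x) atTop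
      (𝓝 (∫ x in P, (-δ * v x) * Real.exp (p * w x))) := by
    refine tendsto_integral_of_dominated_convergence (fun _ => δ * (1 / p + |v x₀|)) ?_ ?_ ?_ ?_
    · intro n
      exact ((continuousOn_const.mul hvc).mul (cutm p _)).aestronglyMeasurable hPm
    · exact integrableOn_const hvolP.ne
    · intro n
      refine ae_restrict_of_forall_mem hPm fun x hx => ?_
      rw [norm_mul, norm_mul, norm_neg, Real.norm_of_nonneg hδ.le, Real.norm_eq_abs, mul_assoc]
      refine mul_le_mul_of_nonneg_left ?_ hδ.le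
      rw [Real.norm_of_nonneg (cut_nonneg _ _ _ _ _), cutval _ _ x hx]
      have h1 : max (Real.exp (p * w x) - s n ^ p) 0 ≤ Real.exp (p * w x) := by
        refine max_le ?_ (Real.exp_pos _).le
        have := Real.rpow_pos_of_pos (hs0 n) p
        linarith
      have h2 : |v x| ≤ |w x| + |v x₀| := by
        have := abs_add_le (w x) (v x₀)
        simp only [hwdef] at this ⊢
        rwa [sub_add_cancel] at this
      calc |v x| * max (Real.exp (p * w x) - s n ^ p) 0
          ≤ (|w x| + |v x₀|) * Real.exp (p * w x) := by gcongr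
        _ = |w x| * Real.exp (p * w x) + |v x₀| * Real.exp (p * w x) := by ring
        _ ≤ 1 / p + |v x₀| * 1 := by
            gcongr
            · exact hwexp x hx
            · exact hexp1 x hx
        _ = 1 / p + |v x₀| := by ring
    · refine ae_restrict_of_forall_mem hPm fun x hx => ?_
      refine Tendsto.const_mul _ ?_
      have h2 : Tendsto (fun n => max (Real.exp (p * w x) - s n ^ p) 0) atTop
          (𝓝 (max (Real.exp (p * w x) - 0) 0)) :=
        (tendsto_const_nhds.sub hsplim).max tendsto_const_nhds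
      rw [sub_zero, max_eq_left (Real.exp_pos _).le] at h2
      refine h2.congr fun n => ?_
      rw [cutval _ _ x hx]
  have lim3 : Tendsto (fun n => s n ^ p * (C * volume.real P)) atTop (𝓝 0) := by
    have := hsplim.mul_const (C * volume.real P)
    rwa [zero_mul] at this
  have hfin := le_of_tendsto_of_tendsto' (lim1.const_mul (lam p P)) (lim2.add lim3) hineq
  rw [add_zero] at hfin
  -- conclusion
  have e1 : ∫ x in P, (-δ * v x) * Real.exp (p * w x) =
      (-δ * v x₀) * (∫ x in P, Real.exp (p * w x)) +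
        δ * ∫ x in P, |w x| * Real.exp (p * w x) := by
    rw [← integral_const_mul, ← integral_const_mul, ← integral_add (ie.const_mul _) (iw.const_mul _)]
    refine setIntegral_congr_fun hPm fun x hx => ?_
    rw [abs_of_nonpos (hw0 x hx)]
    simp only [hwdef]
    ring
  rw [e1] at hfin
  have hent' : ∫ x in P, |w x| * Real.exp (p * w x) ≤ (d / p) * ∫ x in P, Real.exp (p * w x) :=
    hent
  have hI : 0 < ∫ x in P, Real.exp (p * w x) := by
    rw [setIntegral_pos_iff_support_of_nonneg_ae
      (ae_of_all _ fun x => (Real.exp_pos _).le) ie]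
    have h1 : Function.support (fun x => Real.exp (p * w x)) ∩ P = P := by
      refine inter_eq_right.2 fun x _ => ?_
      exact (Real.exp_pos _).ne'
    rw [h1]
    exact hP.measure_pos volume ⟨x₀, hx₀⟩
  have h5 : δ * ∫ x in P, |w x| * Real.exp (p * w x) ≤
      δ * ((d / p) * ∫ x in P, Real.exp (p * w x)) := mul_le_mul_of_nonneg_left hent' hδ.le
  have h6 : lam p P * (∫ x in P, Real.exp (p * w x)) ≤
      (-δ * v x₀ + δ * d / p) * ∫ x in P, Real.exp (p * w x) := by
    calc lam p P * (∫ x in P, Real.exp (p * w x)) ≤ _ := hfin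
      _ ≤ -δ * v x₀ * (∫ x in P, Real.exp (p * w x)) +
          δ * ((d / p) * ∫ x in P, Real.exp (p * w x)) := by linarith
      _ = _ := by ring
  exact le_of_mul_le_mul_right h6 hI

end Pool.Agent.TH925.J160
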