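import Mathlib
import Pool.Agent.TH925.J56

set_option autoImplicit false

open MeasureTheory Set Metric Filter Topology

namespace Pool.Agent.TH925.J54

open Pool.Agent.TH925.J56

/-- long box with unit height -/
def box (d : ℕ) (L : ℝ) : Set (EuclideanSpace ℝ (Fin (d + 1))) :=
  {x | 0 < x 0 ∧ x 0 < 1 ∧ ∀ i : Fin d, |x i.succ| < L}

theorem box_open {d : ℕ} {L : ℝ} : IsOpen (box d L) := by
  have h0 : Continuous fun x : EuclideanSpace ℝ (Fin (d + 1)) => x 0 := by fun_prop
  have hi : ∀ i : Fin d, Continuous fun x : EuclideanSpace ℝ (Fin (d + 1)) => |x i.succ| := by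
    intro i; fun_prop
  have : box d L = {x | 0 < x 0} ∩ ({x | x 0 < 1} ∩ ⋂ i : Fin d, {x | |x i.succ| < L}) := by
    ext x; simp [box]
  rw [this]
  exact (isOpen_lt continuous_const h0).inter ((isOpen_lt h0 continuous_const).inter
    (isOpen_iInter_of_finite fun i => isOpen_lt (hi i) continuous_const))

theorem box_convex {d : ℕ} {L : ℝ} : Convex ℝ (box d L) := by
  intro x hx y hy a b ha hb hab
  obtain ⟨x1, x2, x3⟩ := hx
  obtain ⟨y1, y2, y3⟩ := hy
  refine ⟨?_, ?_, fun i => ?_⟩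
  · show 0 < a * x 0 + b * y 0
    rcases ha.eq_or_lt with rfl | ha
    · have : b = 1 := by linarith
      subst this; linarith
    · have := mul_pos ha x1
      have := mul_nonneg hb y1.le
      linarith
  · show a * x 0 + b * y 0 < 1
    rcases ha.eq_or_lt with rfl | ha
    · have : b = 1 := by linarith
      subst this; linarith
    · nlinarith
  · show |a * x i.succ + b * y i.succ| < L
    have h1 := abs_add_le (a * x i.succ) (b * y i.succ)
    rw [abs_mul, abs_mul, abs_of_nonneg ha, abs_of_nonneg hb] at h1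
    have h3 := x3 i
    have h4 := y3 i
    rcases ha.eq_or_lt with rfl | ha
    · have : b = 1 := by linarith
      subst this; linarith
    · have h5 : a * |x i.succ| < a * L := mul_lt_mul_of_pos_left h3 ha
      have h6 : b * |y i.succ| ≤ b * L := mul_le_mul_of_nonneg_left h4.le hb
      have h7 : a * L + b * L = L := by rw [← add_mul, hab, one_mul]
      linarith

theorem box_bounded {d : ℕ} {L : ℝ} : Bornology.IsBounded (box d L) := by
  rw [isBounded_iff_forall_norm_le]
  refine ⟨Real.sqrt (1 + d * L ^ 2), fun x hx => ?_⟩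
  obtain ⟨x1, x2, x3⟩ := hx
  rw [EuclideanSpace.norm_eq]
  apply Real.sqrt_le_sqrt
  rw [Fin.sum_univ_succ]
  refine add_le_add ?_ ?_
  · rw [Real.norm_eq_abs, sq_abs]; nlinarith
  · refine (Finset.sum_le_sum (g := fun _ => L ^ 2) fun i _ => ?_).trans ?_
    · rw [Real.norm_eq_abs]
      exact pow_le_pow_left₀ (abs_nonneg _) (x3 i).le 2
    · simp

/-- the map (s, y) ↦ s e₀ + y -/
noncomputable def cn (d : ℕ) : (ℝ × EuclideanSpace ℝ (Fin d)) ≃ᵐ EuclideanSpace ℝ (Fin (d + 1)) :=
  ((MeasurableEquiv.refl ℝ).prodCongr (MeasurableEquiv.toLp 2 (Fin d → ℝ)).symm).trans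
    ((MeasurableEquiv.piFinSuccAbove (fun _ : Fin (d + 1) => ℝ) 0).symm.trans
      (MeasurableEquiv.toLp 2 (Fin (d + 1) → ℝ)))

theorem cn_zero {d : ℕ} (q : ℝ × EuclideanSpace ℝ (Fin d)) : cn d q 0 = q.1 := rfl

theorem cn_succ {d : ℕ} (q : ℝ × EuclideanSpace ℝ (Fin d)) (i : Fin d) : cn d q i.succ = q.2 i := by
  show Fin.insertNth (α := fun _ => ℝ) 0 q.1 (WithLp.ofLp q.2) i.succ = q.2 i
  rw [Fin.insertNth_zero']
  rfl

theorem cn_mp (d : ℕ) : MeasurePreserving (cn d) volume volume := by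
  have h1 : MeasurePreserving (MeasurableEquiv.piFinSuccAbove (fun _ : Fin (d + 1) => ℝ) 0).symm
      volume volume := (volume_preserving_piFinSuccAbove (fun _ : Fin (d + 1) => ℝ) 0).symm _
  have h2 : MeasurePreserving (MeasurableEquiv.toLp 2 (Fin (d + 1) → ℝ)) volume volume :=
    (EuclideanSpace.volume_preserving_symm_measurableEquiv_toLp (Fin (d + 1))).symm _
  have h3 : MeasurePreserving (Prod.map (id : ℝ → ℝ) (MeasurableEquiv.toLp 2 (Fin d → ℝ)).symm)
      (volume.prod volume) (volume.prod volume) :=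
    (MeasurePreserving.id volume).prod
      (EuclideanSpace.volume_preserving_symm_measurableEquiv_toLp (Fin d))
  exact h2.comp (h1.comp h3)

noncomputable def cnL (d : ℕ) : (ℝ × EuclideanSpace ℝ (Fin d)) →L[ℝ] EuclideanSpace ℝ (Fin (d + 1)) :=
  LinearMap.toContinuousLinearMap
    { toFun := cn d
      map_add' := by
        intro a b
        ext i
        refine Fin.cases ?_ (fun j => ?_) i
        · simp [cn_zero]
        · simp [cn_succ]
      map_smul' := by
        intro c b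
        ext i
        refine Fin.cases ?_ (fun j => ?_) i
        · simp [cn_zero]
        · simp [cn_succ] }

theorem cnL_apply {d : ℕ} (q : ℝ × EuclideanSpace ℝ (Fin d)) : cnL d q = cn d q := rfl

/-- first coordinate -/
noncomputable def hdL (d : ℕ) : EuclideanSpace ℝ (Fin (d + 1)) →L[ℝ] ℝ :=
  LinearMap.toContinuousLinearMap
    { toFun := fun x => x 0
      map_add' := fun _ _ => rfl
      map_smul' := fun _ _ => rfl }

/-- the other coordinates -/
noncomputable def tlL (d : ℕ) : EuclideanSpace ℝ (Fin (d + 1)) →L[ℝ] EuclideanSpace ℝ (Fin d) :=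
  LinearMap.toContinuousLinearMap
    { toFun := fun x => WithLp.toLp 2 (fun i => x i.succ)
      map_add' := fun _ _ => rfl
      map_smul' := fun _ _ => rfl }

theorem hdL_cn {d : ℕ} (q : ℝ × EuclideanSpace ℝ (Fin d)) : hdL d (cn d q) = q.1 := rfl

theorem tlL_cn {d : ℕ} (q : ℝ × EuclideanSpace ℝ (Fin d)) : tlL d (cn d q) = q.2 := by
  ext i
  exact cn_succ q i

theorem norm_cn_sq {d : ℕ} (q : ℝ × EuclideanSpace ℝ (Fin d)) :
    ‖cn d q‖ ^ 2 = q.1 ^ 2 + ‖q.2‖ ^ 2 := by
  rw [EuclideanSpace.norm_sq_eq, Fin.sum_univ_succ, EuclideanSpace.norm_sq_eq, cn_zero,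
    Real.norm_eq_abs, sq_abs]
  simp only [cn_succ]

theorem norm_hdL {d : ℕ} : ‖hdL d‖ ≤ 1 := by
  refine ContinuousLinearMap.opNorm_le_bound _ zero_le_one fun x => ?_
  rw [one_mul]
  exact PiLp.norm_apply_le x 0

theorem norm_tlL {d : ℕ} : ‖tlL d‖ ≤ 1 := by
  refine ContinuousLinearMap.opNorm_le_bound _ zero_le_one fun x => ?_
  rw [one_mul]
  obtain ⟨q, rfl⟩ := (cn d).surjective x
  rw [tlL_cn]
  have := norm_cn_sq q
  exact abs_le_of_sq_le_sq' (by nlinarith [sq_nonneg q.1]) (norm_nonneg _) |>.2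

theorem norm_inl {d : ℕ} :
    ‖(cnL d).comp (ContinuousLinearMap.inl ℝ ℝ (EuclideanSpace ℝ (Fin d)))‖ ≤ 1 := by
  refine ContinuousLinearMap.opNorm_le_bound _ zero_le_one fun x => ?_
  rw [one_mul]
  have h := norm_cn_sq (d := d) (x, 0)
  simp only [norm_zero, ne_eq, OfNat.ofNat_ne_zero, not_false_eq_true, zero_pow, add_zero] at h
  have h2 : ‖cn d (x, 0)‖ ^ 2 ≤ ‖x‖ ^ 2 := by rw [h, Real.norm_eq_abs, sq_abs]
  exact abs_le_of_sq_le_sq' h2 (norm_nonneg _) |>.2

theorem box_facts {d : ℕ} {L : ℝ} (hL : 0 < L) :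
    IsOpen (box d L) ∧ Convex ℝ (box d L) ∧ 0 < volume (box d L) ∧ volume (box d L) < ⊤ := by
  refine ⟨box_open, box_convex, ?_, box_bounded.measure_lt_top⟩
  refine box_open.measure_pos volume ⟨cn d (1 / 2, 0), ?_⟩
  refine ⟨?_, ?_, fun i => ?_⟩
  · rw [cn_zero]; norm_num
  · rw [cn_zero]; norm_num
  · rw [cn_succ]; simpa using hL

theorem lamSet_nonempty {E : Type*} [NormedAddCommGroup E] [InnerProductSpace ℝ E]
    [FiniteDimensional ℝ E] [MeasureSpace E] (p : ℝ) {Ω : Set E} (hΩ : IsOpen Ω)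
    (hne : Ω.Nonempty) : (lamSet p Ω).Nonempty := by
  obtain ⟨x0, hx0⟩ := hne
  obtain ⟨r, hr, hball⟩ := Metric.isOpen_iff.1 hΩ x0 hx0
  let ρ : ContDiffBump x0 := ⟨r / 4, r / 2, by positivity, by linarith⟩
  refine ⟨_, ρ, ρ.contDiff, ρ.hasCompactSupport, ?_, ?_, rfl⟩
  · rw [ρ.tsupport_eq]
    refine (closedBall_subset_ball ?_).trans hball
    show r / 2 < r
    linarith
  · intro h
    have := congrFun h x0
    have h1 : ρ x0 = 1 := ρ.one_of_mem_closedBall (by simp [ρ]; positivity)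
    rw [h1] at this
    simp at this

theorem lamSet_bdd {E : Type*} [NormedAddCommGroup E] [InnerProductSpace ℝ E]
    [MeasureSpace E] (p : ℝ) (Ω : Set E) : BddBelow (lamSet p Ω) := by
  refine ⟨0, ?_⟩
  rintro r ⟨u, -, -, -, -, rfl⟩
  exact div_nonneg (integral_nonneg fun x => by positivity)
    (integral_nonneg fun x => by positivity)

theorem integral_pos_of_ne_zero {E : Type*} [NormedAddCommGroup E] [InnerProductSpace ℝ E]
    [MeasureSpace E] [BorelSpace E] [IsFiniteMeasureOnCompacts (volume : Measure E)]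
    [(volume : Measure E).IsOpenPosMeasure] {u : E → ℝ} (hu : Continuous u)
    (hc : HasCompactSupport u) (h0 : u ≠ 0) {p : ℝ} (hp : 0 < p) : 0 < ∫ x, |u x| ^ p := by
  obtain ⟨x, hx⟩ := Function.ne_iff.1 h0
  refine Continuous.integral_pos_of_hasCompactSupport_nonneg_nonzero (x := x)
    (hu.abs.rpow_const fun x => Or.inr hp.le) ?_ (fun x => by positivity) ?_
  · exact hc.comp_left (g := fun t : ℝ => |t| ^ p) (by simp [Real.zero_rpow hp.ne'])
  · simp only [Pi.zero_apply] at hx
    have : 0 < |u x| := abs_pos.2 hx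
    positivity

theorem box_lower {d : ℕ} {p : ℝ} (hp : 1 < p) {L : ℝ} (hL : 0 < L) :
    lam p (Ioo (0 : ℝ) 1) ≤ lam p (box d L) := by
  have hp0 : 0 < p := zero_lt_one.trans hp
  refine le_csInf (lamSet_nonempty p box_open ?_) ?_
  · exact nonempty_of_measure_ne_zero (box_facts hL).2.2.1.ne'
  rintro _ ⟨u, hu, hc, hs, h0, rfl⟩
  have hpos := integral_pos_of_ne_zero hu.continuous hc h0 hp0
  rw [le_div_iff₀ hpos]
  -- derivatives of slices
  have hslice : ∀ y : EuclideanSpace ℝ (Fin d), ContDiff ℝ 1 (fun s : ℝ => u (cn d (s, y))) := by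
    intro y
    exact hu.comp ((cnL d).contDiff.comp (contDiff_id.prodMk contDiff_const))
  have hder : ∀ (y : EuclideanSpace ℝ (Fin d)) (s : ℝ),
      ‖fderiv ℝ (fun s : ℝ => u (cn d (s, y))) s‖ ≤ ‖fderiv ℝ u (cn d (s, y))‖ := by
    intro y s
    have h1 : HasFDerivAt u (fderiv ℝ u (cn d (s, y))) (cn d (s, y)) :=
      (hu.differentiable one_ne_zero _).hasFDerivAt
    have h2 : HasFDerivAt (fun s : ℝ => cn d (s, y))
        ((cnL d).comp (ContinuousLinearMap.inl ℝ ℝ (EuclideanSpace ℝ (Fin d)))) s := by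
      have h3 : HasFDerivAt (fun s : ℝ => (s, y))
          (ContinuousLinearMap.inl ℝ ℝ (EuclideanSpace ℝ (Fin d))) s := hasFDerivAt_prodMk_left s y
      exact (cnL d).hasFDerivAt.comp s h3
    have h4 := (h1.comp s h2).fderiv
    have h5 : fderiv ℝ (fun s : ℝ => u (cn d (s, y))) s = (fderiv ℝ u (cn d (s, y))).comp
        ((cnL d).comp (ContinuousLinearMap.inl ℝ ℝ (EuclideanSpace ℝ (Fin d)))) := h4
    rw [h5]
    refine (ContinuousLinearMap.opNorm_comp_le _ _).trans ?_
    exact mul_le_of_le_one_right (norm_nonneg _) norm_inl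
  have hsupp : ∀ y : EuclideanSpace ℝ (Fin d),
      tsupport (fun s : ℝ => u (cn d (s, y))) ⊆ {s | cn d (s, y) ∈ tsupport u} := by
    intro y
    refine closure_minimal ?_ ?_
    · intro s hs
      exact subset_tsupport u hs
    · have : Continuous fun s : ℝ => cn d (s, y) := by
        have h3 : Continuous fun s : ℝ => cnL d (s, y) := by fun_prop
        exact h3
      exact (isClosed_tsupport u).preimage this
  have hsub : ∀ y : EuclideanSpace ℝ (Fin d),
      tsupport (fun s : ℝ => u (cn d (s, y))) ⊆ Ioo (0:ℝ) 1 := by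
    intro y s hs'
    have h1 := hs (hsupp y hs')
    exact ⟨h1.1, h1.2.1⟩
  have hcomp : ∀ y : EuclideanSpace ℝ (Fin d),
      HasCompactSupport (fun s : ℝ => u (cn d (s, y))) := by
    intro y
    exact isCompact_Icc.of_isClosed_subset (isClosed_tsupport _)
      ((hsub y).trans Ioo_subset_Icc_self)
  -- the two integrals
  have hcU : Continuous fun x => |u x| ^ p := hu.continuous.abs.rpow_const fun x => Or.inr hp0.le
  have hfc : Continuous (fderiv ℝ u) := hu.continuous_fderiv one_ne_zero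
  have hcD : Continuous fun x => ‖fderiv ℝ u x‖ ^ p := hfc.norm.rpow_const fun x => Or.inr hp0.le
  have hiU : Integrable fun x => |u x| ^ p :=
    hcU.integrable_of_hasCompactSupport
      (hc.comp_left (g := fun t : ℝ => |t| ^ p) (by simp [Real.zero_rpow hp0.ne']))
  have hiD : Integrable fun x => ‖fderiv ℝ u x‖ ^ p :=
    hcD.integrable_of_hasCompactSupport
      ((hc.fderiv ℝ).comp_left (g := fun t => ‖t‖ ^ p) (by simp [Real.zero_rpow hp0.ne']))
  have e1 : ∫ x, |u x| ^ p = ∫ y, ∫ s, |u (cn d (s, y))| ^ p := by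
    rw [← (cn_mp d).integral_comp' (g := fun x => |u x| ^ p)]
    exact integral_prod_symm _ (((cn_mp d).integrable_comp_emb (cn d).measurableEmbedding).2 hiU)
  have e2 : ∫ x, ‖fderiv ℝ u x‖ ^ p = ∫ y, ∫ s, ‖fderiv ℝ u (cn d (s, y))‖ ^ p := by
    rw [← (cn_mp d).integral_comp' (g := fun x => ‖fderiv ℝ u x‖ ^ p)]
    exact integral_prod_symm _ (((cn_mp d).integrable_comp_emb (cn d).measurableEmbedding).2 hiD)
  have i1 : Integrable (fun y => ∫ s, |u (cn d (s, y))| ^ p) :=
    (((cn_mp d).integrable_comp_emb (cn d).measurableEmbedding).2 hiU).integral_prod_right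
  have i2 : Integrable (fun y => ∫ s, ‖fderiv ℝ u (cn d (s, y))‖ ^ p) :=
    (((cn_mp d).integrable_comp_emb (cn d).measurableEmbedding).2 hiD).integral_prod_right
  rw [e1, e2, ← integral_const_mul]
  refine integral_mono (i1.const_mul _) i2 fun y => ?_
  have h1 := lam_mul_le (p := p) (hslice y) (hcomp y) (hsub y)
  refine h1.trans ?_
  have hcs : Continuous fun s : ℝ => cn d (s, y) := by
    have h3 : Continuous fun s : ℝ => cnL d (s, y) := by fun_prop
    exact h3
  refine integral_mono_of_nonneg (Eventually.of_forall fun s => by positivity) ?_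
    (Eventually.of_forall fun s => Real.rpow_le_rpow (norm_nonneg _) (hder y s) hp0.le)
  refine (hcD.comp hcs).integrable_of_hasCompactSupport ?_
  refine (isCompact_Icc (a := (0:ℝ)) (b := 1)).of_isClosed_subset (isClosed_tsupport _) ?_
  refine closure_minimal ?_ isClosed_Icc
  intro s hs'
  have h2 : cn d (s, y) ∈ tsupport u := by
    by_contra hcon
    apply hs'
    have h3 : fderiv ℝ u (cn d (s, y)) = 0 := by
      by_contra hne
      exact hcon (support_fderiv_subset ℝ hne)
    simp only [Function.comp_apply, h3, norm_zero]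
    exact Real.zero_rpow hp0.ne'
  have h3 := hs h2
  exact ⟨h3.1.le, h3.2.1.le⟩

theorem box_upper {d : ℕ} {q : ℝ} (hq : 1 < q) {ε : ℝ} (hε : 0 < ε) :
    ∃ L : ℝ, 0 < L ∧ lam q (box d L) ≤ lam q (Ioo (0 : ℝ) 1) + ε := by
  have hq0 : 0 < q := zero_lt_one.trans hq
  obtain ⟨r, ⟨u1, hu1, hc1, hs1, h01, rfl⟩, hr⟩ := exists_lt_of_csInf_lt
    (lamSet_nonempty q (Ω := Ioo (0:ℝ) 1) isOpen_Ioo ⟨1 / 2, by norm_num, by norm_num⟩)
    (show sInf (lamSet q (Ioo (0:ℝ) 1)) < lam q (Ioo (0:ℝ) 1) + ε / 2 by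
      show lam q (Ioo (0:ℝ) 1) < _
      linarith)
  set A := ∫ x, ‖fderiv ℝ u1 x‖ ^ q with hA
  set B := ∫ x, |u1 x| ^ q with hB
  have hBpos : 0 < B := integral_pos_of_ne_zero hu1.continuous hc1 h01 hq0
  -- the cut-off function
  let ρ : ContDiffBump (0 : EuclideanSpace ℝ (Fin d)) :=
    ⟨1 / 4, 1 / 2, by norm_num, by norm_num⟩
  have hρ : ContDiff ℝ 1 ρ := ρ.contDiff
  have hρc : HasCompactSupport ρ := ρ.hasCompactSupport
  have hρ1 : ρ 0 = 1 := ρ.one_of_mem_closedBall (by simp [ρ])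
  have hρ0 : (ρ : EuclideanSpace ℝ (Fin d) → ℝ) ≠ 0 := by
    intro h
    have := congrFun h 0
    rw [hρ1] at this
    simp at this
  set P := ∫ y, |ρ y| ^ q with hP
  have hPpos : 0 < P := integral_pos_of_ne_zero hρ.continuous hρc hρ0 hq0
  -- the majorant
  have hDu : Continuous (fderiv ℝ u1) := hu1.continuous_fderiv one_ne_zero
  have hDρ : Continuous (fderiv ℝ ρ) := hρ.continuous_fderiv one_ne_zero
  set H : ℝ → ℝ × EuclideanSpace ℝ (Fin d) → ℝ := fun δ z =>
    (|u1 z.1| * (‖fderiv ℝ ρ z.2‖ * δ) + |ρ z.2| * ‖fderiv ℝ u1 z.1‖) ^ q with hH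
  have hHc : ∀ δ, Continuous (H δ) := by
    intro δ
    refine Continuous.rpow_const ?_ fun x => Or.inr hq0.le
    exact (((hu1.continuous.comp continuous_fst).abs).mul
      (((hDρ.comp continuous_snd).norm).mul continuous_const)).add
      (((hρ.continuous.comp continuous_snd).abs).mul ((hDu.comp continuous_fst).norm))
  have hKs : IsCompact (tsupport u1 ×ˢ tsupport ρ) := hc1.isCompact.prod hρc.isCompact
  have hHs : ∀ δ z, z ∉ tsupport u1 ×ˢ tsupport ρ → H δ z = 0 := by
    intro δ z hz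
    rw [mem_prod, not_and_or] at hz
    have h0 : |u1 z.1| * (‖fderiv ℝ ρ z.2‖ * δ) + |ρ z.2| * ‖fderiv ℝ u1 z.1‖ = 0 := by
      rcases hz with hz | hz
      · have e1 : u1 z.1 = 0 := image_eq_zero_of_notMem_tsupport hz
        have e2 : fderiv ℝ u1 z.1 = 0 := by
          by_contra hne; exact hz (support_fderiv_subset ℝ hne)
        rw [e1, e2]; simp
      · have e1 : ρ z.2 = 0 := image_eq_zero_of_notMem_tsupport hz
        have e2 : fderiv ℝ ρ z.2 = 0 := by
          by_contra hne; exact hz (support_fderiv_subset ℝ hne)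
        rw [e1, e2]; simp
    simp only [hH, h0]
    exact Real.zero_rpow hq0.ne'
  have hHi : ∀ δ, Integrable (H δ) := fun δ =>
    (hHc δ).integrable_of_hasCompactSupport (HasCompactSupport.intro hKs (hHs δ))
  have hH0 : ∫ z, H 0 z = A * P := by
    have e1 : H 0 = fun z => ‖fderiv ℝ u1 z.1‖ ^ q * |ρ z.2| ^ q := by
      funext z
      simp only [hH, mul_zero, zero_add]
      rw [Real.mul_rpow (abs_nonneg _) (norm_nonneg _), mul_comm]
    rw [e1]
    exact integral_prod_mul (fun s => ‖fderiv ℝ u1 s‖ ^ q) (fun y => |ρ y| ^ q)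
  have hlim : Tendsto (fun n : ℕ => ∫ z, H (1 / ((n : ℝ) + 1)) z) atTop (𝓝 (∫ z, H 0 z)) := by
    refine tendsto_integral_of_dominated_convergence (H 1) (fun n =>
      (hHc _).aestronglyMeasurable) (hHi 1) (fun n => ?_) ?_
    · refine Eventually.of_forall fun z => ?_
      have hn : (0:ℝ) ≤ n := Nat.cast_nonneg n
      have h1 : 1 / ((n : ℝ) + 1) ≤ 1 := by
        rw [div_le_one (by positivity)]; linarith
      rw [Real.norm_of_nonneg (by simp only [hH]; positivity)]
      simp only [hH]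
      refine Real.rpow_le_rpow (by positivity) ?_ hq0.le
      gcongr
    · refine Eventually.of_forall fun z => ?_
      have h1 : Tendsto (fun n : ℕ => 1 / ((n : ℝ) + 1)) atTop (𝓝 0) :=
        tendsto_one_div_add_atTop_nhds_zero_nat
      have h2 : Continuous fun δ : ℝ => H δ z := by
        simp only [hH]
        refine Continuous.rpow_const ?_ fun x => Or.inr hq0.le
        fun_prop
      exact (h2.tendsto 0).comp h1
  rw [hH0] at hlim
  have hlt : A * P < (A / B + ε / 2) * (B * P) := by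
    have : (A / B + ε / 2) * (B * P) = A * P + ε / 2 * (B * P) := by
      field_simp
    rw [this]
    have : 0 < ε / 2 * (B * P) := by positivity
    linarith
  obtain ⟨n, hn⟩ := (hlim.eventually (gt_mem_nhds hlt)).exists
  set L : ℝ := (n : ℝ) + 1 with hL
  have hL0 : 0 < L := by positivity
  refine ⟨L, hL0, ?_⟩
  have hLinv : 1 / L = L⁻¹ := one_div L
  rw [hLinv] at hn
  -- the test function
  set u : EuclideanSpace ℝ (Fin (d + 1)) → ℝ := fun x => u1 (hdL d x) * ρ (L⁻¹ • tlL d x) with hu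
  have hsm : ContDiff ℝ 1 fun x => L⁻¹ • tlL d x := (L⁻¹ • tlL d).contDiff
  have huC : ContDiff ℝ 1 u :=
    (hu1.comp (hdL d).contDiff).mul (hρ.comp hsm)
  have huS : tsupport u ⊆ {x | hdL d x ∈ tsupport u1 ∧ L⁻¹ • tlL d x ∈ tsupport ρ} := by
    refine closure_minimal ?_ ?_
    · intro x hx
      refine ⟨subset_tsupport u1 ?_, subset_tsupport ρ ?_⟩
      · intro h; apply hx; simp only [hu]; rw [h, zero_mul]
      · intro h; apply hx; simp only [hu]; rw [h, mul_zero]
    · exact ((isClosed_tsupport u1).preimage (hdL d).continuous).inter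
        ((isClosed_tsupport ρ).preimage hsm.continuous)
  have huB : tsupport u ⊆ box d L := by
    intro x hx
    obtain ⟨h1, h2⟩ := huS hx
    have h3 := hs1 h1
    refine ⟨h3.1, h3.2, fun i => ?_⟩
    rw [ρ.tsupport_eq, mem_closedBall, dist_zero_right] at h2
    have h4 : |(L⁻¹ • tlL d x) i| ≤ 1 / 2 := (PiLp.norm_apply_le _ i).trans h2
    have h5 : (L⁻¹ • tlL d x) i = L⁻¹ * x i.succ := rfl
    rw [h5, abs_mul, abs_of_pos (inv_pos.2 hL0), inv_mul_le_iff₀ hL0] at h4
    linarith
  have huc : HasCompactSupport u :=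
    Metric.isCompact_of_isClosed_isBounded (isClosed_tsupport _) (box_bounded.subset huB)
  have hu0 : u ≠ 0 := by
    obtain ⟨s, hs⟩ := Function.ne_iff.1 h01
    intro h
    have h1 := congrFun h (cn d (s, 0))
    simp only [hu, hdL_cn, tlL_cn, smul_zero, hρ1, mul_one] at h1
    exact hs h1
  have hmem : (∫ x, ‖fderiv ℝ u x‖ ^ q) / (∫ x, |u x| ^ q) ∈ lamSet q (box d L) :=
    ⟨u, huC, huc, huB, hu0, rfl⟩
  refine (csInf_le (lamSet_bdd q (box d L)) hmem).trans ?_
  -- scaling on the second factor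
  have hscale : ∀ g : ℝ × EuclideanSpace ℝ (Fin d) → ℝ, Integrable g →
      Integrable (fun z : ℝ × EuclideanSpace ℝ (Fin d) => g (z.1, L⁻¹ • z.2)) →
      ∫ z : ℝ × EuclideanSpace ℝ (Fin d), g (z.1, L⁻¹ • z.2) = L ^ d * ∫ z, g z := by
    intro g hg hg'
    have e1 := integral_prod _ hg'
    have e2 := integral_prod _ hg
    have e0 : ∫ z : ℝ × EuclideanSpace ℝ (Fin d), g (z.1, L⁻¹ • z.2) =
      ∫ s : ℝ, ∫ y : EuclideanSpace ℝ (Fin d), g (s, L⁻¹ • y) := e1
    rw [e0, show ∫ z, g z = ∫ s : ℝ, ∫ y : EuclideanSpace ℝ (Fin d), g (s, y) from e2,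
      ← integral_const_mul]
    refine integral_congr_ae (Eventually.of_forall fun s => ?_)
    simp only
    rw [Measure.integral_comp_inv_smul volume (fun y => g (s, y)) L, finrank_euclideanSpace_fin,
      abs_of_nonneg (by positivity), smul_eq_mul]
  -- numerator
  have hnum : ∫ x, ‖fderiv ℝ u x‖ ^ q ≤ L ^ d * ∫ z, H L⁻¹ z := by
    have hpt : ∀ x, ‖fderiv ℝ u x‖ ^ q ≤ H L⁻¹ (hdL d x, L⁻¹ • tlL d x) := by
      intro x
      have h1 : HasFDerivAt (fun x => u1 (hdL d x)) ((fderiv ℝ u1 (hdL d x)).comp (hdL d)) x :=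
        ((hu1.differentiable one_ne_zero _).hasFDerivAt).comp x (hdL d).hasFDerivAt
      have h2 : HasFDerivAt (fun x => L⁻¹ • tlL d x) (L⁻¹ • tlL d) x :=
        (tlL d).hasFDerivAt.const_smul L⁻¹
      have h3 : HasFDerivAt (fun x => ρ (L⁻¹ • tlL d x))
          ((fderiv ℝ ρ (L⁻¹ • tlL d x)).comp (L⁻¹ • tlL d)) x :=
        ((hρ.differentiable one_ne_zero _).hasFDerivAt).comp x h2
      have h4 := (h1.mul h3).fderiv
      have h5 : fderiv ℝ u x = u1 (hdL d x) • ((fderiv ℝ ρ (L⁻¹ • tlL d x)).comp (L⁻¹ • tlL d)) +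
          ρ (L⁻¹ • tlL d x) • ((fderiv ℝ u1 (hdL d x)).comp (hdL d)) := h4
      rw [h5]
      simp only [hH]
      refine Real.rpow_le_rpow (norm_nonneg _) ?_ hq0.le
      refine (norm_add_le _ _).trans (add_le_add ?_ ?_)
      · rw [norm_smul, Real.norm_eq_abs]
        refine mul_le_mul_of_nonneg_left ?_ (abs_nonneg _)
        refine (ContinuousLinearMap.opNorm_comp_le _ _).trans ?_
        refine mul_le_mul_of_nonneg_left ?_ (norm_nonneg _)
        rw [norm_smul, Real.norm_of_nonneg (inv_pos.2 hL0).le]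
        exact mul_le_of_le_one_right (inv_pos.2 hL0).le norm_tlL
      · rw [norm_smul, Real.norm_eq_abs]
        refine mul_le_mul_of_nonneg_left ?_ (abs_nonneg _)
        refine (ContinuousLinearMap.opNorm_comp_le _ _).trans ?_
        exact mul_le_of_le_one_right (norm_nonneg _) norm_hdL
    have hcont : Continuous fun x => H L⁻¹ (hdL d x, L⁻¹ • tlL d x) :=
      (hHc _).comp ((hdL d).continuous.prodMk hsm.continuous)
    have hint : Integrable fun x => H L⁻¹ (hdL d x, L⁻¹ • tlL d x) := by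
      refine hcont.integrable_of_hasCompactSupport ?_
      have hbd : Bornology.IsBounded {x | hdL d x ∈ tsupport u1 ∧ L⁻¹ • tlL d x ∈ tsupport ρ} := by
        refine (box_bounded (d := d) (L := L)).subset ?_
        rintro x ⟨h1, h2⟩
        have h3 := hs1 h1
        refine ⟨h3.1, h3.2, fun i => ?_⟩
        rw [ρ.tsupport_eq, mem_closedBall, dist_zero_right] at h2
        have h4 : |(L⁻¹ • tlL d x) i| ≤ 1 / 2 := (PiLp.norm_apply_le _ i).trans h2
        have h5 : (L⁻¹ • tlL d x) i = L⁻¹ * x i.succ := rfl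
        rw [h5, abs_mul, abs_of_pos (inv_pos.2 hL0), inv_mul_le_iff₀ hL0] at h4
        linarith
      have hclosed : IsClosed {x | hdL d x ∈ tsupport u1 ∧ L⁻¹ • tlL d x ∈ tsupport ρ} :=
        ((isClosed_tsupport u1).preimage (hdL d).continuous).inter
          ((isClosed_tsupport ρ).preimage hsm.continuous)
      refine HasCompactSupport.intro (Metric.isCompact_of_isClosed_isBounded hclosed hbd) ?_
      intro x hx
      exact hHs _ _ hx
    have e1 : ∫ x, H L⁻¹ (hdL d x, L⁻¹ • tlL d x) =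
        ∫ z : ℝ × EuclideanSpace ℝ (Fin d), H L⁻¹ (z.1, L⁻¹ • z.2) := by
      rw [← (cn_mp d).integral_comp' (g := fun x => H L⁻¹ (hdL d x, L⁻¹ • tlL d x))]
      simp only [hdL_cn, tlL_cn]
    have hint2 : Integrable (fun z : ℝ × EuclideanSpace ℝ (Fin d) => H L⁻¹ (z.1, L⁻¹ • z.2)) := by
      have := ((cn_mp d).integrable_comp_emb (cn d).measurableEmbedding).2 hint
      refine this.congr (Eventually.of_forall fun z => ?_)
      simp only [Function.comp_apply, hdL_cn, tlL_cn]
    rw [← hscale _ (hHi _) hint2, ← e1]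
    exact integral_mono_of_nonneg (Eventually.of_forall fun x => by positivity) hint
      (Eventually.of_forall hpt)
  -- denominator
  have hden : ∫ x, |u x| ^ q = L ^ d * (B * P) := by
    have hcu : Continuous fun x => |u x| ^ q := huC.continuous.abs.rpow_const fun x => Or.inr hq0.le
    have hiu : Integrable fun x => |u x| ^ q := hcu.integrable_of_hasCompactSupport
      (huc.comp_left (g := fun t : ℝ => |t| ^ q) (by simp [Real.zero_rpow hq0.ne']))
    have hiz := ((cn_mp d).integrable_comp_emb (cn d).measurableEmbedding).2 hiu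
    set g : ℝ × EuclideanSpace ℝ (Fin d) → ℝ := fun z => |u1 z.1| ^ q * |ρ z.2| ^ q with hg
    have hgz : ∀ z : ℝ × EuclideanSpace ℝ (Fin d), |u (cn d z)| ^ q = g (z.1, L⁻¹ • z.2) := by
      intro z
      simp only [hu, hg, hdL_cn, tlL_cn]
      rw [abs_mul, Real.mul_rpow (abs_nonneg _) (abs_nonneg _)]
    have hgi : Integrable g := by
      have i1 : Integrable fun s => |u1 s| ^ q :=
        (hu1.continuous.abs.rpow_const fun x => Or.inr hq0.le).integrable_of_hasCompactSupport
          (hc1.comp_left (g := fun t : ℝ => |t| ^ q) (by simp [Real.zero_rpow hq0.ne']))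
      have i2 : Integrable fun y => |ρ y| ^ q :=
        (hρ.continuous.abs.rpow_const fun x => Or.inr hq0.le).integrable_of_hasCompactSupport
          (hρc.comp_left (g := fun t : ℝ => |t| ^ q) (by simp [Real.zero_rpow hq0.ne']))
      exact i1.mul_prod i2
    rw [← (cn_mp d).integral_comp' (g := fun x => |u x| ^ q)]
    simp only [hgz]
    rw [hscale g hgi (hiz.congr (Eventually.of_forall fun z => hgz z))]
    congr 1
    exact integral_prod_mul (fun s => |u1 s| ^ q) (fun y => |ρ y| ^ q)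
  have hLd : 0 < L ^ d := by positivity
  have hBP : 0 < B * P := mul_pos hBpos hPpos
  rw [hden, div_le_iff₀ (mul_pos hLd hBP)]
  have h1 : L ^ d * ∫ z, H L⁻¹ z ≤ L ^ d * ((A / B + ε / 2) * (B * P)) :=
    mul_le_mul_of_nonneg_left hn.le hLd.le
  have h2 : L ^ d * ((A / B + ε / 2) * (B * P)) ≤
      (lam q (Ioo (0:ℝ) 1) + ε) * (L ^ d * (B * P)) := by
    have h3 : A / B + ε / 2 ≤ lam q (Ioo (0:ℝ) 1) + ε := by linarith
    have h4 := mul_le_mul_of_nonneg_right h3 (mul_pos hLd hBP).le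
    calc L ^ d * ((A / B + ε / 2) * (B * P)) = (A / B + ε / 2) * (L ^ d * (B * P)) := by ring
      _ ≤ _ := h4
  exact (hnum.trans h1).trans h2

end Pool.Agent.TH925.J54
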