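import Mathlib

set_option autoImplicit false

open MeasureTheory Set Metric Filter Topology

namespace Pool.Agent.TH925.J55

/-- a convex open set of finite measure is bounded -/
theorem bounded_of_convex_finite {d : ℕ} {Ω : Set (EuclideanSpace ℝ (Fin d))} (hΩ : IsOpen Ω)
    (hc : Convex ℝ Ω) (hv : volume Ω < ⊤) : Bornology.IsBounded Ω := by
  rcases Ω.eq_empty_or_nonempty with rfl | ⟨x0, hx0⟩
  · exact Bornology.isBounded_empty
  obtain ⟨r, hr, hball⟩ := Metric.isOpen_iff.1 hΩ x0 hx0
  by_contra hunb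
  have hlarge : ∀ R : ℝ, ∃ y ∈ Ω, R < ‖y - x0‖ := by
    intro R
    by_contra hcon
    push Not at hcon
    apply hunb
    refine (Metric.isBounded_closedBall (x := x0) (r := R)).subset fun y hy => ?_
    rw [mem_closedBall, dist_eq_norm]
    exact hcon y hy
  have key : ∀ n : ℕ, (n : ENNReal) * volume (ball (0 : EuclideanSpace ℝ (Fin d)) (r / 2)) ≤
      volume Ω := by
    intro n
    obtain ⟨y, hy, hyR⟩ := hlarge (2 * (n + 1) * r)
    set R := ‖y - x0‖ with hR
    have hn : (0:ℝ) ≤ n := Nat.cast_nonneg n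
    have hR0 : 0 < R := lt_trans (by positivity) hyR
    set z : ℕ → EuclideanSpace ℝ (Fin d) := fun k => x0 + (k * r / R) • (y - x0) with hz
    have hsub : ∀ k ∈ Finset.range n, ball (z k) (r / 2) ⊆ Ω := by
      intro k hk q hq
      have hk' : (k : ℝ) < n := by exact_mod_cast Finset.mem_range.1 hk
      have hk0 : (0:ℝ) ≤ k := Nat.cast_nonneg k
      set s := (k : ℝ) * r / R with hs
      have hs0 : 0 ≤ s := by positivity
      have hs1 : s ≤ 1 / 2 := by
        rw [hs, div_le_iff₀ hR0]
        nlinarith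
      have h1s : 0 < 1 - s := by linarith
      -- q = (1 - s) • a + s • y with a in the ball around x0
      have ha : x0 + (1 - s)⁻¹ • (q - z k) ∈ Ω := by
        apply hball
        rw [mem_ball, dist_eq_norm, add_sub_cancel_left, norm_smul, norm_inv,
          Real.norm_of_nonneg h1s.le]
        rw [mem_ball, dist_eq_norm] at hq
        rw [inv_mul_lt_iff₀ h1s]
        nlinarith
      have := hc ha hy h1s.le hs0 (by ring)
      convert this using 1
      rw [smul_add, smul_smul, mul_inv_cancel₀ h1s.ne', one_smul]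
      simp only [hz]
      module
    have hdisj : (Finset.range n : Set ℕ).PairwiseDisjoint (fun k => ball (z k) (r / 2)) := by
      intro k _ l _ hkl
      refine Metric.ball_disjoint_ball ?_
      have e1 : z k - z l = (((k : ℝ) - l) * r / R) • (y - x0) := by
        simp only [hz]; module
      rw [dist_eq_norm, e1, norm_smul, ← hR, Real.norm_eq_abs, abs_div, abs_mul, abs_of_pos hr,
        abs_of_pos hR0, div_mul_cancel₀ _ hR0.ne']
      have h1 : (1:ℝ) ≤ |(k:ℝ) - l| := by
        have h2 : (k : ℤ) - l ≠ 0 := by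
          intro h3
          apply hkl
          have : (k : ℤ) = l := by linarith
          exact_mod_cast this
        have h3 := Int.one_le_abs h2
        have h4 : (((|(k : ℤ) - l| : ℤ)) : ℝ) = |(k:ℝ) - l| := by push_cast; rfl
        rw [← h4]
        exact_mod_cast h3
      nlinarith
    calc (n : ENNReal) * volume (ball (0 : EuclideanSpace ℝ (Fin d)) (r / 2))
        = ∑ k ∈ Finset.range n, volume (ball (z k) (r / 2)) := by
          rw [Finset.sum_congr rfl fun k _ => Measure.addHaar_ball_center volume (z k) (r / 2)]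
          rw [Finset.sum_const, Finset.card_range, nsmul_eq_mul]
      _ = volume (⋃ k ∈ Finset.range n, ball (z k) (r / 2)) :=
          (measure_biUnion_finset hdisj fun k _ => measurableSet_ball).symm
      _ ≤ volume Ω := measure_mono (iUnion₂_subset hsub)
  have hpos : volume (ball (0 : EuclideanSpace ℝ (Fin d)) (r / 2)) ≠ 0 :=
    (measure_ball_pos volume _ (by positivity)).ne'
  have h1 : Tendsto (fun n : ℕ => (n : ENNReal) *
      volume (ball (0 : EuclideanSpace ℝ (Fin d)) (r / 2))) atTop (𝓝 (⊤ *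
      volume (ball (0 : EuclideanSpace ℝ (Fin d)) (r / 2)))) :=
    ENNReal.Tendsto.mul_const ENNReal.tendsto_nat_nhds_top (Or.inl ENNReal.top_ne_zero)
  rw [ENNReal.top_mul hpos] at h1
  have h2 := le_of_tendsto' h1 key
  exact absurd hv (not_lt.2 h2)

/-- polytopes between a compact subset and a bounded convex open set -/
theorem exists_polytope {d : ℕ} (hd : 1 ≤ d) {Ω K : Set (EuclideanSpace ℝ (Fin d))} (hΩ : IsOpen Ω)
    (hc : Convex ℝ Ω) (hb : Bornology.IsBounded Ω) (hne : Ω.Nonempty) (hK : IsCompact K)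
    (hKΩ : K ⊆ Ω) :
    ∃ (n : ℕ) (ν : Fin (n + 1) → EuclideanSpace ℝ (Fin d)) (c : Fin (n + 1) → ℝ),
      (∀ i, ‖ν i‖ = 1) ∧ K ⊆ {x | ∀ i, 0 < inner ℝ (ν i) x + c i} ∧
      {x | ∀ i, 0 < inner ℝ (ν i) x + c i} ⊆ Ω ∧
      {x | ∀ i, 0 < inner ℝ (ν i) x + c i}.Nonempty := by
  classical
  obtain ⟨x0, hx0⟩ := hne
  obtain ⟨F, hF1, hF2⟩ : ∃ F : Finset (EuclideanSpace ℝ (Fin d)),
      (F : Set (EuclideanSpace ℝ (Fin d))) ⊆ Ω ∧
      insert x0 K ⊆ convexHull ℝ (F : Set (EuclideanSpace ℝ (Fin d))) := by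
    have hch : ∀ x ∈ Ω, ∃ u : Finset (EuclideanSpace ℝ (Fin d)),
        x ∈ interior (convexHull ℝ (u : Set (EuclideanSpace ℝ (Fin d)))) ∧
        convexHull ℝ (u : Set (EuclideanSpace ℝ (Fin d))) ⊆ Ω := by
      intro x hx
      obtain ⟨u, hu1, hu2⟩ := (convex_singleton (𝕜 := ℝ)
        x).exists_subset_interior_convexHull_finset_of_isCompact
        isCompact_singleton (t := Ω) (by rw [nhdsSet_singleton]; exact hΩ.mem_nhds hx)
      exact ⟨u, hu1 rfl, hu2⟩
    choose! b hb1 hb2 using hch
    have hins : ∀ x ∈ insert x0 K, x ∈ Ω := by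
      rintro x (rfl | hx)
      · exact hx0
      · exact hKΩ hx
    obtain ⟨t, htK, hcov⟩ := (hK.insert x0).elim_nhds_subcover
      (fun x => interior (convexHull ℝ (b x : Set (EuclideanSpace ℝ (Fin d))))) (fun x hx =>
        isOpen_interior.mem_nhds (hb1 x (hins x hx)))
    refine ⟨t.biUnion b, ?_, ?_⟩
    · intro y hy
      rw [Finset.mem_coe, Finset.mem_biUnion] at hy
      obtain ⟨x, hx, hyx⟩ := hy
      exact hb2 x (hins x (htK x hx)) (subset_convexHull ℝ _ hyx)
    · intro y hy
      obtain ⟨x, hx, hyx⟩ := mem_iUnion₂.1 (hcov hy)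
      refine convexHull_mono ?_ (interior_subset hyx)
      intro z hz
      rw [Finset.mem_coe, Finset.mem_biUnion]
      exact ⟨x, hx, hz⟩
  set C := convexHull ℝ (F : Set (EuclideanSpace ℝ (Fin d))) with hC
  have hCΩ : C ⊆ Ω := convexHull_min hF1 hc
  have hCcl : IsClosed C := (F.finite_toSet.isCompact_convexHull ℝ).isClosed
  have hCcv : Convex ℝ C := convex_convexHull ℝ _
  have hx0C : x0 ∈ C := hF2 (mem_insert _ _)
  have hKC : K ⊆ C := (subset_insert _ _).trans hF2
  -- separation at the frontier points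
  have hsep : ∀ y ∈ frontier Ω, ∃ (ν : EuclideanSpace ℝ (Fin d)) (c : ℝ), ‖ν‖ = 1 ∧
      (∀ x ∈ C, 0 < inner ℝ ν x + c) ∧ inner ℝ ν y + c < 0 := by
    intro y hy
    have hyC : y ∉ C := by
      intro h
      have h1 := hCΩ h
      rw [hΩ.frontier_eq] at hy
      exact hy.2 h1
    obtain ⟨f, u, hf1, hf2⟩ := geometric_hahn_banach_closed_point hCcv hCcl hyC
    set v := (InnerProductSpace.toDual ℝ (EuclideanSpace ℝ (Fin d))).symm f with hv
    have hvf : ∀ x, inner ℝ v x = f x := fun x => InnerProductSpace.toDual_symm_apply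
    have hv0 : v ≠ 0 := by
      intro h0
      have h1 := hf1 x0 hx0C
      rw [← hvf, h0, inner_zero_left] at h1 hf2
      linarith
    have hvn : 0 < ‖v‖ := norm_pos_iff.2 hv0
    refine ⟨-(‖v‖⁻¹ • v), u / ‖v‖, ?_, ?_, ?_⟩
    · rw [norm_neg, norm_smul, norm_inv, norm_norm, inv_mul_cancel₀ hvn.ne']
    · intro x hx
      rw [inner_neg_left, real_inner_smul_left, hvf]
      have h1 := hf1 x hx
      have : -(‖v‖⁻¹ * f x) + u / ‖v‖ = (u - f x) / ‖v‖ := by
        field_simp; ring
      rw [this]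
      exact div_pos (by linarith) hvn
    · rw [inner_neg_left, real_inner_smul_left, hvf]
      have : -(‖v‖⁻¹ * f y) + u / ‖v‖ = (u - f y) / ‖v‖ := by
        field_simp; ring
      rw [this]
      exact div_neg_of_neg_of_pos (by linarith) hvn
  choose! ν c hν1 hν2 hν3 using hsep
  have hfc : IsCompact (frontier Ω) :=
    Metric.isCompact_of_isClosed_isBounded isClosed_frontier
      (hb.closure.subset frontier_subset_closure)
  obtain ⟨t, htF, hcov⟩ := hfc.elim_nhds_subcover (fun y => {z | inner ℝ (ν y) z + c y < 0})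
    (fun y hy => by
      refine IsOpen.mem_nhds ?_ (hν3 y hy)
      exact isOpen_lt (by fun_prop) continuous_const)
  -- an additional half space
  obtain ⟨B, hB⟩ := hb.exists_norm_le
  set e0 : EuclideanSpace ℝ (Fin d) := EuclideanSpace.single ⟨0, hd⟩ 1 with he0
  have he0n : ‖e0‖ = 1 := by simp [he0]
  set eqv := t.equivFin with heqv
  set N : Fin (t.card + 1) → EuclideanSpace ℝ (Fin d) :=
    Fin.cons e0 (fun i => ν (eqv.symm i)) with hN
  set D : Fin (t.card + 1) → ℝ := Fin.cons (B + 1) (fun i => c (eqv.symm i)) with hD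
  have hpos : ∀ x ∈ C, ∀ i, 0 < inner ℝ (N i) x + D i := by
    intro x hx i
    refine Fin.cases ?_ (fun j => ?_) i
    · simp only [hN, hD, Fin.cons_zero]
      have h1 := abs_real_inner_le_norm e0 x
      rw [he0n, one_mul] at h1
      have h2 := hB x (hCΩ hx)
      have h3 := (abs_le.1 (h1.trans h2)).1
      linarith
    · simp only [hN, hD, Fin.cons_succ]
      exact hν2 _ (htF _ (eqv.symm j).2) x hx
  refine ⟨t.card, N, D, ?_, ?_, ?_, ⟨x0, fun i => hpos x0 hx0C i⟩⟩
  · intro i
    refine Fin.cases ?_ (fun j => ?_) i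
    · simp only [hN, Fin.cons_zero]
      exact he0n
    · simp only [hN, Fin.cons_succ]
      exact hν1 _ (htF _ (eqv.symm j).2)
  · intro x hx i
    exact hpos x (hKC hx) i
  · set P : Set (EuclideanSpace ℝ (Fin d)) := {x | ∀ i, 0 < inner ℝ (N i) x + D i} with hP
    have hPc : Convex ℝ P := by
      intro x hx y hy a b ha hb hab i
      have h1 := hx i
      have h2 := hy i
      rw [inner_add_right, real_inner_smul_right, real_inner_smul_right]
      have h3 : D i = a * D i + b * D i := by rw [← add_mul, hab, one_mul]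
      rw [h3]
      rcases ha.eq_or_lt with rfl | ha
      · have : b = 1 := by linarith
        subst this
        linarith
      · nlinarith
    have hPd : Disjoint (frontier Ω) P := by
      rw [Set.disjoint_left]
      intro y hy hyP
      obtain ⟨z, hz, hyz⟩ := mem_iUnion₂.1 (hcov hy)
      have h1 := hyP (Fin.succ (eqv ⟨z, hz⟩))
      simp only [hN, hD, Fin.cons_succ, Equiv.symm_apply_apply] at h1
      exact absurd h1 (not_lt.2 (le_of_lt hyz))
    have hclopen := isClopen_preimage_val hΩ hPd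
    have hPpre : PreconnectedSpace P := isPreconnected_iff_preconnectedSpace.1 hPc.isPreconnected
    have huniv := hclopen.eq_univ ⟨⟨x0, fun i => hpos x0 hx0C i⟩, hx0⟩
    intro x hx
    have : (⟨x, hx⟩ : P) ∈ (Subtype.val ⁻¹' Ω : Set P) := by
      rw [huniv]; exact mem_univ _
    exact this

end Pool.Agent.TH925.J55
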