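import Mathlib
import Pool.Agent.TH925.J53

set_option autoImplicit false
set_option linter.unusedVariables false

open MeasureTheory Set Metric Filter Topology

namespace Pool.Agent.TH925.J53

theorem refl_integral {x : ℝ} (h0 : 0 < x) (h1 : x < 1) :
    ∫ t in Ioi (0:ℝ), t ^ (x - 1) / (1 + t) = Real.pi / Real.sin (Real.pi * x) := by
  have hG1 : 0 < Real.Gamma x := Real.Gamma_pos_of_pos h0
  have hG2 : 0 < Real.Gamma (1 - x) := Real.Gamma_pos_of_pos (by linarith)
  have hgam : ∀ s ∈ Ioi (0:ℝ), ∀ a : ℝ, 0 < a →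
      ∫⁻ t in Ioi (0:ℝ), ENNReal.ofReal (t ^ (a - 1) * Real.exp (-(s * t))) =
        ENNReal.ofReal ((1 / s) ^ a * Real.Gamma a) := by
    intro s hs a ha
    have h := Real.integral_rpow_mul_exp_neg_mul_Ioi ha hs
    have hpos : 0 < (1 / s) ^ a * Real.Gamma a :=
      mul_pos (Real.rpow_pos_of_pos (one_div_pos.2 hs) _) (Real.Gamma_pos_of_pos ha)
    rw [← h, ofReal_integral_eq_lintegral_ofReal]
    · by_contra hcon
      rw [integral_undef hcon] at h
      exact hpos.ne h
    · refine (ae_restrict_iff' measurableSet_Ioi).2 (Eventually.of_forall fun t ht => ?_)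
      have : (0:ℝ) < t := ht
      simp only [Pi.zero_apply]
      positivity
  have hE : ∀ t ∈ Ioi (0:ℝ), ∫⁻ s in Ioi (0:ℝ), ENNReal.ofReal (Real.exp (-((1 + t) * s))) =
      ENNReal.ofReal (1 / (1 + t)) := by
    intro t ht
    have ht' : (0:ℝ) < t := ht
    have h := hgam (1 + t) (by show (0:ℝ) < 1 + t; linarith) 1 one_pos
    simp only [sub_self, Real.rpow_zero, one_mul, Real.rpow_one, Real.Gamma_one, mul_one] at h
    exact h
  have hL : ∫⁻ t in Ioi (0:ℝ), ENNReal.ofReal (t ^ (x - 1) / (1 + t)) =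
      ENNReal.ofReal (Real.Gamma x * Real.Gamma (1 - x)) := by
    have e1 : ∫⁻ t in Ioi (0:ℝ), ENNReal.ofReal (t ^ (x - 1) / (1 + t)) =
        ∫⁻ t in Ioi (0:ℝ), ∫⁻ s in Ioi (0:ℝ),
          ENNReal.ofReal (t ^ (x - 1) * Real.exp (-((1 + t) * s))) := by
      refine setLIntegral_congr_fun measurableSet_Ioi fun t ht => ?_
      have ht' : (0:ℝ) < t := ht
      have h2 : ∀ s : ℝ, ENNReal.ofReal (t ^ (x - 1) * Real.exp (-((1 + t) * s))) =
          ENNReal.ofReal (t ^ (x - 1)) * ENNReal.ofReal (Real.exp (-((1 + t) * s))) := fun s =>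
        ENNReal.ofReal_mul (by positivity)
      simp only [h2]
      rw [lintegral_const_mul _ (by fun_prop), hE t ht, ← ENNReal.ofReal_mul (by positivity)]
      congr 1
      ring
    rw [e1, lintegral_lintegral_swap (by
      refine Measurable.aemeasurable ?_
      refine ENNReal.measurable_ofReal.comp ?_
      refine Measurable.mul ?_ ?_
      · exact measurable_fst.pow_const _
      · fun_prop)]
    have e2 : ∫⁻ s in Ioi (0:ℝ), ∫⁻ t in Ioi (0:ℝ),
          ENNReal.ofReal (t ^ (x - 1) * Real.exp (-((1 + t) * s))) =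
        ∫⁻ s in Ioi (0:ℝ), ENNReal.ofReal (Real.Gamma x) *
          ENNReal.ofReal (s ^ ((1 - x) - 1) * Real.exp (-(1 * s))) := by
      refine setLIntegral_congr_fun measurableSet_Ioi fun s hs => ?_
      have hs' : (0:ℝ) < s := hs
      have h2 : ∀ t : ℝ, ENNReal.ofReal (t ^ (x - 1) * Real.exp (-((1 + t) * s))) =
          ENNReal.ofReal (Real.exp (-s)) *
            ENNReal.ofReal (t ^ (x - 1) * Real.exp (-(s * t))) := by
        intro t
        rw [← ENNReal.ofReal_mul (Real.exp_pos _).le]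
        congr 1
        have : Real.exp (-((1 + t) * s)) = Real.exp (-s) * Real.exp (-(s * t)) := by
          rw [← Real.exp_add]; congr 1; ring
        rw [this]; ring
      simp only [h2]
      rw [lintegral_const_mul _ (by
        refine ENNReal.measurable_ofReal.comp ?_
        exact (measurable_id.pow_const _).mul (by fun_prop)), hgam s hs x h0,
        ← ENNReal.ofReal_mul (Real.exp_pos _).le, ← ENNReal.ofReal_mul hG1.le]
      congr 1
      have h3 : (1 / s) ^ x = s ^ ((1 - x) - 1) := by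
        rw [one_div, Real.inv_rpow hs'.le, ← Real.rpow_neg hs'.le]
        congr 1; ring
      rw [h3, one_mul]
      ring
    rw [e2, lintegral_const_mul _ (by
      refine ENNReal.measurable_ofReal.comp ?_
      exact (measurable_id.pow_const _).mul (by fun_prop)),
      hgam 1 (by show (0:ℝ) < 1; norm_num) (1 - x) (by linarith), ← ENNReal.ofReal_mul hG1.le]
    congr 1
    simp
  have hnn : 0 ≤ᵐ[volume.restrict (Ioi (0:ℝ))] fun t => t ^ (x - 1) / (1 + t) := by
    refine (ae_restrict_iff' measurableSet_Ioi).2 (Eventually.of_forall fun t ht => ?_)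
    have : (0:ℝ) < t := ht
    simp only [Pi.zero_apply]
    positivity
  rw [integral_eq_lintegral_of_nonneg_ae hnn, hL, ENNReal.toReal_ofReal (by positivity),
    Real.Gamma_mul_Gamma_one_sub]
  refine Measurable.aestronglyMeasurable ?_
  exact (measurable_id.pow_const _).div (by fun_prop)

/-- closed form -/
theorem Jr_eq {r : ℝ} (hr : 1 < r) :
    2 * Jr r = 2 * Real.pi * (r - 1) ^ (1 / r) / (r * Real.sin (Real.pi / r)) := by
  have hr0 : 0 < r := by linarith
  have hr1 : 0 < r - 1 := by linarith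
  set s := r / (r - 1) with hs
  have hs1 : 1 < s := rp_gt hr
  have hs0 : 0 < s := by linarith
  have hx : 1 / s = 1 - 1 / r := by rw [hs]; field_simp
  have hx0 : 0 < 1 / s := by positivity
  have hx1 : 1 / s < 1 := by rw [div_lt_one hs0]; exact hs1
  set g : ℝ → ℝ := fun t => t ^ (1 / s - 1) / (1 + t) with hg
  have hgI : ∫ t in Ioi (0:ℝ), g t = Real.pi / Real.sin (Real.pi * (1 / s)) :=
    refl_integral hx0 hx1
  have e1 : ∫ b in Ioi (0:ℝ), g ((r - 1) * b) = (r - 1)⁻¹ * ∫ t in Ioi (0:ℝ), g t := by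
    have := integral_comp_mul_left_Ioi g 0 hr1
    rw [mul_zero, smul_eq_mul] at this
    exact this
  have e2 : ∫ a in Ioi (0:ℝ), (|s| * a ^ (s - 1)) • g ((r - 1) * a ^ s) =
      ∫ b in Ioi (0:ℝ), g ((r - 1) * b) :=
    integral_comp_rpow_Ioi (fun b => g ((r - 1) * b)) hs0.ne'
  have e3 : ∫ a in Ioi (0:ℝ), (|s| * a ^ (s - 1)) • g ((r - 1) * a ^ s) =
      s * (r - 1) ^ (1 / s - 1) * Jr r := by
    unfold Jr
    rw [← integral_const_mul]
    refine setIntegral_congr_fun measurableSet_Ioi fun a ha => ?_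
    have ha0 : (0:ℝ) < a := ha
    simp only [hg, smul_eq_mul, abs_of_pos hs0]
    have h1 : ((r - 1) * a ^ s) ^ (1 / s - 1) = (r - 1) ^ (1 / s - 1) * a ^ (1 - s) := by
      rw [Real.mul_rpow hr1.le (by positivity), ← Real.rpow_mul ha0.le]
      congr 2
      field_simp
    have h2 : a ^ (s - 1) * a ^ (1 - s) = 1 := by
      rw [← Real.rpow_add ha0]; simp
    rw [h1]
    have h3 : s * a ^ (s - 1) * ((r - 1) ^ (1 / s - 1) * a ^ (1 - s) / (1 + (r - 1) * a ^ s)) =
        s * (r - 1) ^ (1 / s - 1) * (a ^ (s - 1) * a ^ (1 - s)) * (1 / (1 + (r - 1) * a ^ s)) := by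
      ring
    rw [h3, h2, mul_one]
  rw [e3, e1, hgI] at e2
  have hsin : Real.sin (Real.pi * (1 / s)) = Real.sin (Real.pi / r) := by
    rw [hx]
    have : Real.pi * (1 - 1 / r) = Real.pi - Real.pi / r := by ring
    rw [this, Real.sin_pi_sub]
  rw [hsin] at e2
  have hsp : 0 < Real.sin (Real.pi / r) := by
    refine Real.sin_pos_of_pos_of_lt_pi (by positivity) ?_
    rw [div_lt_iff₀ hr0]
    nlinarith [Real.pi_pos]
  have hpow : (r - 1) ^ (1 / s - 1) = ((r - 1) ^ (1 / r))⁻¹ := by
    rw [hx, ← Real.rpow_neg hr1.le]; congr 1; ring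
  rw [hpow] at e2
  have hpp : 0 < (r - 1) ^ (1 / r) := by positivity
  have h4 : Jr r = (r - 1)⁻¹ * (Real.pi / Real.sin (Real.pi / r)) * (r - 1) ^ (1 / r) / s := by
    rw [← e2]
    field_simp
  rw [h4, hs]
  field_simp

end Pool.Agent.TH925.J53
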